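import Pool.Agent.Q43.HL.Fin
import Pool.Agent.Q299.D3Q.Polx
import Pool.Agent.W546.GHC.Defs

/-!
# The abelian varieties of CM type
-/

set_option autoImplicit false
set_option linter.unusedSectionVars false

namespace Pool.Agent.Q43.HL

open Module NumberField Pool.Agent.H204R3.CM Pool.Agent.H204R3.GP Pool.Agent.W516.MTD
  Pool.Agent.TH170.LV Pool.Agent.H194R3.CM Pool.Agent.Q60.D3 Pool.Agent.W546.GHC

noncomputable section

variable {ι : Type} [Fintype ι] {E : ι → Type} [∀ i, Field (E i)] [∀ i, NumberField (E i)]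
  [∀ i, IsCMField (E i)]

/-- The product of the abelian varieties of CM type. -/
def cmAV (Φ : ∀ i, Set (E i →+* ℂ)) (hΦ : ∀ i, IsCMType (Φ i)) : AV :=
  Pool.Agent.Q60.D3Q.avOf Pool.Agent.Q299.D3Q.polx ⟨ι, fun i => ⟨E i, Φ i, hΦ i⟩⟩

theorem specializes_self (Φ : ∀ i, Set (E i →+* ℂ)) (hΦ : ∀ i, IsCMType (Φ i)) :
    SpecializesTo (cmAV Φ hΦ) Φ :=
  ⟨LinearEquiv.refl ℚ _, fun _ _ h => h⟩

section transfer

variable {H T : Type} [AddCommGroup H] [Module ℚ H] [AddCommGroup T] [Module ℂ T] (p : H →+ T)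

theorem transfer {m : ℕ} (f : H [⋀^Fin (2 * m)]→ₗ[ℚ] ℚ) (hf : IsHodge p f)
    (h : ∀ f' : (Fin 1 → H) [⋀^Fin m × Fin 2]→ₗ[ℚ] ℚ, IsHodge (perPow p 1) f' →
      f' ∈ divisorial (perPow p 1) m) :
    f ∈ Submodule.span ℚ (divisorProducts p (2 * m) m) := by
  classical
  let e : Fin (2 * m) ≃ Fin m × Fin 2 := (finCongr (mul_comm 2 m)).trans finProdFinEquiv.symm
  let f' : (Fin 1 → H) [⋀^Fin m × Fin 2]→ₗ[ℚ] ℚ :=
    (f.domDomCongr e).compLinearMap (LinearMap.proj 0)
  have hf' : IsHodge (perPow p 1) f' := by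
    obtain ⟨ψ, h1, h2⟩ := hf
    refine ⟨(ψ.domDomCongr e).compLinearMap (fun _ => LinearMap.proj 0), fun v => ?_,
      fun z hz u => ?_⟩
    · exact h1 (fun l => v (e l) 0)
    · exact h2 z hz (fun l => u (e l) 0)
  have h1 := h f' hf'
  let L : ((Fin 1 → H) [⋀^Fin m × Fin 2]→ₗ[ℚ] ℚ) →ₗ[ℚ] (H [⋀^Fin (2 * m)]→ₗ[ℚ] ℚ) :=
    { toFun := fun g => (g.compLinearMap (LinearMap.pi fun _ => LinearMap.id)).domDomCongr e.symm
      map_add' := fun g g' => by
        ext v
        rfl
      map_smul' := fun c g => by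
        ext v
        rfl }
  have hLf : L f' = f := by
    ext v
    change f (fun l => v (e.symm (e l))) = f v
    congr 1
    funext l
    rw [e.symm_apply_apply]
  rw [← hLf]
  have h2 : Submodule.map L (divisorial (perPow p 1) m) ≤
      Submodule.span ℚ (divisorProducts p (2 * m) m) := by
    unfold divisorial
    rw [Submodule.map_span, Submodule.span_le]
    rintro _ ⟨g, ⟨B, hB, hg⟩, rfl⟩
    apply Submodule.subset_span
    refine ⟨0, (Equiv.sumEmpty _ _).trans e.symm,
      fun s => (B s).compLinearMap (LinearMap.pi fun _ => LinearMap.id),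
      AlternatingMap.constOfIsEmpty ℚ H (Fin 0) 1, fun s => ?_, fun v => ?_⟩
    · obtain ⟨ψ, k1, k2⟩ := hB s
      refine ⟨ψ.compLinearMap (fun _ => LinearMap.pi fun _ => LinearMap.id), fun v => ?_,
        fun z hz u => ?_⟩
      · exact k1 (fun l _ => v l)
      · exact k2 z hz (fun l _ => u l)
    · change g (fun l _ => v (e.symm l)) = _
      rw [hg]
      let F : Equiv.Perm (Fin (2 * m)) → ℚ := fun τ => (((Equiv.Perm.sign τ : ℤ) : ℚ) *
        ((∏ s, (B s).compLinearMap (LinearMap.pi fun _ : Fin 1 => (LinearMap.id : H →ₗ[ℚ] H))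
          ![v (τ (((Equiv.sumEmpty _ (Fin 0)).trans e.symm) (Sum.inl (s, 0)))),
            v (τ (((Equiv.sumEmpty _ (Fin 0)).trans e.symm) (Sum.inl (s, 1))))]) *
        AlternatingMap.constOfIsEmpty ℚ H (Fin 0) (1 : ℚ) (fun r => v (τ
          (((Equiv.sumEmpty _ (Fin 0)).trans e.symm) (Sum.inr r))))))
      have h3 : ∀ σ : Equiv.Perm (Fin m × Fin 2),
          (Equiv.Perm.sign σ : ℤ) * ∏ l, B l ![(fun (l : Fin m × Fin 2) (_ : Fin 1) => v (e.symm l)) (σ (l, 0)),
            (fun (l : Fin m × Fin 2) (_ : Fin 1) => v (e.symm l)) (σ (l, 1))] =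
          F (e.symm.permCongr σ) := by
        intro σ
        have h4 : Equiv.Perm.sign (e.symm.permCongr σ) = Equiv.Perm.sign σ :=
          Equiv.Perm.sign_permCongr _ _
        dsimp only [F]
        rw [h4, AlternatingMap.constOfIsEmpty_apply, Function.const_apply, mul_one]
        congr 1
        refine Finset.prod_congr rfl fun l _ => ?_
        refine congrArg (fun w : Fin 2 → Fin 1 → H => B l w) ?_
        funext j
        fin_cases j
        · funext i
          simp [Equiv.permCongr_apply]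
        · funext i
          simp [Equiv.permCongr_apply]
      rw [Finset.sum_congr rfl fun σ _ => h3 σ]
      exact Equiv.sum_comp (e.symm.permCongr) F
  exact h2 (Submodule.mem_map_of_mem h1)

end transfer

end

end Pool.Agent.Q43.HL
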