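import Pool.Agent.Q43.HL.Str7
import Pool.Agent.Q43.HL.CmAv

/-!
# The structure of the Hodge classes on abelian varieties with a CM specialization of small defect
-/

set_option autoImplicit false
set_option linter.unusedSectionVars false

namespace Pool.Agent.Q43.HL

open Module Matrix NumberField Pool.Agent.H204R3.CM Pool.Agent.H204R3.SP Pool.Agent.H204R3.GP
  Pool.Agent.W516.MTD Pool.Agent.TH170.LV Pool.Agent.W516.FT Pool.Agent.Q60.D3 Pool.Agent.Q43.RP

noncomputable section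

variable {n : ℕ} {H T : Type} [AddCommGroup H] [Module ℚ H] [AddCommGroup T] [Module ℂ T]
  (per : H →+ T) (b : Basis (Fin n) ℚ H) (b' : Basis (Fin n) ℝ T) (hb : ∀ i, b' i = per (b i))
  {ω₀ : H →ₗ[ℚ] H →ₗ[ℚ] ℚ} (hR : IsRiemannForm per ω₀)
  {ι : Type} [Fintype ι] {E : ι → Type} [∀ i, Field (E i)] [∀ i, NumberField (E i)]
  [∀ i, IsCMField (E i)] (u : H ≃ₗ[ℚ] (∀ i, E i))

/-- The endomorphism of the homology given by an element of the algebra. -/
def mulH (z : ∀ i, E i) : H →ₗ[ℚ] H :=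
  u.symm.toLinearMap ∘ₗ LinearMap.mulLeft ℚ z ∘ₗ u.toLinearMap

theorem mulH_apply (z : ∀ i, E i) (h : H) : mulH u z h = u.symm (z * u h) := rfl

/-- Linear functionals are determined by their values at rational vectors. -/
theorem ext_cpr {f f' : (Fin n → ℂ) →ₗ[ℂ] ℂ} (h : ∀ x, f (cpr b x) = f' (cpr b x)) : f = f' := by
  refine (Pi.basisFun ℂ (Fin n)).ext fun i => ?_
  rw [Pi.basisFun_apply, ← cpr_basis b, h]

theorem cx_mulH (z : ∀ i, E i) (x : Σ i, (E i →+* ℂ)) (v : Fin n → ℂ) :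
    cx b u x (mQ b (mulH u z) *ᵥ v) = x.2 (z x.1) * cx b u x v := by
  have h1 : (cx b u x) ∘ₗ (mQ b (mulH u z)).mulVecLin = x.2 (z x.1) • cx b u x := by
    refine ext_cpr b fun h => ?_
    rw [LinearMap.comp_apply, mulVecLin_apply, mQ_cpr, cx_cpr, LinearMap.smul_apply, cx_cpr,
      smul_eq_mul, mulH_apply, LinearEquiv.apply_symm_apply, Pi.mul_apply, map_mul]
  exact congrArg (fun f : (Fin n → ℂ) →ₗ[ℂ] ℂ => f v) h1

theorem mulH_eb (z : ∀ i, E i) (x : Σ i, (E i →+* ℂ)) :
    mQ b (mulH u z) *ᵥ eb b u x = x.2 (z x.1) • eb b u x := by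
  classical
  refine ext_cx b u fun y => ?_
  rw [cx_mulH, map_smul, cx_eb, smul_eq_mul]
  by_cases hxy : y = x
  · rw [hxy]
  · rw [if_neg hxy, mul_zero, mul_zero]

theorem mQ_comp (P Q : H →ₗ[ℚ] H) : mQ b (P ∘ₗ Q) = mQ b P * mQ b Q := by
  ext i j
  have h1 : ∀ k, ((b.repr (P (b k)) i : ℚ) : ℂ) = mQ b P i k := fun _ => rfl
  have h2 : mQ b (P ∘ₗ Q) i j = ((b.repr (P (Q (b j))) i : ℚ) : ℂ) := rfl
  have h3 : Q (b j) = ∑ k, b.repr (Q (b j)) k • b k := (b.sum_repr _).symm
  rw [h2, h3, map_sum, map_sum, Finset.sum_apply', Rat.cast_sum, Matrix.mul_apply]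
  refine Finset.sum_congr rfl fun k _ => ?_
  rw [map_smul, map_smul, Finsupp.smul_apply, smul_eq_mul, Rat.cast_mul, mul_comm]
  rfl

/-- The subalgebra of the elements which are constant on the classes of embeddings. -/
def FA : Subalgebra ℚ (∀ i, E i) where
  carrier := {z | ∀ x y, WRel per b u x y → x.2 (z x.1) = y.2 (z y.1)}
  mul_mem' := fun {z w} hz hw x y h => by
    rw [Pi.mul_apply, Pi.mul_apply, map_mul, map_mul, hz x y h, hw x y h]
  add_mem' := fun {z w} hz hw x y h => by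
    rw [Pi.add_apply, Pi.add_apply, map_add, map_add, hz x y h, hw x y h]
  algebraMap_mem' := fun q x y _ => by
    rw [Pi.algebraMap_apply, Pi.algebraMap_apply, eq_ratCast, eq_ratCast, map_ratCast, map_ratCast]

theorem mem_FA {z : ∀ i, E i} :
    z ∈ FA per b u ↔ ∀ x y, WRel per b u x y → x.2 (z x.1) = y.2 (z y.1) := Iff.rfl

theorem wrel_refl (x : Σ i, (E i →+* ℂ)) : WRel per b u x x := fun _ _ _ _ _ => rfl

theorem wrel_symm {x y : Σ i, (E i →+* ℂ)} (h : WRel per b u x y) : WRel per b u y x :=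
  fun m ψ hψ I hI => (h m ψ hψ I hI).symm

theorem wrel_trans {x y z : Σ i, (E i →+* ℂ)} (h : WRel per b u x y) (h' : WRel per b u y z) :
    WRel per b u x z := fun m ψ hψ I hI => (h m ψ hψ I hI).trans (h' m ψ hψ I hI)

/-- The subalgebra separates the classes. -/
theorem FA_sep {x y : Σ i, (E i →+* ℂ)} (h : ∀ z ∈ FA per b u, x.2 (z x.1) = y.2 (z y.1)) :
    WRel per b u x y := by
  classical
  let C : Submodule ℂ (Fin n → ℂ) :=
    { carrier := {v | ∀ x y, WRel per b u x y → cx b u x v = cx b u y v}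
      zero_mem' := fun x y _ => by rw [map_zero, map_zero]
      add_mem' := fun {v w} hv hw x y h => by rw [map_add, map_add, hv x y h, hw x y h]
      smul_mem' := fun c v hv x y h => by rw [map_smul, map_smul, hv x y h] }
  have hC : ∀ (τ : ℂ ≃+* ℂ), ∀ c ∈ C, (fun i => τ (c i)) ∈ C := by
    intro τ c hc x y hxy
    have h1 := hc _ _ (wrel_conj per b u τ.symm hxy)
    have h2 := cx_conj b u τ (sgl τ.symm x) c
    have h3 := cx_conj b u τ (sgl τ.symm y) c
    have h4 : ∀ x : Σ i, (E i →+* ℂ), (⟨(sgl τ.symm x).1,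
      (τ : ℂ →+* ℂ).comp (sgl τ.symm x).2⟩ : Σ i, (E i →+* ℂ)) = x := fun x => sgl_symm τ x
    rw [h4] at h2 h3
    rw [h2, h3, h1]
  have hspan := Pool.Agent.W437.HD.span_rational C hC
  have hxy : ∀ v ∈ C, cx b u x v = cx b u y v := by
    intro v hv
    rw [hspan] at hv
    refine Submodule.span_induction (p := fun v _ => cx b u x v = cx b u y v) ?_ ?_ ?_ ?_ hv
    · rintro w ⟨hw, q, hq⟩
      let h₀ : H := ∑ i, q i • b i
      have h1 : w = cpr b h₀ := by
        funext i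
        unfold cpr
        rw [map_sum, Finset.sum_apply', Finset.sum_eq_single i]
        · rw [map_smul, Finsupp.smul_apply, Basis.repr_self, Finsupp.single_eq_same, smul_eq_mul,
            mul_one]
          exact congrFun hq i
        · intro k _ hk
          rw [map_smul, Finsupp.smul_apply, Basis.repr_self, Finsupp.single_eq_of_ne hk.symm,
            smul_zero]
        · intro hi
          exact absurd (Finset.mem_univ i) hi
      have h2 : u h₀ ∈ FA per b u := by
        intro x' y' hxy'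
        have h3 := hw x' y' hxy'
        rw [h1, cx_cpr, cx_cpr] at h3
        exact h3
      rw [h1, cx_cpr, cx_cpr]
      exact h _ h2
    · rw [map_zero, map_zero]
    · intro v w _ _ hv hw
      rw [map_add, map_add, hv, hw]
    · intro c v _ hv
      rw [map_smul, map_smul, hv]
  let v₀ : Fin n → ℂ := ∑ w, (if WRel per b u x w then (1 : ℂ) else 0) • eb b u w
  have hv₀ : ∀ a, cx b u a v₀ = if WRel per b u x a then 1 else 0 := by
    intro a
    change cx b u a (∑ w, (if WRel per b u x w then (1 : ℂ) else 0) • eb b u w) = _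
    rw [map_sum, Finset.sum_eq_single a]
    · rw [map_smul, cx_eb, if_pos rfl, smul_eq_mul, mul_one]
    · intro w _ hw
      have h5 : (if a = w then (1 : ℂ) else 0) = 0 := if_neg (fun h => hw h.symm)
      rw [map_smul, cx_eb, h5, smul_zero]
    · intro ha
      exact absurd (Finset.mem_univ a) ha
  have hv₀C : v₀ ∈ C := by
    intro a a' haa
    rw [hv₀, hv₀]
    have h1 : WRel per b u x a ↔ WRel per b u x a' :=
      ⟨fun h => wrel_trans per b u h haa, fun h => wrel_trans per b u h (wrel_symm per b u haa)⟩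
    simp only [h1]
  have h1 := hxy v₀ hv₀C
  rw [hv₀, hv₀, if_pos (wrel_refl per b u x)] at h1
  by_contra hno
  rw [if_neg hno] at h1
  exact one_ne_zero h1

/-- The entries of the matrix of a rational endomorphism in the basis of eigenvectors. -/
def ent (P : H →ₗ[ℚ] H) (x y : Σ i, (E i →+* ℂ)) : ℂ := cx b u x (mQ b P *ᵥ eb b u y)

theorem ent_eq (P : H →ₗ[ℚ] H) (v : Fin n → ℂ) (x : Σ i, (E i →+* ℂ)) :
    cx b u x (mQ b P *ᵥ v) = ∑ y, ent b u P x y * cx b u y v := by
  have h1 : v = ∑ y, cx b u y v • eb b u y := ((eb b u).sum_repr v).symm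
  conv_lhs => rw [h1]
  rw [← mulVecLin_apply, map_sum, map_sum]
  refine Finset.sum_congr rfl fun y _ => ?_
  rw [map_smul, map_smul, smul_eq_mul, mul_comm]
  rfl

theorem ent_comp (P Q : H →ₗ[ℚ] H) (x y : Σ i, (E i →+* ℂ)) :
    ent b u (P ∘ₗ Q) x y = ∑ z, ent b u P x z * ent b u Q z y := by
  have h1 : ent b u (P ∘ₗ Q) x y = cx b u x (mQ b P *ᵥ (mQ b Q *ᵥ eb b u y)) := by
    unfold ent
    rw [mQ_comp, Matrix.mulVec_mulVec]
  rw [h1, ent_eq]
  rfl

/-- Maps which commute with the subalgebra are block diagonal. -/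
theorem ent_zero {P : H →ₗ[ℚ] H}
    (hP : ∀ z ∈ FA per b u, ∀ v, P (mulH u z v) = mulH u z (P v)) {x y : Σ i, (E i →+* ℂ)}
    (hxy : ¬ WRel per b u x y) : ent b u P x y = 0 := by
  obtain ⟨z, hz, hne⟩ : ∃ z ∈ FA per b u, x.2 (z x.1) ≠ y.2 (z y.1) := by
    by_contra h
    push Not at h
    exact hxy (FA_sep per b u h)
  have h1 : mQ b P * mQ b (mulH u z) = mQ b (mulH u z) * mQ b P := by
    rw [← mQ_comp, ← mQ_comp]
    congr 1
    exact LinearMap.ext fun v => hP z hz v
  have h2 : cx b u x ((mQ b P * mQ b (mulH u z)) *ᵥ eb b u y) =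
      cx b u x ((mQ b (mulH u z) * mQ b P) *ᵥ eb b u y) := by rw [h1]
  rw [← Matrix.mulVec_mulVec, ← Matrix.mulVec_mulVec, mulH_eb, cx_mulH, Matrix.mulVec_smul,
    map_smul, smul_eq_mul] at h2
  have h3 : (y.2 (z y.1) - x.2 (z x.1)) * ent b u P x y = 0 := by
    unfold ent
    linear_combination h2
  exact (mul_eq_zero.1 h3).resolve_left (sub_ne_zero.2 (Ne.symm hne))

open Classical in
/-- The determinant of a block. -/
def bd {L : Type} (bk : (Σ i, (E i →+* ℂ)) → L) (l : L) (P : H →ₗ[ℚ] H) : ℂ :=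
  (Matrix.of fun x y : {x // bk x = l} => ent b u P x.1 y.1).det

open Classical in
theorem bd_comp {L : Type} (bk : (Σ i, (E i →+* ℂ)) → L)
    (hbk : ∀ x y, bk x = bk y ↔ WRel per b u x y) (l : L) {P Q : H →ₗ[ℚ] H}
    (hP : ∀ z ∈ FA per b u, ∀ v, P (mulH u z v) = mulH u z (P v)) :
    bd b u bk l (P ∘ₗ Q) = bd b u bk l P * bd b u bk l Q := by
  unfold bd
  rw [← Matrix.det_mul]
  congr 1
  ext x y
  rw [Matrix.mul_apply, Matrix.of_apply, ent_comp]
  symm
  refine Fintype.sum_of_injective (fun z : {x // bk x = l} => z.1) Subtype.val_injective _ _ ?_ ?_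
  · intro z hz
    rw [ent_zero per b u hP, zero_mul]
    intro h
    apply hz
    exact ⟨⟨z, ((hbk _ _).2 h).symm.trans x.2⟩, rfl⟩
  · intro z
    rfl

theorem bd_id {L : Type} (bk : (Σ i, (E i →+* ℂ)) → L) (l : L) :
    bd b u bk l (LinearMap.id : H →ₗ[ℚ] H) = 1 := by
  classical
  have h0 : mQ b (LinearMap.id : H →ₗ[ℚ] H) = 1 := by
    ext i j
    change ((b.repr (b j) i : ℚ) : ℂ) = _
    rw [Basis.repr_self, Finsupp.single_apply, Matrix.one_apply]
    by_cases h : i = j
    · rw [if_pos h, if_pos h.symm, Rat.cast_one]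
    · rw [if_neg h, if_neg (fun h' => h h'.symm), Rat.cast_zero]
  have h1 : (Matrix.of fun x y : {x // bk x = l} =>
      ent b u (LinearMap.id : H →ₗ[ℚ] H) x.1 y.1) = 1 := by
    ext x y
    rw [Matrix.of_apply]
    unfold ent
    rw [h0, Matrix.one_mulVec, cx_eb, Matrix.one_apply]
    by_cases h : x = y
    · rw [if_pos h, if_pos (congrArg Subtype.val h)]
    · rw [if_neg h, if_neg (fun h' => h (Subtype.ext h'))]
  unfold bd
  rw [h1]
  convert Matrix.det_one

/-- The commutators of the automorphisms of the homology which commute with the algebra. -/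
def ComS (FF : Set (∀ i, E i)) : Set (H →ₗ[ℚ] H) :=
  {P | ∃ g h : H ≃ₗ[ℚ] H, (∀ z ∈ FF, ∀ v, g (mulH u z v) = mulH u z (g v)) ∧
    (∀ z ∈ FF, ∀ v, h (mulH u z v) = mulH u z (h v)) ∧
    P = g.toLinearMap ∘ₗ h.toLinearMap ∘ₗ g.symm.toLinearMap ∘ₗ h.symm.toLinearMap}

theorem comm_symm {g : H ≃ₗ[ℚ] H} {P : H →ₗ[ℚ] H} (h : ∀ v, g (P v) = P (g v)) (v : H) :
    g.symm (P v) = P (g.symm v) := by
  apply g.injective
  rw [LinearEquiv.apply_symm_apply, h, LinearEquiv.apply_symm_apply]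

open Classical in
theorem com_mat {L : Type} (bk : (Σ i, (E i →+* ℂ)) → L)
    (hbk : ∀ x y, bk x = bk y ↔ WRel per b u x y) {P : H →ₗ[ℚ] H}
    (hP : P ∈ ComS u (FA per b u : Set (∀ i, E i))) :
    ∃ G : Matrix (Σ i, (E i →+* ℂ)) (Σ i, (E i →+* ℂ)) ℂ,
      (∀ v x, (eb b u).repr (mQ b P *ᵥ v) x = ∑ y, G x y * (eb b u).repr v y) ∧
      (∀ x y, bk x ≠ bk y → G x y = 0) ∧
      ∀ l : L, (Matrix.of fun x y : {x // bk x = l} => G x.1 y.1).det = 1 := by
  obtain ⟨g, h, hg, hh, rfl⟩ := hP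
  have hg' : ∀ z ∈ FA per b u, ∀ v, g.symm.toLinearMap (mulH u z v) =
      mulH u z (g.symm.toLinearMap v) := fun z hz v => comm_symm (hg z hz) v
  have hh' : ∀ z ∈ FA per b u, ∀ v, h.symm.toLinearMap (mulH u z v) =
      mulH u z (h.symm.toLinearMap v) := fun z hz v => comm_symm (hh z hz) v
  refine ⟨fun x y => ent b u (g.toLinearMap ∘ₗ h.toLinearMap ∘ₗ g.symm.toLinearMap ∘ₗ
    h.symm.toLinearMap) x y, fun v x => ent_eq b u _ v x, fun x y hxy => ?_, fun l => ?_⟩
  · refine ent_zero per b u (fun z hz v => ?_) (fun hw => hxy ((hbk x y).2 hw))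
    change g (h (g.symm (h.symm (mulH u z v)))) = mulH u z (g (h (g.symm (h.symm v))))
    rw [comm_symm (hh z hz), comm_symm (hg z hz), hh z hz, hg z hz]
  · change bd b u bk l _ = 1
    have hg1 : ∀ z ∈ (FA per b u), ∀ v, g.toLinearMap (mulH u z v) =
      mulH u z (g.toLinearMap v) := hg
    have hh1 : ∀ z ∈ (FA per b u), ∀ v, h.toLinearMap (mulH u z v) =
      mulH u z (h.toLinearMap v) := hh
    rw [bd_comp per b u bk hbk l hg1, bd_comp per b u bk hbk l hh1, bd_comp per b u bk hbk l hg']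
    have e1 : bd b u bk l g.toLinearMap * bd b u bk l g.symm.toLinearMap = 1 := by
      rw [← bd_comp per b u bk hbk l hg1, ← bd_id b u bk l]
      congr 1
      exact LinearMap.ext fun v => g.apply_symm_apply v
    have e2 : bd b u bk l h.toLinearMap * bd b u bk l h.symm.toLinearMap = 1 := by
      rw [← bd_comp per b u bk hbk l hh1, ← bd_id b u bk l]
      congr 1
      exact LinearMap.ext fun v => h.apply_symm_apply v
    linear_combination (bd b u bk l h.toLinearMap * bd b u bk l h.symm.toLinearMap) * e1 + e2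

variable (Φ : ∀ i, Set (E i →+* ℂ)) (hΦ : ∀ i, IsCMType (Φ i))
  (hsp : ∀ (m : ℕ) (ψ : MultilinearMap ℚ (fun _ : Fin m × Fin 2 => H) ℚ),
    IsHodgeTensor per ψ → IsHodgeTensor (perS u Φ) ψ)

include hb hR hΦ hsp in
/-- If there are no excesses, then all Hodge tensors are generated in degree two. -/
theorem tensor_bal {k : ℕ} (hlf : LevelFree Φ k 0) (hk : 2 ≤ k)
    (h0 : finrank ℚ (KX per b u) = 0) {m : ℕ}
    (ψ : MultilinearMap ℚ (fun _ : Fin m × Fin 2 => H) ℚ) (hψ : IsHodgeTensor per ψ) :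
    ψ ∈ Submodule.span ℚ {ψ : MultilinearMap ℚ (fun _ : Fin m × Fin 2 => H) ℚ |
      IsProductOfHodgeBilinear per ψ} := by
  classical
  have hpol := isPol_of per b b' hb hR
  have hK : KX per b u = ⊥ := Submodule.finrank_eq_zero.1 h0
  have hW : ∀ x y, WRel per b u x y := by
    intro x y
    rw [wrel_iff]
    intro f hf
    rw [hK, Submodule.mem_bot] at hf
    rw [hf]
    rfl
  apply product_of_span per b b' hb
  refine Pool.Agent.Q43.RP.tateG_low (M := max m 1) (eb b u) (inv := bar)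
    (jj := fun x => om b ω₀ (eb b u x) (eb b u (bar x))) bar_bar bar_ne
    (jj_anti per b b' hb hR u Φ hΦ hsp hlf hk) (jj_ne per b b' hb hR u Φ hΦ hsp hlf hk)
    (om b ω₀) (om_pair per b b' hb hR u Φ hΦ hsp hlf hk) (rho (pj b')) (chi (pj b'))
    (le_max_right _ _) hpol.sim hpol.hasProj ?_ (le_max_left _ _)
    (ex b ψ) (tate_of_HT ⟨ex_rat b ψ, (hodge_iff per b b' hb ψ).1 hψ⟩)
  intro m' φ _ hφ I hI y
  have h1 := wrel_tate per b b' u (hW y (bar y)) hb m' φ hφ I hI
  rw [dl_inv bar_bar] at h1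
  have h2 : dl bar I y = 0 := by omega
  unfold dl at h2
  have h3 : ((Finset.univ.filter (fun k => I k = y)).card : ℤ) =
      (Finset.univ.filter (fun k => I k = bar y)).card := sub_eq_zero.1 h2
  exact_mod_cast h3

theorem det_inst {n R : Type*} [CommRing R] (d1 d2 : DecidableEq n) (f1 f2 : Fintype n)
    (M : Matrix n n R) : @Matrix.det n d1 f1 R _ M = @Matrix.det n d2 f2 R _ M := by
  obtain rfl := Subsingleton.elim d1 d2
  obtain rfl := Subsingleton.elim f1 f2
  rfl

include b' hb hR hΦ hsp in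
/-- **The structure of the Hodge tensors.** -/
theorem strD {g N D : ℕ} (hg : ∀ i, 2 * g ≤ finrank ℚ (E i))
    (hN : ∑ i, finrank ℚ (E i) = 2 * N) (hD : N + 1 ≤ mtDim Φ + D) (h4 : 4 * D < g) :
    ∃ FF : Subalgebra ℚ (∀ i, E i),
      (∃ (M : ℕ) (r : (ℂ ≃+* ℂ) →* (Matrix (Fin M) (Fin M) ℚ)ˣ), M ≤ D ∧
        ((r cc : (Matrix (Fin M) (Fin M) ℚ)ˣ) : Matrix (Fin M) (Fin M) ℚ) = -1 ∧
        (∀ σ, r σ = 1 ↔ ∀ z ∈ FF, ∀ (i : ι) (x : E i →+* ℂ), σ (x (z i)) = x (z i)) ∧
        (M = 0 → ∀ (m : ℕ) (ψ : MultilinearMap ℚ (fun _ : Fin m × Fin 2 => H) ℚ),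
          IsHodgeTensor per ψ → ψ ∈ Submodule.span ℚ
            {ψ : MultilinearMap ℚ (fun _ : Fin m × Fin 2 => H) ℚ |
              IsProductOfHodgeBilinear per ψ})) ∧
      (∀ z ∈ FF, IsHodgeEnd per (mulH u z)) ∧
      ∀ (m : ℕ) (ψ : MultilinearMap ℚ (fun _ : Fin m × Fin 2 => H) ℚ), IsHodgeTensor per ψ →
        ψ ∈ Submodule.span ℚ (HSet per (ComS u (FF : Set (∀ i, E i))) m) := by
  classical
  have hlf : LevelFree Φ 4 0 := levelFree_of_mtDim Φ hΦ hg hN hD h4
  let S : Setoid (Σ i, (E i →+* ℂ)) :=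
    { r := WRel per b u
      iseqv :=
        { refl := wrel_refl per b u
          symm := wrel_symm per b u
          trans := wrel_trans per b u } }
  let bk : (Σ i, (E i →+* ℂ)) → Quotient S := Quotient.mk S
  have hbk : ∀ x y, bk x = bk y ↔ WRel per b u x y := fun x y => Quotient.eq
  refine ⟨FA per b u, ?_, ?_, ?_⟩
  · let f : (ℂ ≃+* ℂ) →* Matrix (Fin (finrank ℚ (KX per b u))) (Fin (finrank ℚ (KX per b u))) ℚ :=
      ((LinearMap.toMatrixAlgEquiv (finBasis ℚ (KX per b u)) :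
        Module.End ℚ (KX per b u) ≃ₐ[ℚ] _) : Module.End ℚ (KX per b u) →* _).comp (LamK per b u)
    refine ⟨finrank ℚ (KX per b u), f.toHomUnits,
      finrank_KX per b b' hb u Φ hΦ hsp hN hD, ?_, fun σ => ?_,
      fun h0 m ψ hψ => tensor_bal per b b' hb hR u Φ hΦ hsp hlf (by norm_num) h0 ψ hψ⟩
    · change LinearMap.toMatrixAlgEquiv (finBasis ℚ (KX per b u)) (LamK per b u cc) = -1
      have h0 := map_neg (LinearMap.toMatrixAlgEquiv (finBasis ℚ (KX per b u)))
        (1 : Module.End ℚ (KX per b u))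
      rw [map_one] at h0
      rw [LamK_cc]
      exact h0
    have h1 : f.toHomUnits σ = 1 ↔ LamK per b u σ = 1 := by
      rw [← Units.val_inj, MonoidHom.coe_toHomUnits, Units.val_one]
      constructor
      · intro h
        apply (LinearMap.toMatrixAlgEquiv (finBasis ℚ (KX per b u))).injective
        rw [map_one]
        exact h
      · intro h
        change LinearMap.toMatrixAlgEquiv (finBasis ℚ (KX per b u)) (LamK per b u σ) = 1
        rw [h, map_one]
    rw [h1, LamK_one_iff]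
    constructor
    · intro h z hz i x
      have h2 := hz _ _ (h ⟨i, x⟩)
      have h3 : σ.symm (x (z i)) = x (z i) := h2
      conv_lhs => rw [← h3]
      exact σ.apply_symm_apply _
    · rintro h ⟨i, x⟩
      refine FA_sep per b u fun z hz => ?_
      change σ.symm (x (z i)) = x (z i)
      conv_lhs => rw [← h z hz i x]
      exact σ.symm_apply_apply _
  · intro z hz
    exact end_block per b b' hb hR u Φ hΦ hsp hlf le_rfl bk hbk
      (fun x => x.2 (z x.1)) (fun x => mulH_eb b u z x) (fun x y h => hz x y ((hbk x y).1 h))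
  · intro m ψ hψ
    refine strC per b b' hb hR u Φ hΦ hsp hlf le_rfl bk hbk _ (fun P hP => ?_) ψ hψ
    obtain ⟨G, h1, h2, h3⟩ := com_mat per b u bk hbk hP
    refine ⟨G, h1, h2, fun l => ?_⟩
    exact (det_inst _ _ _ _ _).trans (h3 l)

end

end Pool.Agent.Q43.HL
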