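import Pool.Agent.Q43.HL.Four

/-!
# Abelian varieties without factors of type IV
-/

set_option autoImplicit false
set_option linter.unusedSectionVars false

namespace Pool.Agent.Q43.HL

open Module Matrix NumberField Pool.Agent.H204R3.CM Pool.Agent.H204R3.SP Pool.Agent.H204R3.GP
  Pool.Agent.W516.MTD Pool.Agent.TH170.LV Pool.Agent.W516.FT

noncomputable section

variable {n : ℕ} {H T : Type} [AddCommGroup H] [Module ℚ H] [AddCommGroup T] [Module ℂ T]
  (per : H →+ T) (b : Basis (Fin n) ℚ H) (b' : Basis (Fin n) ℝ T) (hb : ∀ i, b' i = per (b i))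
  {ω₀ : H →ₗ[ℚ] H →ₗ[ℚ] ℚ} (hR : IsRiemannForm per ω₀)
  {ι : Type} [Fintype ι] {E : ι → Type} [∀ i, Field (E i)] [∀ i, NumberField (E i)]
  [∀ i, IsCMField (E i)]
  (u : H ≃ₗ[ℚ] (∀ i, E i)) (Φ : ∀ i, Set (E i →+* ℂ)) (hΦ : ∀ i, IsCMType (Φ i))
  (hsp : ∀ (m : ℕ) (ψ : MultilinearMap ℚ (fun _ : Fin m × Fin 2 => H) ℚ),
    IsHodgeTensor per ψ → IsHodgeTensor (perS u Φ) ψ)

/-- The matrix of a rational endomorphism. -/
def mQ (P : H →ₗ[ℚ] H) : Matrix (Fin n) (Fin n) ℂ :=
  Matrix.of fun i j => ((b.repr (P (b j)) i : ℚ) : ℂ)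

theorem mQ_cpr (P : H →ₗ[ℚ] H) (x : H) : mQ b P *ᵥ cpr b x = cpr b (P x) := by
  have h1 : P x = ∑ j, b.repr x j • P (b j) := by
    conv_lhs => rw [← b.sum_repr x, map_sum]
    exact Finset.sum_congr rfl fun j _ => map_smul _ _ _
  funext i
  rw [mulVec, dotProduct]
  unfold cpr
  rw [h1, map_sum, Finset.sum_apply', Rat.cast_sum]
  refine Finset.sum_congr rfl fun j _ => ?_
  rw [map_smul, Finsupp.smul_apply, smul_eq_mul, Rat.cast_mul, mul_comm]
  rfl

theorem mQ_eq_charpoly [FiniteDimensional ℚ H] (P : H →ₗ[ℚ] H) : (mQ b P).charpoly = P.charpoly.map (algebraMap ℚ ℂ) := by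
  have h1 : mQ b P = (LinearMap.toMatrix b b P).map (algebraMap ℚ ℂ) := by
    ext i j
    rw [Matrix.map_apply, LinearMap.toMatrix_apply]
    rfl
  rw [h1, Matrix.charpoly_map, LinearMap.charpoly_toMatrix]

theorem om_comp (β : H →ₗ[ℚ] H →ₗ[ℚ] ℚ) (P : H →ₗ[ℚ] H) (v w : Fin n → ℂ) :
    om b (β.comp P) v w = om b β (mQ b P *ᵥ v) w := by
  have h1 : om b (β.comp P) = (om b β).comp (mQ b P).mulVecLin := by
    refine bilin_ext b fun i j => ?_
    rw [om_cpr, LinearMap.comp_apply, LinearMap.comp_apply, mulVecLin_apply, mQ_cpr, om_cpr]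
  rw [h1]
  rfl

theorem om_inj {β β' : H →ₗ[ℚ] H →ₗ[ℚ] ℚ} (h : om b β = om b β') : β = β' := by
  refine b.ext fun i => b.ext fun j => ?_
  have h1 : om b β (cpr b (b i)) (cpr b (b j)) = om b β' (cpr b (b i)) (cpr b (b j)) := by rw [h]
  rw [om_cpr, om_cpr] at h1
  exact_mod_cast h1

/-- The conjugate of a vector of the eigenbasis. -/
theorem conj_eb (x : Σ i, (E i →+* ℂ)) : (fun i => cc (eb b u x i)) = eb b u (bar x) := by
  classical
  refine ext_cx b u fun y => ?_
  have h1 := cx_conj b u cc (bar y) (eb b u x)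
  have h2 : (⟨(bar y).1, ((cc : ℂ ≃+* ℂ) : ℂ →+* ℂ).comp (bar y).2⟩ : Σ i, (E i →+* ℂ)) = y := by
    obtain ⟨i, φ⟩ := y
    change (⟨i, _⟩ : Σ i, (E i →+* ℂ)) = ⟨i, φ⟩
    congr 1
    ext a
    exact Complex.conj_conj _
  rw [h2] at h1
  rw [h1, cx_eb, cx_eb]
  have h3 : (bar y = x) ↔ (y = bar x) := by
    constructor
    · intro h
      rw [← h, bar_bar]
    · intro h
      rw [h, bar_bar]
  simp only [h3]
  split_ifs
  · exact map_one _
  · exact map_zero _

theorem mQ_conj (P : H →ₗ[ℚ] H) (v : Fin n → ℂ) :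
    mQ b P *ᵥ (fun i => cc (v i)) = fun i => cc ((mQ b P *ᵥ v) i) := by
  rw [conj_mulVec]
  congr 1
  ext i j
  rw [Matrix.map_apply]
  exact (map_ratCast cc _).symm

include hb hR hΦ hsp in
/-- Endomorphisms are diagonal. -/
theorem end_diag {k : ℕ} (hlf : LevelFree Φ k 0) (hk : 2 ≤ k) {P : H →ₗ[ℚ] H}
    (hP : IsHodgeBilinear per (ω₀.comp P)) (x : Σ i, (E i →+* ℂ)) :
    ∃ c : ℂ, mQ b P *ᵥ eb b u x = c • eb b u x := by
  classical
  have hpol := isPol_of per b b' hb hR
  have h1 : IsTate2 (rho (pj b')) (chi (pj b')) (om b (ω₀.comp P)) := by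
    rw [tate2_iff, bf_om]
    exact tate_of_HT ⟨ex_rat b _, (hodge_iff per b b' hb _).1
      ((hodge2_tensor per b b' hb _).2 hP)⟩
  set v := mQ b P *ᵥ eb b u x with hv
  have h2 : ∀ z, z ≠ x → (eb b u).repr v z = 0 := by
    intro z hz
    have h3 : om b ω₀ v (eb b u (bar z)) = (eb b u).repr v z *
        om b ω₀ (eb b u z) (eb b u (bar z)) := by
      conv_lhs => rw [← (eb b u).sum_repr v]
      have h4 : om b ω₀ (∑ i, (eb b u).repr v i • eb b u i) =
        ∑ i, om b ω₀ ((eb b u).repr v i • eb b u i) := map_sum _ _ _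
      rw [h4, LinearMap.sum_apply, Finset.sum_eq_single z]
      · rw [map_smul, LinearMap.smul_apply, smul_eq_mul]
      · intro y _ hy
        rw [map_smul, LinearMap.smul_apply, om_pair per b b' hb hR u Φ hΦ hsp hlf hk]
        unfold JJ
        rw [if_neg, smul_zero]
        intro h
        apply hy
        rw [← bar_bar y, ← h, bar_bar]
      · intro h
        exact absurd (Finset.mem_univ z) h
    have h5 : om b ω₀ v (eb b u (bar z)) = 0 := by
      rw [hv, ← om_comp]
      by_contra h0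
      have h6 := tate2_pair per b b' hb u Φ hΦ hsp hlf hk h1 h0
      apply hz
      rw [← bar_bar z, h6, bar_bar]
    rw [h5] at h3
    exact (mul_eq_zero.1 h3.symm).resolve_right (jj_ne per b b' hb hR u Φ hΦ hsp hlf hk z)
  refine ⟨(eb b u).repr v x, ?_⟩
  conv_lhs => rw [← (eb b u).sum_repr v]
  rw [Finset.sum_eq_single x]
  · intro y _ hy
    rw [h2 y hy, zero_smul]
  · intro h
    exact absurd (Finset.mem_univ x) h

/-- The Hodge form of an endomorphism. -/
theorem hodge_of_end {ω₀ : H →ₗ[ℚ] H →ₗ[ℚ] ℚ} (hω : IsHodgeBilinear per ω₀) {P : H →ₗ[ℚ] H}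
    (hP : IsHodgeEnd per P) : IsHodgeBilinear per (ω₀.comp P) := by
  obtain ⟨F, hF1, hF2⟩ := hω
  obtain ⟨C, hC⟩ := hP
  refine ⟨F.comp (C.restrictScalars ℝ), fun x y => ?_, fun z hz v w => ?_⟩
  · change F (C (per x)) (per y) = _
    rw [hC, hF1]
    rfl
  · change F (C (z • v)) (z • w) = F (C v) w
    rw [show C (z • v) = z • C v from map_smul C z v, hF2 z hz]

include hb hR in
/-- Hodge forms come from endomorphisms. -/
theorem end_of_hodge {β : H →ₗ[ℚ] H →ₗ[ℚ] ℚ} (hβ : IsHodgeBilinear per β) :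
    ∃ Q : H →ₗ[ℚ] H, IsHodgeEnd per Q ∧ ω₀.comp Q = β := by
  have hR' := hR
  obtain ⟨F, hF1, hF2, hF3, hF4⟩ := hR'
  obtain ⟨G, hG1, hG2⟩ := hβ
  have _ : FiniteDimensional ℝ T := b'.finiteDimensional_of_finite
  have _ : FiniteDimensional ℚ H := b.finiteDimensional_of_finite
  have hFinj : Function.Injective F := by
    rw [← LinearMap.ker_eq_bot, Submodule.eq_bot_iff]
    intro v hv
    by_contra h0
    have h1 := hF4 v h0
    have h2 : F (Complex.I • v) v = 0 := by
      have h3 := hF2 Complex.I Complex.norm_I (Complex.I • v) v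
      rw [smul_smul, Complex.I_mul_I, neg_smul, one_smul, map_neg, LinearMap.neg_apply,
        LinearMap.mem_ker.1 hv, LinearMap.zero_apply, neg_zero] at h3
      exact h3.symm
    rw [h2] at h1
    exact lt_irrefl _ h1
  let Fe : T ≃ₗ[ℝ] (T →ₗ[ℝ] ℝ) := LinearEquiv.ofInjectiveOfFinrankEq F hFinj
    (Subspace.dual_finrank_eq (K := ℝ) (V := T)).symm
  let C : T →ₗ[ℝ] T := Fe.symm.toLinearMap ∘ₗ G
  have hC : ∀ v w, F (C v) w = G v w := by
    intro v w
    have h1 : Fe (C v) = G v := Fe.apply_symm_apply _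
    exact congrArg (fun f : T →ₗ[ℝ] ℝ => f w) h1
  have hFeq : ∀ v v', (∀ w, F v w = F v' w) → v = v' := fun v v' h =>
    hFinj (LinearMap.ext h)
  have hCz : ∀ z : ℂ, ‖z‖ = 1 → ∀ v, C (z • v) = z • C v := by
    intro z hz v
    have hz0 : z ≠ 0 := by
      intro h0
      rw [h0, norm_zero] at hz
      exact zero_ne_one hz
    refine hFeq _ _ fun w => ?_
    have h1 : w = z • (z⁻¹ • w) := by rw [smul_smul, mul_inv_cancel₀ hz0, one_smul]
    rw [h1, hC, hG2 z hz, hF2 z hz, hC]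
  let C' : T →ₗ[ℂ] T :=
    { toFun := C
      map_add' := map_add C
      map_smul' := by
        intro c v
        have h1 : c • v = c.re • v + c.im • (Complex.I • v) := by
          conv_lhs => rw [← Complex.re_add_im c]
          rw [add_smul, mul_smul, Complex.coe_smul, Complex.coe_smul]
        have h2 : c • C v = c.re • C v + c.im • (Complex.I • C v) := by
          conv_lhs => rw [← Complex.re_add_im c]
          rw [add_smul, mul_smul, Complex.coe_smul, Complex.coe_smul]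
        rw [h1, map_add, map_smul, map_smul, hCz _ Complex.norm_I, RingHom.id_apply, h2] }
  have hωinj : Function.Injective ω₀ := by
    rw [← LinearMap.ker_eq_bot, Submodule.eq_bot_iff]
    intro v hv
    have h1 : cpr b v = 0 := by
      apply (isPol_of per b b' hb hR).nondeg
      intro w
      have h2 : om b ω₀ (cpr b v) = 0 := by
        refine (Pi.basisFun ℂ (Fin n)).ext fun i => ?_
        rw [Pi.basisFun_apply, ← cpr_basis b, om_cpr, LinearMap.mem_ker.1 hv]
        simp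
      rw [h2, LinearMap.zero_apply]
    apply b.repr.injective
    ext i
    have h2 : ((b.repr v i : ℚ) : ℂ) = 0 := congrFun h1 i
    rw [map_zero, Finsupp.zero_apply]
    exact_mod_cast h2
  let Oe : H ≃ₗ[ℚ] (H →ₗ[ℚ] ℚ) := LinearEquiv.ofInjectiveOfFinrankEq ω₀ hωinj
    (Subspace.dual_finrank_eq (K := ℚ) (V := H)).symm
  let Q : H →ₗ[ℚ] H := Oe.symm.toLinearMap ∘ₗ β
  have hQ : ∀ v, ω₀ (Q v) = β v := fun v => Oe.apply_symm_apply _
  refine ⟨Q, ⟨C', fun w => ?_⟩, LinearMap.ext hQ⟩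
  change C (per w) = per (Q w)
  apply hFinj
  refine b'.ext fun i => ?_
  rw [hC, hb, hG1, hF1, hQ]

theorem flip_hodge {β : H →ₗ[ℚ] H →ₗ[ℚ] ℚ} (h : IsHodgeBilinear per β) :
    IsHodgeBilinear per β.flip := by
  obtain ⟨F, h1, h2⟩ := h
  refine ⟨F.flip, fun x y => ?_, fun z hz v w => ?_⟩
  · rw [LinearMap.flip_apply, h1]
    rfl
  · rw [LinearMap.flip_apply, LinearMap.flip_apply, h2 z hz]

theorem add_hodge {β β' : H →ₗ[ℚ] H →ₗ[ℚ] ℚ} (h : IsHodgeBilinear per β)
    (h' : IsHodgeBilinear per β') : IsHodgeBilinear per (β + β') := by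
  obtain ⟨F, h1, h2⟩ := h
  obtain ⟨F', h1', h2'⟩ := h'
  refine ⟨F + F', fun x y => ?_, fun z hz v w => ?_⟩
  · rw [LinearMap.add_apply, LinearMap.add_apply, h1, h1']
    change _ = ((β x y + β' x y : ℚ) : ℝ)
    rw [Rat.cast_add]
  · rw [LinearMap.add_apply, LinearMap.add_apply, LinearMap.add_apply, LinearMap.add_apply,
      h2 z hz, h2' z hz]

theorem end_zero : IsHodgeEnd per (0 : H →ₗ[ℚ] H) :=
  ⟨0, fun w => by rw [LinearMap.zero_apply, LinearMap.zero_apply, map_zero]⟩

theorem end_add {P P' : H →ₗ[ℚ] H} (h : IsHodgeEnd per P) (h' : IsHodgeEnd per P') :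
    IsHodgeEnd per (P + P') := by
  obtain ⟨C, hC⟩ := h
  obtain ⟨C', hC'⟩ := h'
  exact ⟨C + C', fun w => by rw [LinearMap.add_apply, hC, hC', ← map_add]; rfl⟩

theorem end_smul (q : ℚ) {P : H →ₗ[ℚ] H} (h : IsHodgeEnd per P) : IsHodgeEnd per (q • P) := by
  obtain ⟨C, hC⟩ := h
  refine ⟨(q : ℂ) • C, fun w => ?_⟩
  rw [LinearMap.smul_apply, LinearMap.smul_apply, hC]
  have h1 := map_ratCast_smul per ℚ ℂ q (P w)
  rw [Rat.cast_id] at h1
  exact h1.symm

theorem end_sum {κ : Type} (s : Finset κ) (t : κ → ℚ) (P : κ → (H →ₗ[ℚ] H))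
    (h : ∀ i, IsHodgeEnd per (P i)) : IsHodgeEnd per (∑ i ∈ s, t i • P i) := by
  classical
  induction s using Finset.induction_on with
  | empty =>
    rw [Finset.sum_empty]
    exact end_zero per
  | insert a s ha ih =>
    rw [Finset.sum_insert ha]
    exact end_add per (end_smul per _ (h a)) ih

theorem mQ_sum {κ : Type} (s : Finset κ) (t : κ → ℚ) (P : κ → (H →ₗ[ℚ] H)) :
    mQ b (∑ i ∈ s, t i • P i) = ∑ i ∈ s, (t i : ℂ) • mQ b (P i) := by
  ext i j
  rw [Matrix.sum_apply]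
  change ((b.repr ((∑ k ∈ s, t k • P k) (b j)) i : ℚ) : ℂ) = _
  rw [LinearMap.sum_apply, map_sum, Finset.sum_apply', Rat.cast_sum]
  refine Finset.sum_congr rfl fun k _ => ?_
  rw [LinearMap.smul_apply, map_smul, Finsupp.smul_apply, smul_eq_mul, Rat.cast_mul,
    Matrix.smul_apply, smul_eq_mul]
  rfl

include hb hR hΦ hsp in
/-- Symmetric Hodge forms are given by central endomorphisms. -/
theorem skew_data {k : ℕ} (hlf : LevelFree Φ k 0) (hk : 2 ≤ k) {s : H →ₗ[ℚ] H →ₗ[ℚ] ℚ}
    (hs : IsHodgeBilinear per s) (hsymm : ∀ x y, s x y = s y x) :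
    ∃ (Q : H →ₗ[ℚ] H) (lam : (Σ i, (E i →+* ℂ)) → ℂ), IsHodgeEnd per Q ∧
      (∀ P : H →ₗ[ℚ] H, IsHodgeEnd per P → Q ∘ₗ P = P ∘ₗ Q) ∧ ω₀.comp Q = s ∧
      (∀ x, mQ b Q *ᵥ eb b u x = lam x • eb b u x) ∧ (∀ x, lam (bar x) = cc (lam x)) ∧
      ∀ x, lam (bar x) = - lam x := by
  classical
  have hpol := isPol_of per b b' hb hR
  have hHB : IsHodgeBilinear per ω₀ := by
    obtain ⟨F, h1, h2, -, -⟩ := hR
    exact ⟨F, h1, h2⟩
  obtain ⟨Q, hQ1, hQ2⟩ := end_of_hodge per b b' hb hR hs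
  have hdiag : ∀ P : H →ₗ[ℚ] H, IsHodgeEnd per P → ∀ x, ∃ c : ℂ,
      mQ b P *ᵥ eb b u x = c • eb b u x := fun P hP x =>
    end_diag per b b' hb hR u Φ hΦ hsp hlf hk (hodge_of_end per hHB hP) x
  have hcomm : ∀ P : H →ₗ[ℚ] H, IsHodgeEnd per P → Q ∘ₗ P = P ∘ₗ Q := by
    intro P hP
    have h1 : (mQ b Q).mulVecLin ∘ₗ (mQ b P).mulVecLin = (mQ b P).mulVecLin ∘ₗ (mQ b Q).mulVecLin := by
      refine (eb b u).ext fun x => ?_
      obtain ⟨c, hc⟩ := hdiag P hP x
      obtain ⟨d, hd⟩ := hdiag Q hQ1 x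
      rw [LinearMap.comp_apply, LinearMap.comp_apply, mulVecLin_apply, mulVecLin_apply,
        mulVecLin_apply, mulVecLin_apply, hc, hd, mulVec_smul, mulVec_smul, hc, hd, smul_comm]
    refine LinearMap.ext fun w => ?_
    have h2 := congrArg (fun f : (Fin n → ℂ) →ₗ[ℂ] (Fin n → ℂ) => f (cpr b w)) h1
    simp only [LinearMap.comp_apply, mulVecLin_apply, mQ_cpr] at h2
    apply b.repr.injective
    ext i
    have h3 := congrFun h2 i
    unfold cpr at h3
    exact_mod_cast h3
  choose lam hlam using fun x => hdiag Q hQ1 x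
  refine ⟨Q, lam, hQ1, hcomm, hQ2, hlam, fun x => ?_, fun x => ?_⟩
  · have h1 := mQ_conj b Q (eb b u x)
    rw [conj_eb, hlam, hlam] at h1
    have h2 : (fun i => cc ((lam x • eb b u x) i)) = cc (lam x) • eb b u (bar x) := by
      rw [← conj_eb]
      funext i
      rw [Pi.smul_apply, Pi.smul_apply, smul_eq_mul, smul_eq_mul, map_mul]
    rw [h2] at h1
    have h4 := sub_eq_zero.2 h1
    rw [← sub_smul] at h4
    exact sub_eq_zero.1 ((smul_eq_zero.1 h4).resolve_right ((eb b u).ne_zero _))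
  · have h1 : om b s (eb b u x) (eb b u (bar x)) = om b s (eb b u (bar x)) (eb b u x) := by
      rw [om_apply, om_apply, Finset.sum_comm]
      refine Finset.sum_congr rfl fun i _ => Finset.sum_congr rfl fun j _ => ?_
      rw [hsymm (b j) (b i)]
      ring
    rw [← hQ2, om_comp, om_comp, hlam, hlam, map_smul, map_smul, LinearMap.smul_apply,
      LinearMap.smul_apply, hpol.anti (eb b u (bar x)) (eb b u x), smul_eq_mul, smul_eq_mul] at h1
    have h2 := jj_ne per b b' hb hR u Φ hΦ hsp hlf hk x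
    have h3 : (lam (bar x) + lam x) * om b ω₀ (eb b u x) (eb b u (bar x)) = 0 := by
      linear_combination h1
    exact eq_neg_of_add_eq_zero_left ((mul_eq_zero.1 h3).resolve_right h2)

/-- The characteristic polynomial of a diagonal matrix. -/
theorem charpoly_diag {P : H →ₗ[ℚ] H} {lam : (Σ i, (E i →+* ℂ)) → ℂ}
    (h : ∀ x, mQ b P *ᵥ eb b u x = lam x • eb b u x) :
    (mQ b P).charpoly = ∏ x, (Polynomial.X - Polynomial.C (lam x)) := by
  classical
  have h1 : LinearMap.toMatrix (eb b u) (eb b u) (mQ b P).mulVecLin = Matrix.diagonal lam := by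
    ext x y
    rw [LinearMap.toMatrix_apply, mulVecLin_apply, h, map_smul, Finsupp.smul_apply,
      Basis.repr_self, smul_eq_mul]
    by_cases hxy : x = y
    · subst hxy
      rw [Finsupp.single_eq_same, Matrix.diagonal_apply_eq, mul_one]
    · rw [Finsupp.single_eq_of_ne hxy, Matrix.diagonal_apply_ne _ hxy, mul_zero]
  rw [← Matrix.charpoly_diagonal, ← h1, LinearMap.charpoly_toMatrix]
  have h4 := Matrix.charpoly_toLin' (mQ b P)
  rw [← h4]
  rfl

open Classical in
theorem mult_diag [FiniteDimensional ℚ H] {P : H →ₗ[ℚ] H} {lam : (Σ i, (E i →+* ℂ)) → ℂ}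
    (h : ∀ x, mQ b P *ᵥ eb b u x = lam x • eb b u x) (z : ℂ) :
    (P.charpoly.map (algebraMap ℚ ℂ)).rootMultiplicity z =
      (Finset.univ.filter (fun x => lam x = z)).card := by
  rw [← mQ_eq_charpoly b, charpoly_diag b u h, ← Polynomial.count_roots]
  have h1 : (∏ x, (Polynomial.X - Polynomial.C (lam x))).roots = Finset.univ.val.map lam := by
    have h2 : ∏ x, (Polynomial.X - Polynomial.C (lam x)) =
        ((Finset.univ.val.map lam).map fun a => Polynomial.X - Polynomial.C a).prod := by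
      rw [Multiset.map_map]
      rfl
    rw [h2, Polynomial.roots_multiset_prod_X_sub_C]
  rw [h1, Multiset.count_map]
  rw [Finset.card_def, Finset.filter_val]
  congr 1
  refine Multiset.filter_congr fun x _ => ?_
  exact eq_comm

/-- Rational linear combinations which avoid finitely many hyperplanes. -/
theorem exists_generic {κ μ : Type} [Fintype κ] [Finite μ] (w : μ → κ → ℂ) (hw : ∀ j, w j ≠ 0) :
    ∃ t : κ → ℚ, ∀ j, ∑ i, (t i : ℂ) * w j i ≠ 0 := by
  classical
  have _ := Fintype.ofFinite μ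
  let f : μ → ((κ → ℚ) →ₗ[ℚ] ℂ) := fun j =>
    { toFun := fun t => ∑ i, (t i : ℂ) * w j i
      map_add' := fun a c => by
        rw [← Finset.sum_add_distrib]
        refine Finset.sum_congr rfl fun i _ => ?_
        rw [Pi.add_apply, Rat.cast_add, add_mul]
      map_smul' := fun c a => by
        rw [RingHom.id_apply, Finset.smul_sum]
        refine Finset.sum_congr rfl fun i _ => ?_
        rw [Pi.smul_apply, smul_eq_mul, Rat.cast_mul, Rat.smul_def, mul_assoc] }
  let s : Finset (Submodule ℚ (κ → ℚ)) := Finset.univ.image fun j => LinearMap.ker (f j)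
  have hs : ⊤ ∉ s := by
    intro h
    obtain ⟨j, -, hj⟩ := Finset.mem_image.1 h
    apply hw j
    funext i
    have h1 : Pi.single i (1 : ℚ) ∈ LinearMap.ker (f j) := by
      rw [hj]
      trivial
    have h2 : ∑ l, ((Pi.single i (1 : ℚ) : κ → ℚ) l : ℂ) * w j l = 0 := LinearMap.mem_ker.1 h1
    rw [Finset.sum_eq_single i] at h2
    · rw [Pi.single_eq_same, Rat.cast_one, one_mul] at h2
      exact h2
    · intro l _ hl
      rw [Pi.single_eq_of_ne hl, Rat.cast_zero, zero_mul]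
    · intro h
      exact absurd (Finset.mem_univ i) h
  have h1 := Subspace.biUnion_ne_univ_of_top_notMem hs
  obtain ⟨t, ht⟩ := (Set.ne_univ_iff_exists_notMem _).1 h1
  refine ⟨t, fun j hj => ht ?_⟩
  rw [Set.mem_iUnion₂]
  exact ⟨LinearMap.ker (f j), Finset.mem_image_of_mem _ (Finset.mem_univ j), LinearMap.mem_ker.2 hj⟩

include hb hR hΦ hsp in
/-- The ranks of the symmetric forms are bounded from below by the multiplicities. -/
theorem rank_lt [FiniteDimensional ℚ H] {k : ℕ} (hlf : LevelFree Φ k 0) (hk : 2 ≤ k) {m : ℕ}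
    (hmult : ∀ P : H →ₗ[ℚ] H, IsHodgeEnd per P →
      (∀ Q : H →ₗ[ℚ] H, IsHodgeEnd per Q → P ∘ₗ Q = Q ∘ₗ P) →
      ∀ z : ℂ, (P.charpoly.map (algebraMap ℚ ℂ)).IsRoot z → z.im ≠ 0 →
        2 * m < (P.charpoly.map (algebraMap ℚ ℂ)).rootMultiplicity z)
    {B : (Fin n → ℂ) →ₗ[ℂ] (Fin n → ℂ) →ₗ[ℂ] ℂ} (hsym : ∀ v w, B v w = B w v)
    (hB : IsTate2 (rho (pj b')) (chi (pj b')) B) (hB0 : B ≠ 0) :
    4 * m < finrank ℂ (LinearMap.range B) := by
  classical
  have hpol := isPol_of per b b' hb hR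
  -- the form is a combination of symmetric Hodge forms
  have h1 : B ∈ Submodule.span ℂ {B' : (Fin n → ℂ) →ₗ[ℂ] (Fin n → ℂ) →ₗ[ℂ] ℂ |
      ∃ s : H →ₗ[ℚ] H →ₗ[ℚ] ℚ, IsHodgeBilinear per s ∧ (∀ x y, s x y = s y x) ∧ B' = om b s} := by
    have h2 := tate2_span per b b' hb hB
    have h3 : ∀ B₁ ∈ Submodule.span ℂ {B' : (Fin n → ℂ) →ₗ[ℂ] (Fin n → ℂ) →ₗ[ℂ] ℂ |
        ∃ β : H →ₗ[ℚ] H →ₗ[ℚ] ℚ, IsHodgeBilinear per β ∧ B' = om b β},
        B₁ + B₁.flip ∈ Submodule.span ℂ {B' : (Fin n → ℂ) →ₗ[ℂ] (Fin n → ℂ) →ₗ[ℂ] ℂ |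
      ∃ s : H →ₗ[ℚ] H →ₗ[ℚ] ℚ, IsHodgeBilinear per s ∧ (∀ x y, s x y = s y x) ∧ B' = om b s} := by
      intro B₁ hB₁
      induction hB₁ using Submodule.span_induction with
      | mem B₁ hB₁ =>
        obtain ⟨β, hβ, rfl⟩ := hB₁
        refine Submodule.subset_span ⟨β + β.flip, add_hodge per hβ (flip_hodge per hβ),
          fun x y => add_comm _ _, ?_⟩
        refine bilin_ext b fun i j => ?_
        rw [LinearMap.add_apply, LinearMap.add_apply, LinearMap.flip_apply, om_cpr, om_cpr, om_cpr,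
          LinearMap.add_apply, LinearMap.add_apply, LinearMap.flip_apply, Rat.cast_add]
      | zero =>
        have h4 : (0 : (Fin n → ℂ) →ₗ[ℂ] (Fin n → ℂ) →ₗ[ℂ] ℂ) + LinearMap.flip 0 = 0 := by
          rw [zero_add]
          rfl
        rw [h4]
        exact Submodule.zero_mem _
      | add B₁ B₂ _ _ h h' =>
        have h4 : B₁ + B₂ + (B₁ + B₂).flip = (B₁ + B₁.flip) + (B₂ + B₂.flip) := by
          refine LinearMap.ext fun v => LinearMap.ext fun w => ?_
          change B₁ v w + B₂ v w + (B₁ w v + B₂ w v) = (B₁ v w + B₁ w v) + (B₂ v w + B₂ w v)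
          ring
        rw [h4]
        exact Submodule.add_mem _ h h'
      | smul c B₁ _ h =>
        have h4 : c • B₁ + (c • B₁).flip = c • (B₁ + B₁.flip) := by
          refine LinearMap.ext fun v => LinearMap.ext fun w => ?_
          change c * B₁ v w + c * B₁ w v = c * (B₁ v w + B₁ w v)
          ring
        rw [h4]
        exact Submodule.smul_mem _ c h
    have h4 := h3 B h2
    have h5 : B = (1 / 2 : ℂ) • (B + B.flip) := by
      refine LinearMap.ext fun v => LinearMap.ext fun w => ?_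
      change B v w = (1 / 2 : ℂ) * (B v w + B w v)
      rw [← hsym v w]
      ring
    rw [h5]
    exact Submodule.smul_mem _ _ h4
  obtain ⟨T', hT'1, hT'2⟩ := Submodule.mem_span_finite_of_mem_span h1
  have h2 : ∀ B' : T', ∃ s : H →ₗ[ℚ] H →ₗ[ℚ] ℚ, IsHodgeBilinear per s ∧
      (∀ x y, s x y = s y x) ∧ B'.1 = om b s := fun B' => hT'1 B'.2
  choose s hs1 hs2 hs3 using h2
  choose Q lam hQ1 hQ2 hQ3 hQ4 hQ5 hQ6 using fun B' : T' =>
    skew_data per b b' hb hR u Φ hΦ hsp hlf hk (hs1 B') (hs2 B')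
  obtain ⟨c, hc⟩ : ∃ c : T' → ℂ, ∑ B' : T', c B' • B'.1 = B := by
    have h3 : B ∈ Submodule.span ℂ (Set.range fun B' : T' => B'.1) := by
      rw [Subtype.range_coe_subtype]
      exact hT'2
    exact (Submodule.mem_span_range_iff_exists_fun ℂ).1 h3
  let ζ : (Σ i, (E i →+* ℂ)) → ℂ := fun x => ∑ B' : T', c B' * lam B' x
  have hBe : ∀ x, B (eb b u x) = ζ x • om b ω₀ (eb b u x) := by
    intro x
    rw [← hc, LinearMap.sum_apply, Finset.sum_smul]
    refine Finset.sum_congr rfl fun B' _ => ?_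
    rw [LinearMap.smul_apply, hs3, ← hQ3 B']
    refine LinearMap.ext fun w => ?_
    rw [LinearMap.smul_apply, om_comp, hQ4, map_smul, LinearMap.smul_apply, LinearMap.smul_apply,
      smul_eq_mul, smul_eq_mul, smul_eq_mul, mul_assoc]
  have hζbar : ∀ x, ζ (bar x) = - ζ x := by
    intro x
    change ∑ B' : T', c B' * lam B' (bar x) = - ∑ B' : T', c B' * lam B' x
    rw [← Finset.sum_neg_distrib]
    refine Finset.sum_congr rfl fun B' _ => ?_
    rw [hQ6]
    ring
  obtain ⟨x, hx⟩ : ∃ x, ζ x ≠ 0 := by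
    by_contra h
    push Not at h
    apply hB0
    refine (eb b u).ext fun x => ?_
    rw [hBe, h x, zero_smul]
    rfl
  -- a generic rational combination
  have hgen := exists_generic (κ := T')
    (μ := Option {y : Σ i, (E i →+* ℂ) // (fun B' => lam B' y) ≠ fun B' => lam B' x})
    (fun o => match o with
      | none => fun B' => lam B' x
      | some y => fun B' => lam B' y.1 - lam B' x) (fun o => by
      cases o with
      | none =>
        intro h
        apply hx
        change ∑ B' : T', c B' * lam B' x = 0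
        refine Finset.sum_eq_zero fun B' _ => ?_
        have h3 : lam B' x = 0 := congrFun h B'
        rw [h3, mul_zero]
      | some y =>
        intro h
        apply y.2
        funext B'
        exact sub_eq_zero.1 (congrFun h B'))
  obtain ⟨t, ht⟩ := hgen
  let P : H →ₗ[ℚ] H := ∑ B' : T', t B' • Q B'
  let p : (Σ i, (E i →+* ℂ)) → ℂ := fun y => ∑ B' : T', (t B' : ℂ) * lam B' y
  have hP1 : IsHodgeEnd per P := end_sum per _ _ _ hQ1
  have hP2 : ∀ R : H →ₗ[ℚ] H, IsHodgeEnd per R → P ∘ₗ R = R ∘ₗ P := by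
    intro R hR'
    refine LinearMap.ext fun w => ?_
    change (∑ B' : T', t B' • Q B') (R w) = R ((∑ B' : T', t B' • Q B') w)
    rw [LinearMap.sum_apply, LinearMap.sum_apply, map_sum]
    refine Finset.sum_congr rfl fun B' _ => ?_
    have h3 : Q B' (R w) = R (Q B' w) := congrArg (fun f : H →ₗ[ℚ] H => f w) (hQ2 B' R hR')
    rw [LinearMap.smul_apply, LinearMap.smul_apply, h3, map_smul]
  have hPe : ∀ y, mQ b P *ᵥ eb b u y = p y • eb b u y := by
    intro y
    change mQ b (∑ B' : T', t B' • Q B') *ᵥ eb b u y = _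
    rw [mQ_sum, Matrix.sum_mulVec, Finset.sum_smul]
    refine Finset.sum_congr rfl fun B' _ => ?_
    rw [Matrix.smul_mulVec, hQ4, smul_smul]
  have hpbar : ∀ y, p (bar y) = - p y := by
    intro y
    change ∑ B' : T', (t B' : ℂ) * lam B' (bar y) = - ∑ B' : T', (t B' : ℂ) * lam B' y
    rw [← Finset.sum_neg_distrib]
    refine Finset.sum_congr rfl fun B' _ => ?_
    rw [hQ6]
    ring
  have hpcc : ∀ y, p (bar y) = cc (p y) := by
    intro y
    change ∑ B' : T', (t B' : ℂ) * lam B' (bar y) = cc (∑ B' : T', (t B' : ℂ) * lam B' y)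
    rw [map_sum]
    refine Finset.sum_congr rfl fun B' _ => ?_
    rw [hQ5, map_mul, map_ratCast]
  have hpx : p x ≠ 0 := ht none
  have him : (p x).im ≠ 0 := by
    intro h
    have h3 : cc (p x) = p x := by rw [cc_apply, Complex.conj_eq_iff_im.2 h]
    rw [← hpcc, hpbar] at h3
    apply hpx
    have h4 : (2 : ℂ) * p x = 0 := by linear_combination -h3
    exact (mul_eq_zero.1 h4).resolve_left two_ne_zero
  have hblock : ∀ y, p y = p x → ζ y = ζ x := by
    intro y hy
    have h3 : (fun B' => lam B' y) = fun B' => lam B' x := by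
      by_contra h
      apply ht (some ⟨y, h⟩)
      change ∑ B' : T', (t B' : ℂ) * (lam B' y - lam B' x) = 0
      have h4 : ∑ B' : T', (t B' : ℂ) * (lam B' y - lam B' x) = p y - p x := by
        rw [← Finset.sum_sub_distrib]
        exact Finset.sum_congr rfl fun B' _ => by ring
      rw [h4, hy, sub_self]
    change ∑ B' : T', c B' * lam B' y = ∑ B' : T', c B' * lam B' x
    exact Finset.sum_congr rfl fun B' _ => by rw [congrFun h3 B']
  have hroot : (P.charpoly.map (algebraMap ℚ ℂ)).IsRoot (p x) := by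
    rw [← Polynomial.rootMultiplicity_pos ((Polynomial.map_ne_zero_iff
      (algebraMap ℚ ℂ).injective).2 P.charpoly_monic.ne_zero), mult_diag b u hPe]
    exact Finset.card_pos.2 ⟨x, Finset.mem_filter.2 ⟨Finset.mem_univ _, rfl⟩⟩
  have hbig := hmult P hP1 hP2 (p x) hroot him
  rw [mult_diag b u hPe] at hbig
  -- the rank of the form
  let S : Finset (Σ i, (E i →+* ℂ)) := Finset.univ.filter fun y => ζ y ≠ 0
  have hS : 4 * m < S.card := by
    let S₁ : Finset (Σ i, (E i →+* ℂ)) := Finset.univ.filter fun y => p y = p x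
    have h3 : Disjoint S₁ (S₁.image bar) := by
      rw [Finset.disjoint_left]
      intro y hy hy'
      obtain ⟨z, hz, rfl⟩ := Finset.mem_image.1 hy'
      have h4 : p z = p x := (Finset.mem_filter.1 hz).2
      have h5 : p (bar z) = p x := (Finset.mem_filter.1 hy).2
      rw [hpbar, h4] at h5
      apply hpx
      have h6 : (2 : ℂ) * p x = 0 := by linear_combination -h5
      exact (mul_eq_zero.1 h6).resolve_left two_ne_zero
    have h4 : S₁ ∪ S₁.image bar ⊆ S := by
      intro y hy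
      refine Finset.mem_filter.2 ⟨Finset.mem_univ _, ?_⟩
      rcases Finset.mem_union.1 hy with h | h
      · rw [hblock y (Finset.mem_filter.1 h).2]
        exact hx
      · obtain ⟨z, hz, rfl⟩ := Finset.mem_image.1 h
        rw [hζbar, hblock z (Finset.mem_filter.1 hz).2]
        exact neg_ne_zero.2 hx
    have h5 := Finset.card_le_card h4
    have hinj : Function.Injective (bar : (Σ i, (E i →+* ℂ)) → _) := fun a c hac => by
      rw [← bar_bar a, hac, bar_bar]
    rw [Finset.card_union_of_disjoint h3, Finset.card_image_of_injective _ hinj] at h5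
    have h6 : 2 * m < S₁.card := hbig
    omega
  have hli : LinearIndependent ℂ (fun y : S => (⟨B (eb b u y.1), LinearMap.mem_range_self B _⟩ :
      LinearMap.range B)) := by
    have h3 : LinearIndependent ℂ (fun y : S => B (eb b u y.1)) := by
      have hωinj : Function.Injective (om b ω₀) := by
        rw [← LinearMap.ker_eq_bot, Submodule.eq_bot_iff]
        intro v hv
        apply hpol.nondeg
        intro w
        rw [LinearMap.mem_ker.1 hv]
        rfl
      have h4 : LinearIndependent ℂ (fun y : S => om b ω₀ (eb b u y.1)) :=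
        ((eb b u).linearIndependent.comp (fun y : S => y.1) Subtype.val_injective).map'
          (om b ω₀) (LinearMap.ker_eq_bot.2 hωinj)
      have h5 := h4.units_smul (fun y : S => Units.mk0 (ζ y.1) (Finset.mem_filter.1 y.2).2)
      have h6 : (fun y : S => B (eb b u y.1)) =
          (fun y : S => Units.mk0 (ζ y.1) (Finset.mem_filter.1 y.2).2) • fun y : S =>
            om b ω₀ (eb b u y.1) := by
        funext y
        rw [hBe]
        rfl
      rw [h6]
      exact h5
    exact LinearIndependent.of_comp (LinearMap.range B).subtype h3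
  have h3 := hli.fintype_card_le_finrank
  rw [Fintype.card_coe] at h3
  omega

include hb hR hΦ hsp in
/-- All Hodge tensors of degrees bounded by the multiplicities are generated in degree two. -/
theorem tensor_mult [FiniteDimensional ℚ H] {k : ℕ} (hlf : LevelFree Φ k 0) (hk : 4 ≤ k) {m : ℕ}
    (hmult : ∀ P : H →ₗ[ℚ] H, IsHodgeEnd per P →
      (∀ Q : H →ₗ[ℚ] H, IsHodgeEnd per Q → P ∘ₗ Q = Q ∘ₗ P) →
      ∀ z : ℂ, (P.charpoly.map (algebraMap ℚ ℂ)).IsRoot z → z.im ≠ 0 →
        2 * m < (P.charpoly.map (algebraMap ℚ ℂ)).rootMultiplicity z)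
    (ψ : MultilinearMap ℚ (fun _ : Fin m × Fin 2 => H) ℚ) (hψ : IsHodgeTensor per ψ) :
    ψ ∈ Submodule.span ℚ {ψ : MultilinearMap ℚ (fun _ : Fin m × Fin 2 => H) ℚ |
      IsProductOfHodgeBilinear per ψ} := by
  classical
  have hpol := isPol_of per b b' hb hR
  obtain ⟨γ, hγ1, hγ2⟩ := exists_special per b b' hb u Φ hΦ hsp
  apply product_of_span per b b' hb
  exact four_mem (eb b u) (inv := bar)
    (jj := fun x => om b ω₀ (eb b u x) (eb b u (bar x))) bar_bar bar_ne
    (jj_anti per b b' hb hR u Φ hΦ hsp hlf (by omega))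
    (jj_ne per b b' hb hR u Φ hΦ hsp hlf (by omega))
    (om b ω₀) (om_pair per b b' hb hR u Φ hΦ hsp hlf (by omega)) (rho (pj b')) (chi (pj b'))
    hpol.sim hpol.hasProj hγ2 (Nat.cast_ne_zero.2 (mq_ne Φ))
    (fun x => by rw [← Nat.cast_mul, ev_bar Φ hΦ]) hγ1 (ev_four Φ hΦ hlf hk)
    (fun B hB1 hB2 hB3 => rank_lt per b b' hb hR u Φ hΦ hsp hlf (by omega) hmult hB1 hB2 hB3)
    (ex b ψ) (tate_of_HT ⟨ex_rat b ψ, (hodge_iff per b b' hb ψ).1 hψ⟩)

end

end Pool.Agent.Q43.HL
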