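import Pool.Agent.Q43.HL.Per
import Pool.Agent.W516.MT.Defs
import Pool.Agent.H204R3.GP.MT

/-!
# Bilinear forms and the Riemann form
-/

set_option autoImplicit false
set_option linter.unusedSectionVars false

namespace Pool.Agent.Q43.HL

open Module Matrix Pool.Agent.H204R3.CM Pool.Agent.H204R3.SP Pool.Agent.H204R3.GP
  Pool.Agent.W516.MTD

noncomputable section

/-- A pair of vectors as a family. -/
def pr {W : Type} (u v : W) : Fin 1 × Fin 2 → W := fun k => if k.2 = 0 then u else v

section tb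

variable {R W : Type} [CommRing R] [AddCommGroup W] [Module R W]

theorem pr_left (u u' v : W) : pr u' v = Function.update (pr u v) (0, 0) u' := by
  funext k
  obtain ⟨i, j⟩ := k
  fin_cases i
  fin_cases j
  · simp [pr]
  · simp [pr]

theorem pr_right (u v v' : W) : pr u v' = Function.update (pr u v) (0, 1) v' := by
  funext k
  obtain ⟨i, j⟩ := k
  fin_cases i
  fin_cases j
  · simp [pr]
  · simp [pr]

theorem pr_eta (w : Fin 1 × Fin 2 → W) : pr (w (0, 0)) (w (0, 1)) = w := by
  funext k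
  obtain ⟨i, j⟩ := k
  fin_cases i
  fin_cases j
  · simp [pr]
  · simp [pr]

theorem pr_map {W W' : Type} (f : W → W') (u v : W) :
    (fun k => f (pr u v k)) = fun k : Fin 1 × Fin 2 => if k.2 = 0 then f u else f v := by
  funext k
  unfold pr
  split_ifs <;> rfl

/-- The bilinear form given by a form in two variables. -/
def tb (g : MultilinearMap R (fun _ : Fin 1 × Fin 2 => W) R) : W →ₗ[R] W →ₗ[R] R :=
  LinearMap.mk₂ R (fun u v => g (pr u v))
    (fun u u' v => by
      rw [pr_left 0 (u + u') v, pr_left 0 u v, pr_left 0 u' v, MultilinearMap.map_update_add])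
    (fun c u v => by
      rw [pr_left 0 (c • u) v, pr_left 0 u v, MultilinearMap.map_update_smul])
    (fun u v v' => by
      rw [pr_right u 0 (v + v'), pr_right u 0 v, pr_right u 0 v', MultilinearMap.map_update_add])
    (fun c u v => by
      rw [pr_right u 0 (c • v), pr_right u 0 v, MultilinearMap.map_update_smul])

theorem tb_apply (g : MultilinearMap R (fun _ : Fin 1 × Fin 2 => W) R) (u v : W) :
    tb g u v = g (pr u v) := rfl

end tb

theorem bf_pr {B : Type} [Fintype B] [DecidableEq B] (β : (B → ℂ) →ₗ[ℂ] (B → ℂ) →ₗ[ℂ] ℂ)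
    (u v : B → ℂ) : bf β (pr u v) = β u v := by
  rw [bf_apply]
  simp [pr]

variable {n : ℕ} {H T : Type} [AddCommGroup H] [Module ℚ H] [AddCommGroup T] [Module ℂ T]
  (per : H →+ T) (b : Basis (Fin n) ℚ H) (b' : Basis (Fin n) ℝ T)

/-- The bilinear form with the coefficients of a rational bilinear form. -/
def om (β : H →ₗ[ℚ] H →ₗ[ℚ] ℚ) : (Fin n → ℂ) →ₗ[ℂ] (Fin n → ℂ) →ₗ[ℂ] ℂ :=
  tb (ex b (prodMap (fun _ : Fin 1 => bil2 β)))

theorem bf_om (β : H →ₗ[ℚ] H →ₗ[ℚ] ℚ) :
    bf (om b β) = ex b (prodMap (fun _ : Fin 1 => bil2 β)) := by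
  refine MultilinearMap.ext fun v => ?_
  rw [bf_apply]
  unfold om
  rw [tb_apply, pr_eta]

theorem om_cpr (β : H →ₗ[ℚ] H →ₗ[ℚ] ℚ) (x y : H) : om b β (cpr b x) (cpr b y) = ((β x y : ℚ) : ℂ) := by
  unfold om
  rw [tb_apply]
  have h1 : pr (cpr b x) (cpr b y) = fun l => cpr b (pr x y l) := by
    rw [pr_map (cpr b)]
    rfl
  rw [h1, ex_apply, prodMap_apply, Fin.prod_univ_one, bil2_apply]
  simp [pr]

theorem bilin_ext {β β' : (Fin n → ℂ) →ₗ[ℂ] (Fin n → ℂ) →ₗ[ℂ] ℂ}
    (h : ∀ i j, β (cpr b (b i)) (cpr b (b j)) = β' (cpr b (b i)) (cpr b (b j))) : β = β' := by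
  refine (Pi.basisFun ℂ (Fin n)).ext fun i => (Pi.basisFun ℂ (Fin n)).ext fun j => ?_
  have h1 := h i j
  rw [cpr_basis, cpr_basis] at h1
  rw [Pi.basisFun_apply, Pi.basisFun_apply]
  exact h1

theorem om_apply (β : H →ₗ[ℚ] H →ₗ[ℚ] ℚ) (u v : Fin n → ℂ) :
    om b β u v = ∑ i, ∑ j, u i * v j * ((β (b i) (b j) : ℚ) : ℂ) := by
  have h1 : u = ∑ i, u i • cpr b (b i) := by
    funext k
    rw [Finset.sum_apply]
    simp only [cpr_basis, Pi.smul_apply, Pi.single_apply, smul_eq_mul, mul_ite, mul_one, mul_zero]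
    rw [Finset.sum_ite_eq, if_pos (Finset.mem_univ _)]
  have h2 : v = ∑ i, v i • cpr b (b i) := by
    funext k
    rw [Finset.sum_apply]
    simp only [cpr_basis, Pi.smul_apply, Pi.single_apply, smul_eq_mul, mul_ite, mul_one, mul_zero]
    rw [Finset.sum_ite_eq, if_pos (Finset.mem_univ _)]
  conv_lhs => rw [h1, h2]
  have h3 : om b β (∑ i, u i • cpr b (b i)) = ∑ i, om b β (u i • cpr b (b i)) := map_sum _ _ _
  rw [h3, LinearMap.sum_apply]
  refine Finset.sum_congr rfl fun i _ => ?_
  rw [map_sum]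
  refine Finset.sum_congr rfl fun j _ => ?_
  rw [map_smul, map_smul, LinearMap.smul_apply, om_cpr, smul_eq_mul, smul_eq_mul]
  ring

variable (hb : ∀ i, b' i = per (b i))
include hb

theorem hodge2_tensor (β : H →ₗ[ℚ] H →ₗ[ℚ] ℚ) :
    IsHodgeTensor per (prodMap (fun _ : Fin 1 => bil2 β)) ↔ IsHodgeBilinear per β := by
  constructor
  · rintro ⟨Ψ, h1, h2⟩
    refine ⟨tb Ψ, fun x y => ?_, fun z hz u v => ?_⟩
    · rw [tb_apply]
      have h3 := h1 (pr x y)
      rw [prodMap_apply, Fin.prod_univ_one, bil2_apply] at h3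
      rw [pr_map per] at h3
      have h4 : (pr (per x) (per y) : Fin 1 × Fin 2 → T) =
        fun k : Fin 1 × Fin 2 => if k.2 = 0 then per x else per y := rfl
      rw [h4, h3]
      simp [pr]
    · rw [tb_apply, tb_apply]
      have h3 := h2 z hz (pr u v)
      rw [pr_map (fun w => z • w)] at h3
      exact h3
  · rintro ⟨E, h1, h2⟩
    refine ⟨prodMap (fun _ : Fin 1 => bil2 E), fun v => ?_, fun z hz u => ?_⟩
    · rw [prodMap_apply, Fin.prod_univ_one, bil2_apply, prodMap_apply, Fin.prod_univ_one,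
        bil2_apply, h1]
    · rw [prodMap_apply, Fin.prod_univ_one, bil2_apply, prodMap_apply, Fin.prod_univ_one,
        bil2_apply, h2 z hz]

/-- Bilinear Tate forms are combinations of Hodge forms. -/
theorem tate2_span {β : (Fin n → ℂ) →ₗ[ℂ] (Fin n → ℂ) →ₗ[ℂ] ℂ}
    (hβ : IsTate2 (rho (pj b')) (chi (pj b')) β) :
    β ∈ Submodule.span ℂ {β' | ∃ β₀ : H →ₗ[ℚ] H →ₗ[ℚ] ℚ, IsHodgeBilinear per β₀ ∧
      β' = om b β₀} := by
  have h1 := tate_span (pj_idem b') (tate2_iff.1 hβ)
  let L : Frm (Fin 1 × Fin 2) (Fin n) →ₗ[ℂ] ((Fin n → ℂ) →ₗ[ℂ] (Fin n → ℂ) →ₗ[ℂ] ℂ) :=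
    { toFun := fun φ => tb φ
      map_add' := by
        intro φ φ'
        refine LinearMap.ext fun u => LinearMap.ext fun v => ?_
        rfl
      map_smul' := by
        intro c φ
        refine LinearMap.ext fun u => LinearMap.ext fun v => ?_
        rfl }
  have hL : L (bf β) = β := by
    refine LinearMap.ext fun u => LinearMap.ext fun v => ?_
    exact bf_pr β u v
  have h2 := Submodule.mem_map_of_mem (f := L) h1
  rw [hL, Submodule.map_span] at h2
  refine Submodule.span_mono ?_ h2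
  rintro _ ⟨φ, hφ, rfl⟩
  obtain ⟨ψ, rfl⟩ := exists_ex b hφ.1
  have h3 : prodMap (fun _ : Fin 1 => bil2 (tb ψ)) = ψ := by
    refine MultilinearMap.ext fun v => ?_
    rw [prodMap_apply, Fin.prod_univ_one, bil2_apply, tb_apply, pr_eta]
  refine ⟨tb ψ, ?_, ?_⟩
  · rw [← hodge2_tensor per b b' hb, h3]
    exact (hodge_iff per b b' hb ψ).2 hφ.2
  · unfold om
    rw [h3]
    rfl

/-- The Riemann form is a polarization. -/
theorem isPol_of {ω₀ : H →ₗ[ℚ] H →ₗ[ℚ] ℚ} (hR : IsRiemannForm per ω₀) :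
    IsPol (pj b') (om b ω₀) := by
  obtain ⟨E, hE1, hE2, hE3, hE4⟩ := hR
  have hHB : IsHodgeBilinear per ω₀ := ⟨E, hE1, hE2⟩
  have hanti₀ : ∀ x y, ω₀ x y = -ω₀ y x := by
    intro x y
    have h1 := hE3 (per x + per y)
    simp only [map_add, LinearMap.add_apply, hE3, hE1, zero_add, add_zero] at h1
    have h2 : (((ω₀ x y : ℚ) : ℝ)) = ((-ω₀ y x : ℚ) : ℝ) := by
      push_cast
      linarith
    exact_mod_cast h2
  have hanti : ∀ u v, om b ω₀ u v = -om b ω₀ v u := by
    intro u v
    rw [om_apply, om_apply, Finset.sum_comm, ← Finset.sum_neg_distrib]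
    refine Finset.sum_congr rfl fun i _ => ?_
    rw [← Finset.sum_neg_distrib]
    refine Finset.sum_congr rfl fun j _ => ?_
    rw [hanti₀ (b j) (b i)]
    push_cast
    ring
  -- real vectors
  have hreal : ∀ x y : Fin n → ℝ, om b ω₀ (fun i => (x i : ℂ)) (fun i => (y i : ℂ)) =
      ((E (∑ i, x i • b' i) (∑ i, y i • b' i) : ℝ) : ℂ) := by
    intro x y
    have h3 : E (∑ i, x i • b' i) = ∑ i, E (x i • b' i) := map_sum _ _ _
    rw [om_apply, h3, LinearMap.sum_apply, Complex.ofReal_sum]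
    refine Finset.sum_congr rfl fun i _ => ?_
    rw [map_sum, Complex.ofReal_sum]
    refine Finset.sum_congr rfl fun j _ => ?_
    rw [map_smul, map_smul, LinearMap.smul_apply, hb, hb, hE1, smul_eq_mul, smul_eq_mul]
    push_cast
    ring
  have hI : ∀ x : Fin n → ℝ, hz (pj b') Complex.I *ᵥ (fun i => (x i : ℂ)) =
      fun i => ((b'.repr (Complex.I • ∑ j, x j • b' j) i : ℝ) : ℂ) := by
    intro x
    rw [hz_pj b' Complex.norm_I]
    funext i
    rw [mz_repr, mulVec, dotProduct, Complex.ofReal_sum]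
    refine Finset.sum_congr rfl fun j _ => ?_
    have h1 : b'.repr (∑ j, x j • b' j) j = x j := by
      rw [map_sum, Finset.sum_apply', Finset.sum_eq_single j]
      · rw [map_smul, Finsupp.smul_apply, Basis.repr_self, Finsupp.single_eq_same, smul_eq_mul,
          mul_one]
      · intro k _ hk
        rw [map_smul, Finsupp.smul_apply, Basis.repr_self, Finsupp.single_eq_of_ne hk.symm,
          smul_zero]
      · intro hi
        exact absurd (Finset.mem_univ j) hi
    rw [h1, Complex.ofReal_mul]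
    rfl
  have hrepr : ∀ u : T, ∑ i, b'.repr u i • b' i = u := fun u => b'.sum_repr u
  have hsymm : ∀ u v, E (Complex.I • u) v = E (Complex.I • v) u := by
    intro u v
    have h1 := hE2 Complex.I Complex.norm_I (Complex.I • u) v
    rw [smul_smul, Complex.I_mul_I, neg_smul, one_smul, map_neg, LinearMap.neg_apply] at h1
    have h2 := hE3 (u + Complex.I • v)
    simp only [map_add, LinearMap.add_apply, hE3, zero_add, add_zero] at h2
    linarith
  have hpos : ∀ v : Fin n → ℂ, v ≠ 0 →
      0 < (om b ω₀ (hz (pj b') Complex.I *ᵥ v) (fun i => cc (v i))).re := by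
    intro v hv
    let x : Fin n → ℝ := fun i => (v i).re
    let y : Fin n → ℝ := fun i => (v i).im
    have hv1 : v = (fun i => (x i : ℂ)) + Complex.I • (fun i => (y i : ℂ)) := by
      funext i
      rw [Pi.add_apply, Pi.smul_apply, smul_eq_mul, mul_comm]
      exact (Complex.re_add_im (v i)).symm
    have hv2 : (fun i => cc (v i)) = (fun i => (x i : ℂ)) - Complex.I • (fun i => (y i : ℂ)) := by
      funext i
      rw [Pi.sub_apply, Pi.smul_apply, smul_eq_mul, cc_apply]
      apply Complex.ext <;> simp [x, y]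
    set xt : T := ∑ i, x i • b' i with hxt
    set yt : T := ∑ i, y i • b' i with hyt
    have e1 : ∀ w w' : Fin n → ℝ, om b ω₀ (hz (pj b') Complex.I *ᵥ (fun i => (w i : ℂ)))
        (fun i => (w' i : ℂ)) = ((E (Complex.I • ∑ i, w i • b' i) (∑ i, w' i • b' i) : ℝ) : ℂ) := by
      intro w w'
      rw [hI, hreal, hrepr]
    have h1 : om b ω₀ (hz (pj b') Complex.I *ᵥ v) (fun i => cc (v i)) =
        ((E (Complex.I • xt) xt + E (Complex.I • yt) yt : ℝ) : ℂ) := by
      rw [hv2]
      conv_lhs => rw [hv1]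
      rw [mulVec_add, mulVec_smul, map_add, map_smul, LinearMap.add_apply, LinearMap.smul_apply,
        map_sub, map_sub, map_smul, map_smul, e1, e1, e1, e1, hsymm yt xt]
      simp only [smul_eq_mul]
      have hII := Complex.I_mul_I
      push_cast
      linear_combination (-(E (Complex.I • yt) yt : ℂ)) * hII
    rw [h1, Complex.ofReal_re]
    have hinj : ∀ w : Fin n → ℝ, ∑ i, w i • b' i = 0 → w = 0 := by
      intro w hw
      funext i
      have h2 := congrArg (fun t => b'.repr t i) hw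
      simp only [map_zero, Finsupp.zero_apply] at h2
      rw [map_sum, Finset.sum_apply', Finset.sum_eq_single i] at h2
      · rw [map_smul, Finsupp.smul_apply, Basis.repr_self, Finsupp.single_eq_same, smul_eq_mul,
          mul_one] at h2
        exact h2
      · intro k _ hk
        rw [map_smul, Finsupp.smul_apply, Basis.repr_self, Finsupp.single_eq_of_ne hk.symm,
          smul_zero]
      · intro hi
        exact absurd (Finset.mem_univ i) hi
    have hnn : ∀ t : T, 0 ≤ E (Complex.I • t) t := by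
      intro t
      by_cases ht : t = 0
      · rw [ht, map_zero]
      · exact (hE4 t ht).le
    by_cases hx : xt = 0
    · have hy : yt ≠ 0 := by
        intro hy
        apply hv
        have hx0 := hinj x hx
        have hy0 := hinj y hy
        rw [hv1, hx0, hy0]
        funext i
        simp
      exact add_pos_of_nonneg_of_pos (hnn _) (hE4 _ hy)
    · exact add_pos_of_pos_of_nonneg (hE4 _ hx) (hnn _)
  refine ⟨pj_idem b', pj_conj b', ?_, hanti, ?_, hpos⟩
  · rw [bf_om]
    exact ⟨ex_rat b _, (hodge_iff per b b' hb _).1 ((hodge2_tensor per b b' hb ω₀).2 hHB)⟩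
  · intro u hu
    by_contra h0
    have hIne : Complex.I ≠ 0 := Complex.I_ne_zero
    have h1 : hz (pj b') Complex.I⁻¹ *ᵥ u ≠ 0 := by
      intro h2
      apply h0
      rw [← hz_cancel (pj_idem b') hIne u, h2, mulVec_zero]
    have h2 := hpos _ h1
    rw [hz_cancel (pj_idem b') hIne, hu, Complex.zero_re] at h2
    exact lt_irrefl _ h2

end

end Pool.Agent.Q43.HL
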