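import Pool.Agent.Q43.HL.Desc
import Pool.Agent.TH170.TT.Small

/-!
# A specialization of CM type: the basis of eigenvectors
-/

set_option autoImplicit false
set_option linter.unusedSectionVars false

namespace Pool.Agent.Q43.HL

open Module Matrix NumberField Pool.Agent.H204R3.CM Pool.Agent.H204R3.SP Pool.Agent.H204R3.GP
  Pool.Agent.W516.MTD Pool.Agent.TH170.LV

noncomputable section

variable {n : ℕ} {H : Type} [AddCommGroup H] [Module ℚ H] (b : Basis (Fin n) ℚ H)
  {ι : Type} [Fintype ι] {E : ι → Type} [∀ i, Field (E i)] [∀ i, NumberField (E i)]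
  (u : H ≃ₗ[ℚ] (∀ i, E i))

/-- The functional given by an embedding. -/
def cx (x : Σ i, (E i →+* ℂ)) : (Fin n → ℂ) →ₗ[ℂ] ℂ :=
  ∑ i, x.2 (u (b i) x.1) • LinearMap.proj i

theorem cx_apply (x : Σ i, (E i →+* ℂ)) (v : Fin n → ℂ) :
    cx b u x v = ∑ i, x.2 (u (b i) x.1) * v i := by
  unfold cx
  rw [LinearMap.sum_apply]
  rfl

theorem cx_cpr (x : Σ i, (E i →+* ℂ)) (h : H) : cx b u x (cpr b h) = x.2 (u h x.1) := by
  rw [cx_apply]
  have h1 : h = ∑ i, b.repr h i • b i := (b.sum_repr h).symm
  conv_rhs => rw [h1]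
  rw [map_sum, Finset.sum_apply, map_sum]
  refine Finset.sum_congr rfl fun i _ => ?_
  rw [map_smul, Pi.smul_apply, Rat.smul_def, map_mul, map_ratCast, mul_comm]
  rfl

/-- The automorphisms of the complex numbers permute the functionals. -/
theorem cx_conj (σ : ℂ ≃+* ℂ) (x : Σ i, (E i →+* ℂ)) (v : Fin n → ℂ) :
    cx b u ⟨x.1, (σ : ℂ →+* ℂ).comp x.2⟩ (fun i => σ (v i)) = σ (cx b u x v) := by
  rw [cx_apply, cx_apply, map_sum]
  refine Finset.sum_congr rfl fun i _ => ?_
  rw [map_mul]
  rfl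

/-- All functionals together. -/
def cxs : (Fin n → ℂ) →ₗ[ℂ] ((Σ i, (E i →+* ℂ)) → ℂ) := LinearMap.pi (cx b u)

include b u in
theorem card_R : Fintype.card (Σ i, (E i →+* ℂ)) = n := by
  have h1 : finrank ℚ H = n := by rw [finrank_eq_card_basis b, Fintype.card_fin]
  have h2 : finrank ℚ H = finrank ℚ (∀ i, E i) := u.finrank_eq
  rw [← h1, h2, Module.finrank_pi_fintype, Fintype.card_sigma]
  exact Finset.sum_congr rfl fun i _ => Embeddings.card (E i) ℂ

theorem cxs_surj : Function.Surjective (cxs b u) := by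
  classical
  rw [← LinearMap.range_eq_top]
  by_contra hne
  obtain ⟨f, hf0, hf⟩ := Submodule.exists_le_ker_of_lt_top _ (lt_top_iff_ne_top.2 hne)
  apply hf0
  -- the coefficients of `f`
  have h1 : ∀ w : (Σ i, (E i →+* ℂ)) → ℂ, f w = ∑ x, w x * f (Pi.single x 1) := by
    intro w
    have h2 : w = ∑ x, w x • (Pi.single x 1 : (Σ i, (E i →+* ℂ)) → ℂ) := by
      funext y
      rw [Finset.sum_apply]
      simp [Pi.single_apply]
    conv_lhs => rw [h2]
    rw [map_sum]
    exact Finset.sum_congr rfl fun x _ => by rw [map_smul, smul_eq_mul]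
  have h2 : ∀ h : H, ∑ x : Σ i, (E i →+* ℂ), x.2 (u h x.1) * f (Pi.single x 1) = 0 := by
    intro h
    have h3 := hf (LinearMap.mem_range_self (cxs b u) (cpr b h))
    rw [LinearMap.mem_ker, h1] at h3
    rw [← h3]
    refine Finset.sum_congr rfl fun x _ => ?_
    change _ = cx b u x (cpr b h) * _
    rw [cx_cpr]
  have h3 : ∀ x : Σ i, (E i →+* ℂ), f (Pi.single x 1) = 0 := by
    rintro ⟨i, φ⟩
    have hli : LinearIndependent ℂ (fun x : E i →+* ℂ => (fun a : E i => x a)) := by
      have h4 := (linearIndependent_monoidHom (E i) ℂ).comp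
        (fun x : E i →+* ℂ => (x : E i →* ℂ)) (fun x y hxy => by
          ext a
          exact congrArg (fun g : E i →* ℂ => g a) hxy)
      exact h4
    rw [Fintype.linearIndependent_iff] at hli
    refine hli (fun ψ => f (Pi.single ⟨i, ψ⟩ 1)) ?_ φ
    funext a
    have h5 := h2 (u.symm (Pi.single i a))
    rw [Finset.sum_apply]
    rw [Fintype.sum_sigma, Finset.sum_eq_single i] at h5
    · refine Eq.trans ?_ h5
      refine Finset.sum_congr rfl fun ψ _ => ?_
      rw [Pi.smul_apply, smul_eq_mul, u.apply_symm_apply, Pi.single_eq_same, mul_comm]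
    · intro j _ hj
      refine Finset.sum_eq_zero fun ψ _ => ?_
      rw [u.apply_symm_apply, Pi.single_eq_of_ne hj, map_zero, zero_mul]
    · intro hi
      exact absurd (Finset.mem_univ i) hi
  refine LinearMap.ext fun w => ?_
  rw [h1, LinearMap.zero_apply]
  exact Finset.sum_eq_zero fun x _ => by rw [h3, mul_zero]

theorem cxs_bij : Function.Bijective (cxs b u) := by
  refine ⟨?_, cxs_surj b u⟩
  have h1 : finrank ℂ (Fin n → ℂ) = finrank ℂ ((Σ i, (E i →+* ℂ)) → ℂ) := by
    rw [Module.finrank_fin_fun, Module.finrank_fintype_fun_eq_card, card_R b u]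
  exact (LinearMap.injective_iff_surjective_of_finrank_eq_finrank h1).2 (cxs_surj b u)

/-- The basis of eigenvectors. -/
def eb : Basis (Σ i, (E i →+* ℂ)) ℂ (Fin n → ℂ) :=
  Basis.ofEquivFun (LinearEquiv.ofBijective (cxs b u) (cxs_bij b u))

theorem eb_repr (v : Fin n → ℂ) (x : Σ i, (E i →+* ℂ)) : (eb b u).repr v x = cx b u x v := rfl

theorem cx_eb [DecidableEq (Σ i, (E i →+* ℂ))] (x y : Σ i, (E i →+* ℂ)) : cx b u x (eb b u y) = if x = y then 1 else 0 := by
  rw [← eb_repr, Basis.repr_self]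
  by_cases h : x = y
  · subst h
    rw [Finsupp.single_eq_same, if_pos rfl]
  · rw [Finsupp.single_eq_of_ne h, if_neg h]

theorem ext_cx {v w : Fin n → ℂ} (h : ∀ x, cx b u x v = cx b u x w) : v = w :=
  (cxs_bij b u).1 (funext h)

variable [∀ i, IsCMField (E i)] (Φ : ∀ i, Set (E i →+* ℂ))

/-- The inclusion of the rational homology in the tangent space for the structure of CM type. -/
def perS : H →+ Tan Φ (fun i : ι => i) := (per Φ (fun i : ι => i)).comp u.toLinearMap.toAddMonoidHom

theorem perS_apply (h : H) (i : ι) (φ : Φ i) : perS u Φ h i φ = φ.1 (u h i) := rfl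

variable (hΦ : ∀ i, IsCMType (Φ i))
include hΦ

theorem real_indep {r : Fin n → ℝ} (h : ∑ i, r i • perS u Φ (b i) = 0) : r = 0 := by
  have h1 : ∀ x : Σ i, (E i →+* ℂ), x.2 ∈ Φ x.1 → cx b u x (fun i => (r i : ℂ)) = 0 := by
    rintro ⟨i, φ⟩ hx
    have h2 := congrFun (congrFun h i) ⟨φ, hx⟩
    rw [Finset.sum_apply, Finset.sum_apply] at h2
    rw [cx_apply]
    change _ = (0 : ℂ) at h2
    rw [← h2]
    refine Finset.sum_congr rfl fun j _ => ?_
    change φ (u (b j) i) * (r j : ℂ) = (r j : ℝ) • φ (u (b j) i)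
    rw [Complex.real_smul, mul_comm]
  have h2 : ∀ x : Σ i, (E i →+* ℂ), cx b u x (fun i => (r i : ℂ)) = 0 := by
    intro x
    by_cases hx : x.2 ∈ Φ x.1
    · exact h1 x hx
    · have h3 : ComplexEmbedding.conjugate x.2 ∈ Φ x.1 := by
        by_contra h4
        exact hx ((hΦ x.1 x.2).2 h4)
      have h4 := h1 ⟨x.1, ComplexEmbedding.conjugate x.2⟩ h3
      have h5 := congrArg (starRingEnd ℂ) h4
      rw [map_zero, cx_apply, map_sum] at h5
      rw [cx_apply, ← h5]
      refine Finset.sum_congr rfl fun i _ => ?_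
      rw [map_mul, Complex.conj_ofReal, ComplexEmbedding.conjugate_coe_eq, Complex.conj_conj]
  have h3 : (fun i => (r i : ℂ)) = 0 := ext_cx b u fun x => by rw [h2, map_zero]
  funext i
  have h4 : ((r i : ℝ) : ℂ) = 0 := congrFun h3 i
  exact Complex.ofReal_eq_zero.1 h4

include b u in
theorem finrank_tan : finrank ℝ (Tan Φ (fun i : ι => i)) = n := by
  classical
  have h1 : finrank ℝ (Tan Φ (fun i : ι => i)) = ∑ i, 2 * (Fintype.card (Φ i)) := by
    rw [Module.finrank_pi_fintype]
    refine Finset.sum_congr rfl fun i _ => ?_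
    rw [Module.finrank_pi_fintype, Finset.sum_const, Complex.finrank_real_complex,
      Finset.card_univ, smul_eq_mul, mul_comm]
  rw [h1, ← card_R b u, Fintype.card_sigma]
  refine Finset.sum_congr rfl fun i _ => ?_
  -- conjugation is a bijection of the type with its complement
  have h2 : Fintype.card (Φ i) = Fintype.card ((Φ i)ᶜ : Set (E i →+* ℂ)) := by
    refine Fintype.card_congr
      { toFun := fun φ => ⟨ComplexEmbedding.conjugate φ.1, (hΦ i φ.1).1 φ.2⟩
        invFun := fun φ => ⟨ComplexEmbedding.conjugate φ.1, by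
          by_contra h
          exact φ.2 ((hΦ i φ.1).2 h)⟩
        left_inv := fun φ => Subtype.ext (star_star φ.1)
        right_inv := fun φ => Subtype.ext (star_star φ.1) }
  have h3 := Fintype.card_compl_set (Φ i)
  have h4 : Fintype.card (Φ i) ≤ Fintype.card (E i →+* ℂ) := Fintype.card_subtype_le _
  omega

/-- The rational basis is a real basis of the tangent space. -/
def bS : Basis (Fin n) ℝ (Tan Φ (fun i : ι => i)) :=
  Basis.mk (v := fun i => perS u Φ (b i))
    (Fintype.linearIndependent_iff.2 fun r hr i => congrFun (real_indep b u Φ hΦ hr) i)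
    (LinearIndependent.span_eq_top_of_card_eq_finrank'
      (Fintype.linearIndependent_iff.2 fun r hr i => congrFun (real_indep b u Φ hΦ hr) i)
      (by rw [Fintype.card_fin, finrank_tan b u Φ hΦ])).ge

theorem bS_apply (i : Fin n) : bS b u Φ hΦ i = perS u Φ (b i) := by
  unfold bS
  rw [Basis.mk_apply]

end

end Pool.Agent.Q43.HL
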