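import Pool.Agent.Q43.HL.Cm

/-!
# A specialization of CM type: the weights
-/

set_option autoImplicit false
set_option linter.unusedSectionVars false

namespace Pool.Agent.Q43.HL

open Module Matrix NumberField Pool.Agent.H204R3.CM Pool.Agent.H204R3.SP Pool.Agent.H204R3.GP
  Pool.Agent.W516.MTD Pool.Agent.TH170.LV

noncomputable section

variable {n : ℕ} {H : Type} [AddCommGroup H] [Module ℚ H] (b : Basis (Fin n) ℚ H)
  {ι : Type} [Fintype ι] {E : ι → Type} [∀ i, Field (E i)] [∀ i, NumberField (E i)]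
  [∀ i, IsCMField (E i)]
  (u : H ≃ₗ[ℚ] (∀ i, E i)) (Φ : ∀ i, Set (E i →+* ℂ)) (hΦ : ∀ i, IsCMType (Φ i))

/-- The Hodge projection of the structure of CM type. -/
abbrev pS : Matrix (Fin n) (Fin n) ℂ := pj (bS b u Φ hΦ)

theorem cx_J_mem {x : Σ i, (E i →+* ℂ)} (hx : x.2 ∈ Φ x.1) (j : Fin n) :
    ∑ i, x.2 (u (b i) x.1) * ((mz (bS b u Φ hΦ) Complex.I i j : ℝ) : ℂ) =
      Complex.I * x.2 (u (b j) x.1) := by
  obtain ⟨k, φ⟩ := x
  have h1 : ∑ i, mz (bS b u Φ hΦ) Complex.I i j • bS b u Φ hΦ i = Complex.I • bS b u Φ hΦ j :=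
    (bS b u Φ hΦ).sum_repr _
  have h2 := congrFun (congrFun h1 k) ⟨φ, hx⟩
  rw [Finset.sum_apply, Finset.sum_apply] at h2
  rw [bS_apply] at h2
  refine Eq.trans (Finset.sum_congr rfl fun i _ => ?_) h2
  rw [bS_apply]
  change φ (u (b i) k) * _ = mz (bS b u Φ hΦ) Complex.I i j • φ (u (b i) k)
  rw [Complex.real_smul, mul_comm]

theorem cx_J_not {x : Σ i, (E i →+* ℂ)} (hx : x.2 ∉ Φ x.1) (j : Fin n) :
    ∑ i, x.2 (u (b i) x.1) * ((mz (bS b u Φ hΦ) Complex.I i j : ℝ) : ℂ) =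
      -Complex.I * x.2 (u (b j) x.1) := by
  have h3 : ComplexEmbedding.conjugate x.2 ∈ Φ x.1 := by
    by_contra h4
    exact hx ((hΦ x.1 x.2).2 h4)
  have h1 := cx_J_mem b u Φ hΦ (x := ⟨x.1, ComplexEmbedding.conjugate x.2⟩) h3 j
  have h2 := congrArg (starRingEnd ℂ) h1
  rw [map_sum, map_mul, Complex.conj_I, ComplexEmbedding.conjugate_coe_eq, Complex.conj_conj] at h2
  rw [← h2]
  refine Finset.sum_congr rfl fun i _ => ?_
  rw [map_mul, Complex.conj_ofReal, ComplexEmbedding.conjugate_coe_eq, Complex.conj_conj]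

theorem cx_mulVec (M : Matrix (Fin n) (Fin n) ℂ) (x : Σ i, (E i →+* ℂ)) (v : Fin n → ℂ) :
    cx b u x (M *ᵥ v) = ∑ j, (∑ i, x.2 (u (b i) x.1) * M i j) * v j := by
  rw [cx_apply]
  simp only [mulVec, dotProduct, Finset.mul_sum, Finset.sum_mul]
  rw [Finset.sum_comm]
  exact Finset.sum_congr rfl fun j _ => Finset.sum_congr rfl fun i _ => by ring

open Classical in
theorem cx_pS (x : Σ i, (E i →+* ℂ)) (v : Fin n → ℂ) :
    cx b u x (pS b u Φ hΦ *ᵥ v) = if x.2 ∈ Φ x.1 then cx b u x v else 0 := by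
  have h1 : ∀ j, ∑ i, x.2 (u (b i) x.1) * pS b u Φ hΦ i j =
      (1 / 2 : ℂ) * (x.2 (u (b j) x.1) - Complex.I *
        ∑ i, x.2 (u (b i) x.1) * ((mz (bS b u Φ hΦ) Complex.I i j : ℝ) : ℂ)) := by
    intro j
    have h2 : x.2 (u (b j) x.1) = ∑ i, x.2 (u (b i) x.1) * (1 : Matrix (Fin n) (Fin n) ℂ) i j := by
      rw [Finset.sum_eq_single j]
      · rw [Matrix.one_apply_eq, mul_one]
      · intro i _ hij
        rw [Matrix.one_apply_ne hij, mul_zero]
      · intro hj
        exact absurd (Finset.mem_univ j) hj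
    rw [h2, Finset.mul_sum, ← Finset.sum_sub_distrib, Finset.mul_sum]
    refine Finset.sum_congr rfl fun i _ => ?_
    unfold pS pj
    simp only [Matrix.smul_apply, Matrix.sub_apply, Matrix.map_apply, smul_eq_mul]
    rw [show (algebraMap ℝ ℂ) (mz (bS b u Φ hΦ) Complex.I i j) =
      ((mz (bS b u Φ hΦ) Complex.I i j : ℝ) : ℂ) from rfl]
    ring
  rw [cx_mulVec]
  have hI := Complex.I_mul_I
  split_ifs with hx
  · rw [cx_apply]
    refine Finset.sum_congr rfl fun j _ => ?_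
    rw [h1, cx_J_mem b u Φ hΦ hx]
    linear_combination (-(1 / 2 : ℂ) * x.2 (u (b j) x.1) * v j) * hI
  · refine Finset.sum_eq_zero fun j _ => ?_
    rw [h1, cx_J_not b u Φ hΦ hx]
    linear_combination ((1 / 2 : ℂ) * x.2 (u (b j) x.1) * v j) * hI

open Classical in
theorem cx_pS_conj (τ : ℂ ≃+* ℂ) (y : Σ i, (E i →+* ℂ)) (w : Fin n → ℂ) :
    cx b u y ((pS b u Φ hΦ).map τ.symm *ᵥ w) =
      if (τ : ℂ →+* ℂ).comp y.2 ∈ Φ y.1 then cx b u y w else 0 := by
  let v : Fin n → ℂ := fun i => τ (w i)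
  have hw : w = fun i => τ.symm (v i) := funext fun i => (τ.symm_apply_apply _).symm
  let x : Σ i, (E i →+* ℂ) := ⟨y.1, (τ : ℂ →+* ℂ).comp y.2⟩
  have hy : y = ⟨x.1, (τ.symm : ℂ →+* ℂ).comp x.2⟩ := by
    obtain ⟨i, φ⟩ := y
    change (⟨i, φ⟩ : Σ i, (E i →+* ℂ)) = ⟨i, _⟩
    congr 1
    ext a
    exact (τ.symm_apply_apply _).symm
  have h1 := cx_conj b u τ.symm x (pS b u Φ hΦ *ᵥ v)
  have h2 := cx_conj b u τ.symm x v
  rw [conj_mulVec, ← hw, ← hy, cx_pS] at h1
  rw [← hw, ← hy] at h2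
  rw [h1]
  change τ.symm (if x.2 ∈ Φ x.1 then cx b u x v else 0) =
    if x.2 ∈ Φ x.1 then cx b u y w else 0
  split_ifs
  · rw [h2]
  · rw [map_zero]

open Classical in
theorem pS_eb (τ : ℂ ≃+* ℂ) (y : Σ i, (E i →+* ℂ)) :
    (pS b u Φ hΦ).map τ.symm *ᵥ (eb b u y) =
      if (τ : ℂ →+* ℂ).comp y.2 ∈ Φ y.1 then eb b u y else 0 := by
  refine ext_cx b u fun x => ?_
  rw [cx_pS_conj]
  by_cases hxy : x = y
  · subst hxy
    split_ifs
    · rfl
    · rw [map_zero]
  · split_ifs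
    · rfl
    · rw [cx_eb, if_neg hxy, map_zero]
    · rw [cx_eb, if_neg hxy]
    · rw [map_zero]

open Classical in
/-- The weights of balanced forms. -/
theorem weight_count {κ : Type} [Fintype κ] [DecidableEq κ] {φ : Frm κ (Fin n)} {τ : ℂ ≃+* ℂ}
    (h : Bal ((pS b u Φ hΦ).map τ.symm) φ) {I : κ → Σ i, (E i →+* ℂ)}
    (hI : φ (fun l => eb b u (I l)) ≠ 0) :
    2 * (Finset.univ.filter (fun l => (τ : ℂ →+* ℂ).comp (I l).2 ∈ Φ (I l).1)).card =
      Fintype.card κ := by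
  by_contra hne
  apply hI
  set S := Finset.univ.filter (fun l => (τ : ℂ →+* ℂ).comp (I l).2 ∈ Φ (I l).1) with hS
  have h1 := h S hne (fun l => eb b u (I l))
  rw [← h1]
  congr 1
  funext l
  by_cases hl : l ∈ S
  · rw [Finset.piecewise_eq_of_mem _ _ _ hl, pS_eb, if_pos (Finset.mem_filter.1 hl).2]
  · rw [Finset.piecewise_eq_of_notMem _ _ _ hl, sub_mulVec, one_mulVec, pS_eb, if_neg, sub_zero]
    intro h2
    exact hl (Finset.mem_filter.2 ⟨Finset.mem_univ _, h2⟩)

open Classical in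
theorem weight_sum {κ : Type} [Fintype κ] [DecidableEq κ] {φ : Frm κ (Fin n)} {τ : ℂ ≃+* ℂ}
    (h : Bal ((pS b u Φ hΦ).map τ.symm) φ) {I : κ → Σ i, (E i →+* ℂ)}
    (hI : φ (fun l => eb b u (I l)) ≠ 0) :
    ∑ l, (if (τ : ℂ →+* ℂ).comp (I l).2 ∈ Φ (I l).1 then (1 : ℤ) else -1) = 0 := by
  have h1 := weight_count b u Φ hΦ h hI
  rw [Finset.sum_ite, Finset.sum_const, Finset.sum_const]
  have h2 := Finset.card_filter_add_card_filter_not (s := (Finset.univ : Finset κ))
    (fun l => (τ : ℂ →+* ℂ).comp (I l).2 ∈ Φ (I l).1)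
  rw [Finset.card_univ] at h2
  simp only [nsmul_eq_mul, mul_one, mul_neg]
  omega

end

section words

variable {ι : Type} {E : ι → Type} [∀ i, Field (E i)]

/-- The conjugate embedding. -/
def bar (x : Σ i, (E i →+* ℂ)) : Σ i, (E i →+* ℂ) := ⟨x.1, ComplexEmbedding.conjugate x.2⟩

theorem bar_bar (x : Σ i, (E i →+* ℂ)) : bar (bar x) = x := by
  obtain ⟨i, φ⟩ := x
  exact Sigma.ext rfl (heq_of_eq (star_star φ))

variable [∀ i, NumberField (E i)] [∀ i, IsCMField (E i)]

theorem bar_ne (x : Σ i, (E i →+* ℂ)) : bar x ≠ x := by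
  obtain ⟨i, φ⟩ := x
  intro h
  have h1 : ComplexEmbedding.conjugate φ = φ := eq_of_heq (Sigma.mk.inj h).2
  exact IsTotallyComplex.complexEmbedding_not_isReal φ h1

theorem comp_conj {F : Type} [Field F] [NumberField F] [IsCMField F] (τ : ℂ ≃+* ℂ) (φ : F →+* ℂ) :
    (τ : ℂ →+* ℂ).comp (ComplexEmbedding.conjugate φ) =
      ComplexEmbedding.conjugate ((τ : ℂ →+* ℂ).comp φ) := by
  ext x
  have h1 : ComplexEmbedding.conjugate φ x = φ (IsCMField.complexConj F x) :=
    (IsCMField.complexEmbedding_complexConj F φ x).symm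
  have h2 : ComplexEmbedding.conjugate ((τ : ℂ →+* ℂ).comp φ) x =
      ((τ : ℂ →+* ℂ).comp φ) (IsCMField.complexConj F x) :=
    (IsCMField.complexEmbedding_complexConj F _ x).symm
  rw [h2]
  change τ (ComplexEmbedding.conjugate φ x) = τ (φ _)
  rw [h1]

variable {Φ : ∀ i, Set (E i →+* ℂ)}

open Classical in
/-- The signs of conjugate embeddings are opposite. -/
theorem sign_bar (hΦ : ∀ i, IsCMType (Φ i)) (τ : ℂ ≃+* ℂ) (x : Σ i, (E i →+* ℂ)) :
    (if (τ : ℂ →+* ℂ).comp (bar x).2 ∈ Φ (bar x).1 then (1 : ℤ) else -1) =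
      -(if (τ : ℂ →+* ℂ).comp x.2 ∈ Φ x.1 then (1 : ℤ) else -1) := by
  obtain ⟨i, φ⟩ := x
  change (if (τ : ℂ →+* ℂ).comp (ComplexEmbedding.conjugate φ) ∈ Φ i then (1 : ℤ) else -1) =
      -(if (τ : ℂ →+* ℂ).comp φ ∈ Φ i then (1 : ℤ) else -1)
  rw [comp_conj]
  have h1 := hΦ i ((τ : ℂ →+* ℂ).comp φ)
  by_cases h : (τ : ℂ →+* ℂ).comp φ ∈ Φ i
  · rw [if_pos h, if_neg (h1.1 h)]
  · rw [if_neg h, if_pos, neg_neg]
    by_contra h2
    exact h (h1.2 h2)

open Classical in
/-- Words without conjugate letters. -/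
theorem multiset_balanced (hΦ : ∀ i, IsCMType (Φ i)) {k : ℕ} (hlf : LevelFree Φ k 0) :
    ∀ (N : ℕ) (s : Multiset (Σ i, (E i →+* ℂ))), Multiset.card s = N → N ≤ k →
      (∀ τ : ℂ ≃+* ℂ, (s.map (fun x =>
        if (τ : ℂ →+* ℂ).comp x.2 ∈ Φ x.1 then (1 : ℤ) else -1)).sum = 0) →
      ∀ y, s.count y = s.count (bar y) := by
  intro N
  induction N using Nat.strong_induction_on with
  | _ N ih =>
    intro s hs hN hbal y
    by_cases hN0 : N = 0
    · rw [hN0, Multiset.card_eq_zero] at hs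
      rw [hs, Multiset.count_zero, Multiset.count_zero]
    by_cases hN1 : N = 1
    · exfalso
      rw [hN1, Multiset.card_eq_one] at hs
      obtain ⟨x, rfl⟩ := hs
      have h1 := hbal (RingEquiv.refl ℂ)
      rw [Multiset.map_singleton, Multiset.sum_singleton] at h1
      split_ifs at h1
      omega
    -- the word
    obtain ⟨l, rfl⟩ := Quot.exists_rep s
    change Multiset.card (l : Multiset (Σ i, (E i →+* ℂ))) = N at hs
    rw [Multiset.coe_card] at hs
    let a : Fin N → Σ i, (E i →+* ℂ) := fun j => l.get (Fin.cast hs.symm j)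
    have hsum : ∀ f : (Σ i, (E i →+* ℂ)) → ℤ, ∑ j, f (a j) = ((l : Multiset (Σ i, (E i →+* ℂ))).map f).sum := by
      intro f
      subst hs
      rw [Multiset.map_coe, Multiset.sum_coe, ← List.sum_ofFn]
      congr 1
      refine List.ext_get ?_ ?_
      · simp
      · intro m h1 h2
        simp [a]
    have hconj : ∃ j j', a j = bar (a j') := by
      by_contra hcon
      push Not at hcon
      obtain ⟨τ, hτ⟩ := hlf N hN 0 le_rfl (by omega) a hcon
      have h1 := hbal τ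
      change ((l : Multiset (Σ i, (E i →+* ℂ))).map _).sum = 0 at h1
      rw [← hsum] at h1
      rw [h1, abs_zero] at hτ
      exact lt_irrefl _ hτ
    obtain ⟨j, j', hjj⟩ := hconj
    have hmem : ∀ j, a j ∈ (l : Multiset (Σ i, (E i →+* ℂ))) := fun j =>
      Multiset.mem_coe.2 (List.get_mem _ _)
    have h1 : a j' ∈ (l : Multiset (Σ i, (E i →+* ℂ))) := hmem j'
    obtain ⟨t, ht⟩ := Multiset.exists_cons_of_mem h1
    have h2 : a j ∈ t := by
      have h3 := hmem j
      rw [ht, Multiset.mem_cons] at h3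
      rcases h3 with h3 | h3
      · exfalso
        rw [hjj] at h3
        exact bar_ne _ h3
      · exact h3
    obtain ⟨t', ht'⟩ := Multiset.exists_cons_of_mem h2
    have hl : (Quot.mk _ l : Multiset (Σ i, (E i →+* ℂ))) = a j' ::ₘ a j ::ₘ t' := by
      rw [← ht', ← ht]
      rfl
    have hcard : Multiset.card t' + 2 = N := by
      rw [← hs, ← Multiset.coe_card, ht, ht', Multiset.card_cons, Multiset.card_cons]
    have h3 := ih (Multiset.card t') (by omega) t' rfl (by omega) (fun τ => by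
      have h4 := hbal τ
      rw [hl, Multiset.map_cons, Multiset.map_cons, Multiset.sum_cons, Multiset.sum_cons, hjj,
        sign_bar hΦ] at h4
      linarith) y
    rw [hl, Multiset.count_cons, Multiset.count_cons, Multiset.count_cons, Multiset.count_cons, h3,
      hjj]
    have e1 : (bar y = a j') ↔ (y = bar (a j')) := by
      constructor
      · intro h
        rw [← h, bar_bar]
      · intro h
        rw [h, bar_bar]
    have e2 : (bar y = bar (a j')) ↔ (y = a j') := by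
      constructor
      · intro h
        rw [← bar_bar y, h, bar_bar]
      · intro h
        rw [h]
    simp only [e1, e2]
    omega

open Classical in
/-- Balanced words of length at most `k`. -/
theorem word_balanced (hΦ : ∀ i, IsCMType (Φ i)) {k : ℕ} (hlf : LevelFree Φ k 0)
    {κ : Type} [Fintype κ] (hκ : Fintype.card κ ≤ k) (I : κ → Σ i, (E i →+* ℂ))
    (hbal : ∀ τ : ℂ ≃+* ℂ,
      ∑ l, (if (τ : ℂ →+* ℂ).comp (I l).2 ∈ Φ (I l).1 then (1 : ℤ) else -1) = 0)
    (y : Σ i, (E i →+* ℂ)) :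
    (Finset.univ.filter (fun l => I l = y)).card =
      (Finset.univ.filter (fun l => I l = bar y)).card := by
  have h1 := multiset_balanced hΦ hlf (Fintype.card κ) ((Finset.univ : Finset κ).val.map I)
    (by rw [Multiset.card_map]; rfl) hκ (fun τ => by
      rw [Multiset.map_map]
      exact hbal τ) y
  have h2 : ∀ z, ((Finset.univ : Finset κ).val.map I).count z =
      (Finset.univ.filter (fun l => I l = z)).card := by
    intro z
    rw [Multiset.count_map, ← Finset.filter_val]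
    change (Finset.univ.filter (fun a => z = I a)).card = _
    congr 1
    ext l
    simp only [Finset.mem_filter, Finset.mem_univ, true_and]
    exact eq_comm
  rw [h2, h2] at h1
  exact h1

end words

end Pool.Agent.Q43.HL
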