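import Pool.Agent.Q43.HL.Bil
import Pool.Agent.H204R3.SP.AltSpan
import Pool.Agent.H194R3.CM.Defs

/-!
# From complex to rational coefficients, and from tensors to classes on powers
-/

set_option autoImplicit false
set_option linter.unusedSectionVars false

namespace Pool.Agent.Q43.HL

open Module Matrix Pool.Agent.H204R3.CM Pool.Agent.H204R3.SP Pool.Agent.H204R3.GP
  Pool.Agent.W516.MTD Pool.Agent.H194R3.CM

noncomputable section

section desc

variable {n : ℕ} {H : Type} [AddCommGroup H] [Module ℚ H] (b : Basis (Fin n) ℚ H)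
  {κ : Type} [Fintype κ] [DecidableEq κ]

theorem span_descent_aux (S : Set (MultilinearMap ℚ (fun _ : κ => H) ℚ)) {x : Frm κ (Fin n)}
    (hx : x ∈ Submodule.span ℂ {φ | ∃ ψ ∈ S, φ = ex b ψ}) :
    ∀ lam : ℂ →ₗ[ℚ] ℚ, ∃ ψ ∈ Submodule.span ℚ S, ∀ I, lam (cf x I) = ψ (fun l => b (I l)) := by
  induction hx using Submodule.span_induction with
  | mem x hx =>
    obtain ⟨ψ, hψ, rfl⟩ := hx
    intro lam
    refine ⟨lam 1 • ψ, Submodule.smul_mem _ _ (Submodule.subset_span hψ), fun I => ?_⟩
    rw [cf_ex, _root_.smul_apply, smul_eq_mul]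
    have h1 : (((ψ fun l => b (I l)) : ℚ) : ℂ) = (ψ fun l => b (I l)) • (1 : ℂ) := by
      rw [Rat.smul_def, mul_one]
    rw [h1, map_smul, smul_eq_mul, mul_comm]
  | zero =>
    intro lam
    refine ⟨0, Submodule.zero_mem _, fun I => ?_⟩
    change lam 0 = 0
    exact map_zero lam
  | add x y _ _ hx hy =>
    intro lam
    obtain ⟨ψ, h1, h2⟩ := hx lam
    obtain ⟨ψ', h3, h4⟩ := hy lam
    refine ⟨ψ + ψ', Submodule.add_mem _ h1 h3, fun I => ?_⟩
    rw [_root_.add_apply, ← h2, ← h4, ← map_add]
    rfl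
  | smul c x _ hx =>
    intro lam
    obtain ⟨ψ, h1, h2⟩ := hx (lam ∘ₗ (LinearMap.mulLeft ℚ c))
    refine ⟨ψ, h1, fun I => ?_⟩
    rw [← h2]
    rfl

theorem span_descent (S : Set (MultilinearMap ℚ (fun _ : κ => H) ℚ))
    {ψ : MultilinearMap ℚ (fun _ : κ => H) ℚ}
    (hx : ex b ψ ∈ Submodule.span ℂ {φ | ∃ ψ ∈ S, φ = ex b ψ}) : ψ ∈ Submodule.span ℚ S := by
  obtain ⟨lam, hlam⟩ := LinearMap.exists_leftInverse_of_injective (Algebra.linearMap ℚ ℂ)
    (LinearMap.ker_eq_bot.2 (algebraMap ℚ ℂ).injective)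
  obtain ⟨ψ', h1, h2⟩ := span_descent_aux b S hx lam
  have h3 : ψ = ψ' := by
    refine Basis.ext_multilinear (fun _ => b) fun I => ?_
    rw [← h2, cf_ex]
    have h4 := congrArg (fun f => f (ψ fun l => b (I l))) hlam
    simp only [LinearMap.comp_apply, Algebra.linearMap_apply, LinearMap.id_apply,
      eq_ratCast] at h4
    exact h4.symm
  rw [h3]
  exact h1

end desc

section prod

variable {n : ℕ} {H T : Type} [AddCommGroup H] [Module ℚ H] [AddCommGroup T] [Module ℂ T]
  (per : H →+ T) (b : Basis (Fin n) ℚ H) (b' : Basis (Fin n) ℝ T) (hb : ∀ i, b' i = per (b i))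

theorem mmG_om {m : ℕ} (σ : Equiv.Perm (Fin m × Fin 2)) (β : Fin m → (H →ₗ[ℚ] H →ₗ[ℚ] ℚ)) :
    mmG σ (fun l => om b (β l)) = ex b (mmG σ β) := by
  refine ext_cf fun I => ?_
  rw [cf_ex]
  unfold cf
  rw [mmG_apply]
  have h1 : ∀ v : Fin m × Fin 2 → H, mmG σ β v = ∏ s, β s (v (σ (s, 0))) (v (σ (s, 1))) :=
    fun v => mmG_apply σ β v
  rw [h1, Rat.cast_prod]
  refine Finset.prod_congr rfl fun s _ => ?_
  rw [← om_cpr b, cpr_basis, cpr_basis]

include hb

/-- A rational Hodge form which is a combination of products of Tate forms of degree two is a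
combination of products of Hodge forms of degree two. -/
theorem product_of_span {m : ℕ} {ψ : MultilinearMap ℚ (fun _ : Fin m × Fin 2 => H) ℚ}
    (h : ex b ψ ∈ Submodule.span ℂ (PT (rho (pj b')) (chi (pj b')) m)) :
    ψ ∈ Submodule.span ℚ {ψ : MultilinearMap ℚ (fun _ : Fin m × Fin 2 => H) ℚ |
      IsProductOfHodgeBilinear per ψ} := by
  apply span_descent b
  refine Submodule.span_le.2 ?_ h
  rintro _ ⟨σ, β, hβ, rfl⟩
  have h1 := mmG_mem_span σ {β' | ∃ β₀ : H →ₗ[ℚ] H →ₗ[ℚ] ℚ, IsHodgeBilinear per β₀ ∧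
      β' = om b β₀} β fun l => tate2_span per b b' hb (hβ l)
  refine Submodule.span_mono ?_ h1
  rintro _ ⟨β', hβ', rfl⟩
  choose β₀ h2 h3 using hβ'
  refine ⟨mmG σ β₀, ⟨σ, β₀, h2, fun v => mmG_apply σ β₀ v⟩, ?_⟩
  rw [← mmG_om]
  congr 1
  funext l
  exact h3 l

end prod

section alt

variable {H T : Type} [AddCommGroup H] [Module ℚ H] [AddCommGroup T] [Module ℂ T]
  (per : H →+ T)

/-- The inclusion of the rational homology of the power `A ^ n` in its tangent space. -/
def perPow (n : ℕ) : (Fin n → H) →+ (Fin n → T) where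
  toFun v := fun i => per (v i)
  map_zero' := funext fun _ => map_zero per
  map_add' _ _ := funext fun _ => map_add per _ _

theorem perPow_apply (n : ℕ) (v : Fin n → H) (i : Fin n) : perPow per n v i = per (v i) := rfl

/-- From tensors to classes on powers. -/
theorem alt_pow {m n : ℕ}
    (hall : ∀ ψ : MultilinearMap ℚ (fun _ : Fin m × Fin 2 => H) ℚ, IsHodgeTensor per ψ →
      ψ ∈ Submodule.span ℚ {ψ : MultilinearMap ℚ (fun _ : Fin m × Fin 2 => H) ℚ |
        IsProductOfHodgeBilinear per ψ})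
    (f : (Fin n → H) [⋀^Fin m × Fin 2]→ₗ[ℚ] ℚ) (hf : IsHodge (perPow per n) f) :
    f ∈ divisorial (perPow per n) m := by
  classical
  obtain ⟨Ψ, hΨ1, hΨ2⟩ := hf
  let BB : Set (MultilinearMap ℚ (fun _ : Fin 2 => Fin n → H) ℚ) :=
    {β | ∃ E : MultilinearMap ℝ (fun _ : Fin 2 => Fin n → T) ℝ,
      (∀ v : Fin 2 → Fin n → H, E (fun l => perPow per n (v l)) = β v) ∧
      ∀ z : ℂ, ‖z‖ = 1 → ∀ u, E (fun l => z • u l) = E u}
  have hmem : (fun v => f v) ∈ Submodule.span ℚ {g : (Fin m × Fin 2 → Fin n → H) → ℚ |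
      ∃ (e : Equiv.Perm (Fin m × Fin 2))
        (B : Fin m → MultilinearMap ℚ (fun _ : Fin 2 => Fin n → H) ℚ),
        (∀ s, B s ∈ BB) ∧ g = fun v => ∏ s, B s (fun ε => v (e (s, ε)))} := by
    let fc : (Fin m × Fin 2 → Fin n) → MultilinearMap ℚ (fun _ : Fin m × Fin 2 => H) ℚ := fun c =>
      f.toMultilinearMap.compLinearMap (fun l => LinearMap.single ℚ (fun _ : Fin n => H) (c l))
    have hsingle : ∀ (i : Fin n) (x : H), perPow per n (Pi.single i x) = Pi.single i (per x) := by
      intro i x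
      funext k
      rw [perPow_apply]
      by_cases hk : k = i
      · subst hk
        rw [Pi.single_eq_same, Pi.single_eq_same]
      · rw [Pi.single_eq_of_ne hk, Pi.single_eq_of_ne hk, map_zero]
    have hfc : ∀ c, IsHodgeTensor per (fc c) := by
      intro c
      refine ⟨Ψ.compLinearMap (fun l => LinearMap.single ℝ (fun _ : Fin n => T) (c l)),
        fun v => ?_, fun z hz u => ?_⟩
      · change Ψ (fun l => Pi.single (c l) (per (v l))) = ((f fun l => Pi.single (c l) (v l) : ℚ) : ℝ)
        rw [← hΨ1]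
        congr 1
        funext l
        exact (hsingle _ _).symm
      · change Ψ (fun l => Pi.single (c l) (z • u l)) = Ψ (fun l => Pi.single (c l) (u l))
        refine Eq.trans ?_ (hΨ2 z hz (fun l => Pi.single (c l) (u l)))
        congr 1
        funext l i
        rw [Pi.smul_apply]
        by_cases hi : i = c l
        · subst hi
          rw [Pi.single_eq_same, Pi.single_eq_same]
        · rw [Pi.single_eq_of_ne hi, Pi.single_eq_of_ne hi, smul_zero]
    have hsum : (fun v => f v) = ∑ c : Fin m × Fin 2 → Fin n,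
        (fun v : Fin m × Fin 2 → Fin n → H => fc c (fun l => v l (c l))) := by
      funext v
      rw [Finset.sum_apply]
      have h1 : v = fun l => ∑ i, Pi.single i (v l i) := by
        funext l
        exact (Finset.univ_sum_single (v l)).symm
      conv_lhs => rw [h1]
      exact f.toMultilinearMap.map_sum (fun l i => Pi.single i (v l i))
    rw [hsum]
    refine Submodule.sum_mem _ fun c _ => ?_
    have h2 := hall (fc c) (hfc c)
    have h3 : ∀ φ ∈ Submodule.span ℚ {ψ : MultilinearMap ℚ (fun _ : Fin m × Fin 2 => H) ℚ |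
        IsProductOfHodgeBilinear per ψ},
        (fun v : Fin m × Fin 2 → Fin n → H => φ (fun l => v l (c l))) ∈
        Submodule.span ℚ {g : (Fin m × Fin 2 → Fin n → H) → ℚ |
      ∃ (e : Equiv.Perm (Fin m × Fin 2))
        (B : Fin m → MultilinearMap ℚ (fun _ : Fin 2 => Fin n → H) ℚ),
        (∀ s, B s ∈ BB) ∧ g = fun v => ∏ s, B s (fun ε => v (e (s, ε)))} := by
      intro φ hφ
      induction hφ using Submodule.span_induction with
      | mem φ hφ =>
        obtain ⟨σ, B, hB, hφ'⟩ := hφ
        refine Submodule.subset_span ⟨σ, fun s => bil2 ((B s).compl₁₂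
          (LinearMap.proj (c (σ (s, 0)))) (LinearMap.proj (c (σ (s, 1))))), fun s => ?_, ?_⟩
        · obtain ⟨E, hE1, hE2⟩ := hB s
          refine ⟨bil2 (E.compl₁₂ (LinearMap.proj (c (σ (s, 0)))) (LinearMap.proj (c (σ (s, 1))))),
            fun v => ?_, fun z hz u => ?_⟩
          · rw [bil2_apply, bil2_apply]
            exact hE1 _ _
          · rw [bil2_apply, bil2_apply]
            exact hE2 z hz _ _
        · funext v
          exact hφ' _
      | zero => exact Submodule.zero_mem _
      | add a b _ _ ha hb => exact Submodule.add_mem _ ha hb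
      | smul c a _ ha => exact Submodule.smul_mem _ c ha
    exact h3 _ h2
  have h1 := alt_span BB f hmem
  unfold divisorial
  refine Submodule.span_mono ?_ h1
  rintro g ⟨β, hβ, hg⟩
  refine ⟨fun s => MultilinearMap.alternatization (β s), fun s => ?_, fun v => ?_⟩
  · obtain ⟨E, hE1, hE2⟩ := hβ s
    refine ⟨(MultilinearMap.alternatization E).toMultilinearMap, fun v => ?_, fun z hz u => ?_⟩
    · change MultilinearMap.alternatization E (fun l => perPow per n (v l)) = _
      rw [MultilinearMap.alternatization_apply, MultilinearMap.alternatization_apply, Rat.cast_sum]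
      refine Finset.sum_congr rfl fun τ _ => ?_
      rw [MultilinearMap.domDomCongr_apply, MultilinearMap.domDomCongr_apply]
      have h2 : E (fun i => perPow per n (v (τ i))) = ((β s (fun i => v (τ i)) : ℚ) : ℝ) := hE1 _
      rw [h2, Units.smul_def, Units.smul_def, zsmul_eq_mul, zsmul_eq_mul, Rat.cast_mul,
        Rat.cast_intCast]
    · change MultilinearMap.alternatization E (fun l => z • u l) =
        MultilinearMap.alternatization E u
      rw [MultilinearMap.alternatization_apply, MultilinearMap.alternatization_apply]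
      refine Finset.sum_congr rfl fun τ _ => ?_
      rw [MultilinearMap.domDomCongr_apply, MultilinearMap.domDomCongr_apply]
      have h2 : E (fun i => z • u (τ i)) = E (fun i => u (τ i)) := hE2 z hz _
      rw [h2]
  · rw [hg v]

end alt

end

end Pool.Agent.Q43.HL
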