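import Pool.Agent.Q43.HL.Typ
import Pool.Agent.Q43.HL.Desc
import Pool.Agent.Q60.D3.Defs

/-!
# Abelian varieties: bases and the Riemann form
-/

set_option autoImplicit false
set_option linter.unusedSectionVars false

namespace Pool.Agent.Q43.HL

open Module NumberField Pool.Agent.H204R3.CM Pool.Agent.H204R3.GP Pool.Agent.W516.MTD
  Pool.Agent.TH170.LV Pool.Agent.H194R3.CM Pool.Agent.Q60.D3

noncomputable section

theorem per_smul (X : AV) (q : ℚ) (v : X.H) : X.per (q • v) = (q : ℝ) • X.per v := by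
  have h1 := map_ratCast_smul X.per ℚ ℝ q v
  rw [Rat.cast_id] at h1
  exact h1

theorem av_bases (X : AV) : ∃ (n : ℕ) (b : Basis (Fin n) ℚ X.H) (b' : Basis (Fin n) ℝ X.T),
    ∀ i, b' i = X.per (b i) := by
  let b : Basis (Fin (finrank ℚ X.H)) ℚ X.H := finBasis ℚ X.H
  have h1 : ⊤ ≤ Submodule.span ℝ (Set.range fun i => X.per (b i)) := by
    rw [← X.span, Submodule.span_le]
    rintro _ ⟨v, rfl⟩
    rw [← b.sum_repr v, map_sum]
    refine Submodule.sum_mem _ fun i _ => ?_
    rw [per_smul]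
    exact Submodule.smul_mem _ _ (Submodule.subset_span ⟨i, rfl⟩)
  have h2 : finrank ℝ X.T = finrank ℚ X.H := by
    rw [X.dim, ← finrank_mul_finrank ℝ ℂ X.T, Complex.finrank_real_complex]
  have h3 : Fintype.card (Fin (finrank ℚ X.H)) = finrank ℝ X.T := by
    rw [Fintype.card_fin, h2]
  refine ⟨_, b, basisOfTopLeSpanOfCardEqFinrank _ h1 h3, fun i => ?_⟩
  rw [coe_basisOfTopLeSpanOfCardEqFinrank]

theorem av_riemann (X : AV) : ∃ ω₀ : X.H →ₗ[ℚ] X.H →ₗ[ℚ] ℚ, IsRiemannForm X.per ω₀ := by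
  obtain ⟨F, h1, h2, h3, h4⟩ := X.pol
  have hadd' : ∀ u v w, F u (v + w) = F u v + F u w := by
    intro u v w
    rw [h2 (v + w) u, (h1 u).map_add, map_add, ← h2, ← h2]
  have hsmul' : ∀ (c : ℂ) u v, F u (c • v) = starRingEnd ℂ c * F u v := by
    intro c u v
    rw [h2 (c • v) u, (h1 u).map_smul, smul_eq_mul, map_mul, ← h2]
  let G : X.T →ₗ[ℝ] X.T →ₗ[ℝ] ℝ := LinearMap.mk₂ ℝ (fun u v => (F u v).im)
    (fun u v w => by rw [(h1 w).map_add, Complex.add_im])
    (fun c u v => by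
      have h5 : c • u = (c : ℂ) • u := (Complex.coe_smul c u).symm
      rw [h5, (h1 v).map_smul, smul_eq_mul, Complex.im_ofReal_mul, smul_eq_mul])
    (fun u v w => by rw [hadd', Complex.add_im])
    (fun c u v => by
      have h5 : c • v = (c : ℂ) • v := (Complex.coe_smul c v).symm
      rw [h5, hsmul', Complex.conj_ofReal, Complex.im_ofReal_mul, smul_eq_mul])
  have hG : ∀ u v, G u v = (F u v).im := fun u v => rfl
  choose q hq using h4
  have hq' : ∀ v w, (q v w : ℝ) = G (X.per v) (X.per w) := fun v w => (hq v w).symm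
  refine ⟨LinearMap.mk₂ ℚ q (fun u v w => ?_) (fun c u v => ?_) (fun u v w => ?_)
    (fun c u v => ?_), G, fun x y => ?_, fun z hz u v => ?_, fun u => ?_, fun u hu => ?_⟩
  · have h5 : (q (u + v) w : ℝ) = ((q u w + q v w : ℚ) : ℝ) := by
      rw [Rat.cast_add, hq', hq', hq', map_add, map_add, LinearMap.add_apply]
    exact_mod_cast h5
  · have h5 : (q (c • u) v : ℝ) = ((c • q u v : ℚ) : ℝ) := by
      rw [smul_eq_mul, Rat.cast_mul, hq', hq', per_smul, map_smul, LinearMap.smul_apply,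
        smul_eq_mul]
    exact_mod_cast h5
  · have h5 : (q u (v + w) : ℝ) = ((q u v + q u w : ℚ) : ℝ) := by
      rw [Rat.cast_add, hq', hq', hq', map_add, map_add]
    exact_mod_cast h5
  · have h5 : (q u (c • v) : ℝ) = ((c • q u v : ℚ) : ℝ) := by
      rw [smul_eq_mul, Rat.cast_mul, hq', hq', per_smul, map_smul, smul_eq_mul]
    exact_mod_cast h5
  · rw [LinearMap.mk₂_apply]
    exact (hq' x y).symm
  · rw [hG, hG, (h1 _).map_smul, hsmul', smul_eq_mul, ← mul_assoc, Complex.mul_conj,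
      Complex.normSq_eq_norm_sq, hz]
    norm_num
  · rw [hG]
    have h5 := h2 u u
    exact Complex.conj_eq_iff_im.1 h5.symm
  · rw [hG, (h1 u).map_smul, smul_eq_mul]
    have h5 : (Complex.I * F u u).im = (F u u).re := by simp
    rw [h5]
    exact h3 u hu

/-- The abelian variety `X` specializes to the product of the abelian varieties of CM type
`(E i, Φ i)`: there is an isomorphism of the rational homology groups which maps all Hodge classes in
the tensor powers of the first cohomology group of `X` to Hodge classes. -/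
def SpecializesTo (X : AV) {ι : Type} {E : ι → Type} [∀ i, Field (E i)] [∀ i, NumberField (E i)]
    (Φ : ∀ i, Set (E i →+* ℂ)) : Prop :=
  ∃ u : X.H ≃ₗ[ℚ] (∀ i, E i), ∀ (m : ℕ) (ψ : MultilinearMap ℚ (fun _ : Fin m × Fin 2 => X.H) ℚ),
    IsHodgeTensor X.per ψ →
      IsHodgeTensor ((per Φ (fun i : ι => i)).comp u.toLinearMap.toAddMonoidHom) ψ

/-- All Hodge classes of degree `2 m` on all powers of `X` are linear combinations of products of
Hodge classes of degree two. -/
def NoExoticIn (X : AV) (m : ℕ) : Prop :=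
  ∀ (n : ℕ) (f : (Fin n → X.H) [⋀^Fin m × Fin 2]→ₗ[ℚ] ℚ), IsHodge (perPow X.per n) f →
    f ∈ divisorial (perPow X.per n) m

/-- The eigenvalues which are not real of the central endomorphisms of `X` have multiplicities
greater than `r`. -/
def LargeMultiplicities (X : AV) (r : ℕ) : Prop :=
  ∀ P : X.H →ₗ[ℚ] X.H, IsHom X X P → (∀ Q : X.H →ₗ[ℚ] X.H, IsHom X X Q → P ∘ₗ Q = Q ∘ₗ P) →
    ∀ z : ℂ, (P.charpoly.map (algebraMap ℚ ℂ)).IsRoot z → z.im ≠ 0 →
      r < (P.charpoly.map (algebraMap ℚ ℂ)).rootMultiplicity z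

theorem noExoticIn_zero (X : AV) : NoExoticIn X 0 := by
  intro n f _
  have h1 : f = f 0 • AlternatingMap.constOfIsEmpty ℚ (Fin n → X.H) (Fin 0 × Fin 2) (1 : ℚ) := by
    ext v
    rw [AlternatingMap.smul_apply, AlternatingMap.constOfIsEmpty_apply, smul_eq_mul,
      Function.const_apply, mul_one]
    congr 1
    exact Subsingleton.elim _ _
  rw [h1]
  refine Submodule.smul_mem _ _ (Submodule.subset_span ⟨fun l => l.elim0, fun l => l.elim0,
    fun v => ?_⟩)
  rw [AlternatingMap.constOfIsEmpty_apply]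
  simp

variable {ι : Type} [Fintype ι] {E : ι → Type} [∀ i, Field (E i)] [∀ i, NumberField (E i)]
  [∀ i, IsCMField (E i)] {Φ : ∀ i, Set (E i →+* ℂ)}

/-- Low codimension. -/
theorem av_low (hΦ : ∀ i, IsCMType (Φ i)) {k : ℕ} (hlf : LevelFree Φ k 0) {X : AV}
    (hX : SpecializesTo X Φ) {m : ℕ} (hm : 2 * m ≤ k) : NoExoticIn X m := by
  rcases Nat.eq_zero_or_pos m with rfl | hm0
  · exact noExoticIn_zero X
  obtain ⟨n, b, b', hb⟩ := av_bases X
  obtain ⟨ω₀, hR⟩ := av_riemann X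
  obtain ⟨u, hsp⟩ := hX
  intro N f hf
  exact alt_pow X.per (fun ψ hψ => tensor_low X.per b b' hb hR u Φ hΦ hsp hlf (by omega) hm0 hm
    le_rfl ψ hψ) f hf

/-- Codimension bounded by the multiplicities. -/
theorem av_mult (hΦ : ∀ i, IsCMType (Φ i)) {k : ℕ} (hk : 4 ≤ k) (hlf : LevelFree Φ k 0) {X : AV}
    (hX : SpecializesTo X Φ) {m : ℕ} (hm : LargeMultiplicities X (2 * m)) : NoExoticIn X m := by
  obtain ⟨n, b, b', hb⟩ := av_bases X
  obtain ⟨ω₀, hR⟩ := av_riemann X
  obtain ⟨u, hsp⟩ := hX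
  intro N f hf
  exact alt_pow X.per (fun ψ hψ => tensor_mult X.per b b' hb hR u Φ hΦ hsp hlf hk hm ψ hψ) f hf

end

end Pool.Agent.Q43.HL
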