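import Pool.Agent.Q43.HL.Low
import Pool.Agent.W516.Four2

/-!
# All Hodge classes, if there are no relations of length four and no factors of type IV
-/

set_option autoImplicit false
set_option linter.unusedSectionVars false

namespace Pool.Agent.Q43.HL

open Module Matrix NumberField Pool.Agent.H204R3.CM Pool.Agent.H204R3.SP Pool.Agent.H204R3.GP
  Pool.Agent.W516.MTD Pool.Agent.TH170.LV Pool.Agent.W516.FT

noncomputable section

section words

variable {ι : Type} {E : ι → Type} [∀ i, Field (E i)] [∀ i, NumberField (E i)]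
  [∀ i, IsCMField (E i)] {Φ : ∀ i, Set (E i →+* ℂ)}

open Classical in
/-- The sign of an embedding. -/
def sg (Φ : ∀ i, Set (E i →+* ℂ)) (τ : ℂ ≃+* ℂ) (x : Σ i, (E i →+* ℂ)) : ℤ :=
  if (τ : ℂ →+* ℂ).comp x.2 ∈ Φ x.1 then 1 else -1

theorem sg_bar (hΦ : ∀ i, IsCMType (Φ i)) (τ : ℂ ≃+* ℂ) (x : Σ i, (E i →+* ℂ)) :
    sg Φ τ (bar x) = - sg Φ τ x := sign_bar hΦ τ x

theorem two_word (hΦ : ∀ i, IsCMType (Φ i)) {k : ℕ} (hlf : LevelFree Φ k 0) (hk : 2 ≤ k)
    {x y : Σ i, (E i →+* ℂ)} (h : ∀ τ, sg Φ τ x + sg Φ τ y = 0) : y = bar x := by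
  classical
  have h1 := word_balanced hΦ hlf (κ := Fin 2) (by rw [Fintype.card_fin]; exact hk) ![x, y]
    (fun τ => by
      rw [Fin.sum_univ_two]
      exact h τ) x
  have h2 : 0 < (Finset.univ.filter (fun l => ![x, y] l = x)).card :=
    Finset.card_pos.2 ⟨0, Finset.mem_filter.2 ⟨Finset.mem_univ _, rfl⟩⟩
  rw [h1] at h2
  obtain ⟨l, hl⟩ := Finset.card_pos.1 h2
  rw [Finset.mem_filter] at hl
  fin_cases l
  · exact absurd hl.2.symm (bar_ne x)
  · exact hl.2

theorem four_word (hΦ : ∀ i, IsCMType (Φ i)) {k : ℕ} (hlf : LevelFree Φ k 0) (hk : 4 ≤ k)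
    {x y z w : Σ i, (E i →+* ℂ)} (h : ∀ τ, sg Φ τ x + sg Φ τ y + sg Φ τ z + sg Φ τ w = 0) :
    (y = bar x ∧ w = bar z) ∨ (z = bar x ∧ w = bar y) ∨ (w = bar x ∧ z = bar y) := by
  classical
  have h1 := word_balanced hΦ hlf (κ := Fin 4) (by rw [Fintype.card_fin]; exact hk) ![x, y, z, w]
    (fun τ => by
      rw [Fin.sum_univ_four]
      exact h τ) x
  have h2 : 0 < (Finset.univ.filter (fun l => ![x, y, z, w] l = x)).card :=
    Finset.card_pos.2 ⟨0, Finset.mem_filter.2 ⟨Finset.mem_univ _, rfl⟩⟩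
  rw [h1] at h2
  obtain ⟨l, hl⟩ := Finset.card_pos.1 h2
  rw [Finset.mem_filter] at hl
  fin_cases l
  · exact absurd hl.2.symm (bar_ne x)
  · have h3 : y = bar x := hl.2
    refine Or.inl ⟨h3, two_word hΦ hlf (by omega) fun τ => ?_⟩
    have h4 := h τ
    rw [h3, sg_bar hΦ] at h4
    linarith
  · have h3 : z = bar x := hl.2
    refine Or.inr (Or.inl ⟨h3, two_word hΦ hlf (by omega) fun τ => ?_⟩)
    have h4 := h τ
    rw [h3, sg_bar hΦ] at h4
    linarith
  · have h3 : w = bar x := hl.2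
    refine Or.inr (Or.inr ⟨h3, two_word hΦ hlf (by omega) fun τ => ?_⟩)
    have h4 := h τ
    rw [h3, sg_bar hΦ] at h4
    linarith

variable (Φ) [Fintype ι]

/-- The different conjugates of the type. -/
def Cjg : Type := {f : (Σ i, (E i →+* ℂ)) → Prop // ∃ τ : ℂ ≃+* ℂ, ∀ y,
  f y ↔ (τ : ℂ →+* ℂ).comp y.2 ∈ Φ y.1}

instance : Finite (Cjg Φ) := Subtype.finite

instance : Fintype (Cjg Φ) := Fintype.ofFinite _

/-- Different prime numbers. -/
def pm (f : Cjg Φ) : ℕ := Nat.nth Nat.Prime (Fintype.equivFin (Cjg Φ) f)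

theorem pm_prime (f : Cjg Φ) : (pm Φ f).Prime := Nat.prime_nth_prime _

theorem pm_inj : Function.Injective (pm Φ) := fun _ _ h =>
  (Fintype.equivFin (Cjg Φ)).injective (Fin.ext (Nat.nth_injective Nat.infinite_setOfPred_prime h))

open Classical in
/-- The eigenvalues. -/
def ev (y : Σ i, (E i →+* ℂ)) : ℕ := ∏ f : Cjg Φ, if f.1 y then pm Φ f else 1

/-- The multiplier. -/
def mq : ℕ := ∏ f : Cjg Φ, pm Φ f

theorem mq_ne : mq Φ ≠ 0 := Finset.prod_ne_zero_iff.2 fun f _ => (pm_prime Φ f).ne_zero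

theorem ev_ne (y : Σ i, (E i →+* ℂ)) : ev Φ y ≠ 0 := by
  classical
  refine Finset.prod_ne_zero_iff.2 fun f _ => ?_
  split_ifs
  · exact (pm_prime Φ f).ne_zero
  · exact one_ne_zero

open Classical in
theorem ev_fact (y : Σ i, (E i →+* ℂ)) (f : Cjg Φ) :
    (ev Φ y).factorization (pm Φ f) = if f.1 y then 1 else 0 := by
  unfold ev
  rw [Nat.factorization_prod (fun f _ => by
    split_ifs
    · exact (pm_prime Φ f).ne_zero
    · exact one_ne_zero), Finsupp.coe_finsetSum, Finset.sum_apply, Finset.sum_eq_single f]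
  · split_ifs
    · rw [(pm_prime Φ f).factorization, Finsupp.single_eq_same]
    · rw [Nat.factorization_one]
      rfl
  · intro g _ hg
    split_ifs
    · rw [(pm_prime Φ g).factorization, Finsupp.single_eq_of_ne]
      intro h
      exact hg (pm_inj Φ h.symm)
    · rw [Nat.factorization_one]
      rfl
  · intro hf
    exact absurd (Finset.mem_univ f) hf

theorem mq_fact (f : Cjg Φ) : (mq Φ).factorization (pm Φ f) = 1 := by
  classical
  unfold mq
  rw [Nat.factorization_prod (fun f _ => (pm_prime Φ f).ne_zero), Finsupp.coe_finsetSum,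
    Finset.sum_apply, Finset.sum_eq_single f]
  · rw [(pm_prime Φ f).factorization, Finsupp.single_eq_same]
  · intro g _ hg
    rw [(pm_prime Φ g).factorization, Finsupp.single_eq_of_ne]
    intro h
    exact hg (pm_inj Φ h.symm)
  · intro hf
    exact absurd (Finset.mem_univ f) hf

theorem cjg_bar (hΦ : ∀ i, IsCMType (Φ i)) (f : Cjg Φ) (y : Σ i, (E i →+* ℂ)) :
    f.1 (bar y) ↔ ¬ f.1 y := by
  obtain ⟨τ, hτ⟩ := f.2
  rw [hτ, hτ]
  obtain ⟨i, φ⟩ := y
  change (τ : ℂ →+* ℂ).comp (ComplexEmbedding.conjugate φ) ∈ Φ i ↔ ¬ (τ : ℂ →+* ℂ).comp φ ∈ Φ i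
  rw [comp_conj]
  have h1 := hΦ i ((τ : ℂ →+* ℂ).comp φ)
  tauto

theorem ev_bar (hΦ : ∀ i, IsCMType (Φ i)) (y : Σ i, (E i →+* ℂ)) :
    ev Φ y * ev Φ (bar y) = mq Φ := by
  classical
  unfold ev mq
  rw [← Finset.prod_mul_distrib]
  refine Finset.prod_congr rfl fun f _ => ?_
  have h1 := cjg_bar Φ hΦ f y
  by_cases h : f.1 y
  · rw [if_pos h, if_neg (fun h' => h1.1 h' h), mul_one]
  · rw [if_neg h, if_pos (h1.2 h), one_mul]

/-- There are only trivial relations of length four between the eigenvalues. -/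
theorem ev_four (hΦ : ∀ i, IsCMType (Φ i)) {k : ℕ} (hlf : LevelFree Φ k 0) (hk : 4 ≤ k) :
    Four (Ω := ℂ) bar (fun y => (ev Φ y : ℂ)) (mq Φ : ℂ) := by
  classical
  intro M hM x y z w h
  have h1 : (ev Φ x * ev Φ y * ev Φ z * ev Φ w) ^ M = mq Φ ^ (2 * M) := by
    simp only at h
    exact_mod_cast h
  refine four_word hΦ hlf hk fun τ => ?_
  let f : Cjg Φ := ⟨fun y => (τ : ℂ →+* ℂ).comp y.2 ∈ Φ y.1, τ, fun _ => Iff.rfl⟩
  have h2 := congrArg (fun N : ℕ => N.factorization (pm Φ f)) h1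
  simp only [Nat.factorization_pow, Finsupp.smul_apply, smul_eq_mul] at h2
  rw [Nat.factorization_mul (mul_ne_zero (mul_ne_zero (ev_ne Φ x) (ev_ne Φ y)) (ev_ne Φ z))
    (ev_ne Φ w), Nat.factorization_mul (mul_ne_zero (ev_ne Φ x) (ev_ne Φ y)) (ev_ne Φ z),
    Nat.factorization_mul (ev_ne Φ x) (ev_ne Φ y), Finsupp.add_apply, Finsupp.add_apply,
    Finsupp.add_apply, ev_fact, ev_fact, ev_fact, ev_fact, mq_fact, mul_one, mul_comm 2 M] at h2
  have h3 := Nat.eq_of_mul_eq_mul_left hM h2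
  have h4 : ∀ y, sg Φ τ y = 2 * ((if f.1 y then 1 else 0 : ℕ) : ℤ) - 1 := by
    intro y
    unfold sg
    change (if f.1 y then (1 : ℤ) else -1) = _
    split_ifs <;> simp
  rw [h4, h4, h4, h4]
  have h5 : (((if f.1 x then 1 else 0 : ℕ) + (if f.1 y then 1 else 0 : ℕ) +
    (if f.1 z then 1 else 0 : ℕ) + (if f.1 w then 1 else 0 : ℕ) : ℕ) : ℤ) = 2 := by
    rw [h3]
    rfl
  push_cast at h5 ⊢
  linarith

end words

variable {n : ℕ} {H T : Type} [AddCommGroup H] [Module ℚ H] [AddCommGroup T] [Module ℂ T]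
  (per : H →+ T) (b : Basis (Fin n) ℚ H) (b' : Basis (Fin n) ℝ T) (hb : ∀ i, b' i = per (b i))
  {ω₀ : H →ₗ[ℚ] H →ₗ[ℚ] ℚ} (hR : IsRiemannForm per ω₀)
  {ι : Type} [Fintype ι] {E : ι → Type} [∀ i, Field (E i)] [∀ i, NumberField (E i)]
  [∀ i, IsCMField (E i)]
  (u : H ≃ₗ[ℚ] (∀ i, E i)) (Φ : ∀ i, Set (E i →+* ℂ)) (hΦ : ∀ i, IsCMType (Φ i))
  (hsp : ∀ (m : ℕ) (ψ : MultilinearMap ℚ (fun _ : Fin m × Fin 2 => H) ℚ),
    IsHodgeTensor per ψ → IsHodgeTensor (perS u Φ) ψ)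

/-- The matrix of a diagonal endomorphism. -/
def dm (c : (Σ i, (E i →+* ℂ)) → ℂ) : Matrix (Fin n) (Fin n) ℂ :=
  LinearMap.toMatrix' (dg (eb b u) c)

theorem dm_eb (c : (Σ i, (E i →+* ℂ)) → ℂ) (x : Σ i, (E i →+* ℂ)) :
    dm b u c *ᵥ eb b u x = c x • eb b u x := by
  classical
  unfold dm
  rw [LinearMap.toMatrix'_mulVec, dg_basis]

theorem dm_mul (c c' : (Σ i, (E i →+* ℂ)) → ℂ) (h : ∀ x, c x * c' x = 1) :
    dm b u c * dm b u c' = 1 := by
  classical
  unfold dm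
  rw [← LinearMap.toMatrix'_mul]
  have h1 : dg (eb b u) c * dg (eb b u) c' = 1 := by
    refine (eb b u).ext fun x => ?_
    rw [Module.End.mul_apply, dg_basis, map_smul, dg_basis, smul_smul, mul_comm, h, one_smul]
    rfl
  rw [h1, LinearMap.toMatrix'_one]

include hb hsp hΦ in
/-- The special element of the group. -/
theorem exists_special : ∃ γ : GG (pj b'), chi (pj b') γ = (mq Φ : ℂ) ∧
    ∀ x, rho (pj b') γ (eb b u x) = (ev Φ x : ℂ) • eb b u x := by
  classical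
  have hc0 : ∀ x, (ev Φ x : ℂ) ≠ 0 := fun x => Nat.cast_ne_zero.2 (ev_ne Φ x)
  have hq0 : (mq Φ : ℂ) ≠ 0 := Nat.cast_ne_zero.2 (mq_ne Φ)
  let g : (Matrix (Fin n) (Fin n) ℂ)ˣ := ⟨dm b u (fun x => (ev Φ x : ℂ)),
    dm b u (fun x => (ev Φ x : ℂ)⁻¹), dm_mul b u _ _ fun x => mul_inv_cancel₀ (hc0 x),
    dm_mul b u _ _ fun x => inv_mul_cancel₀ (hc0 x)⟩
  refine ⟨⟨(g, Units.mk0 _ hq0), ?_⟩, rfl, fun x => dm_eb b u _ x⟩
  intro m φ hφ v
  let F : Frm (Fin m × Fin 2) (Fin n) :=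
    φ.compLinearMap (fun _ => (dm b u (fun x => (ev Φ x : ℂ))).mulVecLin)
  have hF : F = (mq Φ : ℂ) ^ m • φ := by
    refine Basis.ext_multilinear (fun _ => eb b u) fun I => ?_
    change φ (fun l => dm b u (fun x => (ev Φ x : ℂ)) *ᵥ eb b u (I l)) =
      (mq Φ : ℂ) ^ m * φ (fun l => eb b u (I l))
    have h1 : (fun l => dm b u (fun x => (ev Φ x : ℂ)) *ᵥ eb b u (I l)) =
        fun l => (ev Φ (I l) : ℂ) • eb b u (I l) := funext fun l => dm_eb b u _ _
    rw [h1, MultilinearMap.map_smul_univ, smul_eq_mul]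
    by_cases h0 : φ (fun l => eb b u (I l)) = 0
    · rw [h0, mul_zero, mul_zero]
    · congr 1
      have h2 : ∏ l, ev Φ (I l) = mq Φ ^ m := by
        unfold ev mq
        rw [Finset.prod_comm, ← Finset.prod_pow]
        refine Finset.prod_congr rfl fun f _ => ?_
        obtain ⟨τ, hτ⟩ := f.2
        have h3 := weight_count b u Φ hΦ (τ := τ)
          (HT_bal per b b' hb u Φ hΦ hsp hφ τ.symm) h0
        rw [Fintype.card_prod, Fintype.card_fin, Fintype.card_fin] at h3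
        rw [Finset.prod_ite, Finset.prod_const, Finset.prod_const, one_pow, mul_one]
        congr 1
        have h4 : (Finset.univ.filter (fun l => f.1 (I l))) =
            (Finset.univ.filter (fun l => (τ : ℂ →+* ℂ).comp (I l).2 ∈ Φ (I l).1)) := by
          ext l
          rw [Finset.mem_filter, Finset.mem_filter, hτ]
        rw [h4]
        omega
      rw [← Nat.cast_prod, h2, Nat.cast_pow]
  exact congrArg (fun f : Frm (Fin m × Fin 2) (Fin n) => f v) hF

include hb hR hΦ hsp in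
/-- All Hodge tensors are generated in degree two if there are only trivial relations of length four
and all Hodge forms are alternating. -/
theorem tensor_all {k : ℕ} (hlf : LevelFree Φ k 0) (hk : 4 ≤ k)
    (hanti : ∀ β : H →ₗ[ℚ] H →ₗ[ℚ] ℚ, IsHodgeBilinear per β → ∀ x y, β x y = - β y x)
    {m : ℕ} (ψ : MultilinearMap ℚ (fun _ : Fin m × Fin 2 => H) ℚ) (hψ : IsHodgeTensor per ψ) :
    ψ ∈ Submodule.span ℚ {ψ : MultilinearMap ℚ (fun _ : Fin m × Fin 2 => H) ℚ |
      IsProductOfHodgeBilinear per ψ} := by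
  classical
  have hpol := isPol_of per b b' hb hR
  obtain ⟨γ, hγ1, hγ2⟩ := exists_special per b b' hb u Φ hΦ hsp
  apply product_of_span per b b' hb
  refine four_mem (eb b u) (inv := bar)
    (jj := fun x => om b ω₀ (eb b u x) (eb b u (bar x))) bar_bar bar_ne
    (jj_anti per b b' hb hR u Φ hΦ hsp hlf (by omega))
    (jj_ne per b b' hb hR u Φ hΦ hsp hlf (by omega))
    (om b ω₀) (om_pair per b b' hb hR u Φ hΦ hsp hlf (by omega)) (rho (pj b')) (chi (pj b'))
    hpol.sim hpol.hasProj hγ2 (Nat.cast_ne_zero.2 (mq_ne Φ))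
    (fun x => by rw [← Nat.cast_mul, ev_bar Φ hΦ]) hγ1 (ev_four Φ hΦ hlf hk)
    (fun B hB1 hB2 hB3 => ?_) (ex b ψ)
    (tate_of_HT ⟨ex_rat b ψ, (hodge_iff per b b' hb ψ).1 hψ⟩)
  exfalso
  apply hB3
  have h1 := tate2_span per b b' hb hB2
  have h2 : ∀ v w, B v w = - B w v := by
    refine Submodule.span_induction (p := fun B _ => ∀ v w, B v w = - B w v) ?_ ?_ ?_ ?_ h1
    · rintro _ ⟨β, hβ, rfl⟩ v w
      rw [om_apply, om_apply, Finset.sum_comm, ← Finset.sum_neg_distrib]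
      refine Finset.sum_congr rfl fun i _ => ?_
      rw [← Finset.sum_neg_distrib]
      refine Finset.sum_congr rfl fun j _ => ?_
      rw [hanti β hβ (b j) (b i)]
      push_cast
      ring
    · intro v w
      simp
    · intro B B' _ _ h h' v w
      rw [LinearMap.add_apply, LinearMap.add_apply, LinearMap.add_apply, LinearMap.add_apply, h, h']
      ring
    · intro c B _ h v w
      rw [LinearMap.smul_apply, LinearMap.smul_apply, LinearMap.smul_apply, LinearMap.smul_apply, h]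
      simp
  refine LinearMap.ext fun v => LinearMap.ext fun w => ?_
  have h3 := h2 v w
  rw [hB1 w v] at h3
  have h4 : (2 : ℂ) * B v w = 0 := by linear_combination h3
  exact (mul_eq_zero.1 h4).resolve_left two_ne_zero

end

end Pool.Agent.Q43.HL
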