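import Mathlib
import Pool.Agent.W437.HD.Fixed

/-!
# Multilinear forms on a complex vector space with a rational basis, and Hodge decompositions
-/

set_option autoImplicit false
set_option linter.unusedSectionVars false

namespace Pool.Agent.Q43.HL

open Module Matrix

noncomputable section

variable {B κ : Type} [Fintype B] [DecidableEq B] [Fintype κ] [DecidableEq κ]

/-- Multilinear forms in variables indexed by `κ`. -/
abbrev Frm (κ B : Type) := MultilinearMap ℂ (fun _ : κ => B → ℂ) ℂ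

/-- The monomials. -/
def crd (I : κ → B) : Frm κ B :=
  (MultilinearMap.mkPiAlgebra ℂ κ ℂ).compLinearMap (fun l => LinearMap.proj (I l))

theorem crd_apply (I : κ → B) (v : κ → B → ℂ) : crd I v = ∏ l, v l (I l) := rfl

/-- The coefficients. -/
def cf (φ : Frm κ B) (I : κ → B) : ℂ := φ (fun l => Pi.single (I l) 1)

theorem cf_crd (I I' : κ → B) : cf (crd I) I' = if I = I' then 1 else 0 := by
  unfold cf
  rw [crd_apply]
  by_cases h : I = I'
  · subst h
    rw [if_pos rfl]
    exact Finset.prod_eq_one fun l _ => Pi.single_eq_same _ _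
  · rw [if_neg h]
    obtain ⟨l, hl⟩ := Function.ne_iff.1 h
    exact Finset.prod_eq_zero (Finset.mem_univ l) (Pi.single_eq_of_ne hl _)

theorem ext_cf {φ φ' : Frm κ B} (h : ∀ I, cf φ I = cf φ' I) : φ = φ' := by
  refine Basis.ext_multilinear (fun _ => Pi.basisFun ℂ B) fun I => ?_
  have h1 := h I
  unfold cf at h1
  simpa only [Pi.basisFun_apply] using h1

theorem cf_sum (c : (κ → B) → ℂ) (I : κ → B) : cf (∑ I', c I' • crd I') I = c I := by
  have h1 : cf (∑ I', c I' • crd I') I = ∑ I', c I' * cf (crd I') I := by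
    unfold cf
    rw [_root_.sum_apply]
    exact Finset.sum_congr rfl fun I' _ => rfl
  rw [h1]
  simp only [cf_crd, mul_ite, mul_one, mul_zero]
  rw [Finset.sum_ite_eq', if_pos (Finset.mem_univ _)]

theorem eq_sum (φ : Frm κ B) : φ = ∑ I, cf φ I • crd I := ext_cf fun I => (cf_sum _ I).symm

theorem apply_eq (φ : Frm κ B) (v : κ → B → ℂ) : φ v = ∑ I, cf φ I * ∏ l, v l (I l) := by
  conv_lhs => rw [eq_sum φ]
  rw [_root_.sum_apply]
  exact Finset.sum_congr rfl fun I _ => rfl

/-- The form with conjugate coefficients. -/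
def cj (σ : ℂ ≃+* ℂ) (φ : Frm κ B) : Frm κ B := ∑ I, σ (cf φ I) • crd I

theorem cf_cj (σ : ℂ ≃+* ℂ) (φ : Frm κ B) (I : κ → B) : cf (cj σ φ) I = σ (cf φ I) := cf_sum _ I

theorem cj_apply (σ : ℂ ≃+* ℂ) (φ : Frm κ B) (v : κ → B → ℂ) :
    cj σ φ (fun l i => σ (v l i)) = σ (φ v) := by
  rw [apply_eq, apply_eq φ, map_sum]
  refine Finset.sum_congr rfl fun I _ => ?_
  rw [cf_cj, map_mul, map_prod]

/-- The form is balanced for the decomposition given by the projection `P`: it vanishes on all families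
of vectors that do not contain equally many vectors of both summands. -/
def Bal (P : Matrix B B ℂ) (φ : Frm κ B) : Prop :=
  ∀ S : Finset κ, 2 * S.card ≠ Fintype.card κ → ∀ v : κ → B → ℂ,
    φ (S.piecewise (fun l => P *ᵥ v l) (fun l => (1 - P) *ᵥ v l)) = 0

theorem conj_mulVec (σ : ℂ ≃+* ℂ) (P : Matrix B B ℂ) (v : B → ℂ) :
    (fun i => σ ((P *ᵥ v) i)) = (P.map σ) *ᵥ (fun i => σ (v i)) := by
  funext i
  simp only [mulVec, dotProduct, map_sum, map_mul, Matrix.map_apply]

theorem map_one_sub (σ : ℂ ≃+* ℂ) (P : Matrix B B ℂ) : (1 - P).map σ = 1 - P.map σ := by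
  rw [Matrix.map_sub (hf := map_sub σ), Matrix.map_one σ (map_zero σ) (map_one σ)]

theorem bal_cj (σ : ℂ ≃+* ℂ) {P : Matrix B B ℂ} {φ : Frm κ B} (h : Bal P φ) :
    Bal (P.map σ) (cj σ φ) := by
  intro S hS v
  let w : κ → B → ℂ := fun l i => σ.symm (v l i)
  have hw : ∀ l, v l = fun i => σ (w l i) := fun l => funext fun i => (σ.apply_symm_apply _).symm
  have h1 := h S hS w
  have h2 : S.piecewise (fun l => (P.map σ) *ᵥ v l) (fun l => (1 - P.map σ) *ᵥ v l) =
      fun l i => σ ((S.piecewise (fun l => P *ᵥ w l) (fun l => (1 - P) *ᵥ w l)) l i) := by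
    funext l
    by_cases hl : l ∈ S
    · rw [Finset.piecewise_eq_of_mem _ _ _ hl, hw l, ← conj_mulVec,
        Finset.piecewise_eq_of_mem _ _ _ hl]
    · rw [Finset.piecewise_eq_of_notMem _ _ _ hl, hw l, ← map_one_sub, ← conj_mulVec,
        Finset.piecewise_eq_of_notMem _ _ _ hl]
  rw [h2, cj_apply, h1, map_zero]

/-- The balanced forms. -/
def balS (P : Matrix B B ℂ) : Submodule ℂ (Frm κ B) where
  carrier := {φ | Bal P φ}
  zero_mem' := fun _ _ _ => rfl
  add_mem' := by
    intro a b ha hb S hS v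
    rw [_root_.add_apply, ha S hS, hb S hS, add_zero]
  smul_mem' := by
    intro c a ha S hS v
    rw [_root_.smul_apply, ha S hS, smul_zero]

/-- The element of the circle. -/
def hz (P : Matrix B B ℂ) (z : ℂ) : Matrix B B ℂ := z • P + z⁻¹ • (1 - P)

theorem hz_mul {P : Matrix B B ℂ} (hP : P * P = P) (z w : ℂ) : hz P z * hz P w = hz P (z * w) := by
  unfold hz
  have h1 : P * (1 - P) = 0 := by rw [mul_sub, mul_one, hP, sub_self]
  have h2 : (1 - P) * P = 0 := by rw [sub_mul, one_mul, hP, sub_self]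
  have h3 : (1 - P) * (1 - P) = 1 - P := by rw [mul_sub, mul_one, h2, sub_zero]
  rw [add_mul, mul_add, mul_add, smul_mul_smul_comm, smul_mul_smul_comm, smul_mul_smul_comm,
    smul_mul_smul_comm, hP, h1, h2, h3, smul_zero, smul_zero, add_zero, zero_add, mul_inv]

theorem hz_one (P : Matrix B B ℂ) : hz P 1 = 1 := by
  unfold hz
  rw [inv_one, one_smul, one_smul]
  abel

theorem hz_pow {P : Matrix B B ℂ} (hP : P * P = P) (z : ℂ) (N : ℕ) : hz P z ^ N = hz P (z ^ N) := by
  induction N with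
  | zero => rw [pow_zero, pow_zero, hz_one]
  | succ N ih => rw [pow_succ, ih, hz_mul hP, pow_succ]

theorem hz_map (σ : ℂ ≃+* ℂ) (P : Matrix B B ℂ) (z : ℂ) : (hz P z).map σ = hz (P.map σ) (σ z) := by
  unfold hz
  ext i j
  simp only [Matrix.map_apply, Matrix.add_apply, Matrix.smul_apply, Matrix.sub_apply, smul_eq_mul,
    map_add, map_mul, map_sub, map_inv₀]
  congr 3
  by_cases h : i = j
  · subst h
    rw [Matrix.one_apply_eq, map_one]
  · rw [Matrix.one_apply_ne h, map_zero]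

theorem hz_P {P : Matrix B B ℂ} (hP : P * P = P) (z : ℂ) (v : B → ℂ) :
    hz P z *ᵥ (P *ᵥ v) = z • (P *ᵥ v) := by
  have h2 : (1 - P) * P = 0 := by rw [sub_mul, one_mul, hP, sub_self]
  unfold hz
  rw [mulVec_mulVec, add_mul, smul_mul_assoc, smul_mul_assoc, hP, h2, smul_zero, add_zero,
    smul_mulVec]

theorem hz_Q {P : Matrix B B ℂ} (hP : P * P = P) (z : ℂ) (v : B → ℂ) :
    hz P z *ᵥ ((1 - P) *ᵥ v) = z⁻¹ • ((1 - P) *ᵥ v) := by
  have h1 : P * (1 - P) = 0 := by rw [mul_sub, mul_one, hP, sub_self]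
  have h2 : (1 - P) * P = 0 := by rw [sub_mul, one_mul, hP, sub_self]
  have h3 : (1 - P) * (1 - P) = 1 - P := by rw [mul_sub, mul_one, h2, sub_zero]
  unfold hz
  rw [mulVec_mulVec, add_mul, smul_mul_assoc, smul_mul_assoc, h1, h3, smul_zero, zero_add,
    smul_mulVec]

theorem form_scale {P : Matrix B B ℂ} (hP : P * P = P) {z : ℂ} (φ : Frm κ B)
    (S : Finset κ) (v : κ → B → ℂ) :
    φ (fun l => hz P z *ᵥ
      (S.piecewise (fun l => P *ᵥ v l) (fun l => (1 - P) *ᵥ v l)) l) =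
    (z ^ S.card * z⁻¹ ^ (Fintype.card κ - S.card)) *
      φ (S.piecewise (fun l => P *ᵥ v l) (fun l => (1 - P) *ᵥ v l)) := by
  set w := S.piecewise (fun l => P *ᵥ v l) (fun l => (1 - P) *ᵥ v l) with hw
  have h1 : (fun l => hz P z *ᵥ w l) = fun l => (if l ∈ S then z else z⁻¹) • w l := by
    funext l
    by_cases hl : l ∈ S
    · rw [if_pos hl, hw, Finset.piecewise_eq_of_mem _ _ _ hl, hz_P hP]
    · rw [if_neg hl, hw, Finset.piecewise_eq_of_notMem _ _ _ hl, hz_Q hP]
  rw [h1, MultilinearMap.map_smul_univ, smul_eq_mul]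
  congr 1
  rw [Finset.prod_ite, Finset.prod_const, Finset.prod_const]
  congr 2
  · congr 1
    ext l
    simp
  · have h2 : Finset.univ.filter (fun l => l ∉ S) = Sᶜ := by
      ext l
      simp
    rw [h2, Finset.card_compl]

theorem expand {P : Matrix B B ℂ} (φ : Frm κ B) (v : κ → B → ℂ) :
    φ v = ∑ S : Finset κ, φ (S.piecewise (fun l => P *ᵥ v l) (fun l => (1 - P) *ᵥ v l)) := by
  rw [← MultilinearMap.map_add_univ]
  congr 1
  funext l
  rw [Pi.add_apply, sub_mulVec, one_mulVec]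
  abel

/-- Balanced forms are invariant. -/
theorem bal_hz {P : Matrix B B ℂ} (hP : P * P = P) {φ : Frm κ B} (h : Bal P φ) {z : ℂ}
    (hz0 : z ≠ 0) (v : κ → B → ℂ) : φ (fun l => hz P z *ᵥ v l) = φ v := by
  have h0 : (fun l => hz P z *ᵥ v l) = (fun l => z • (P *ᵥ v l)) + fun l => z⁻¹ • ((1 - P) *ᵥ v l) := by
    funext l
    rw [Pi.add_apply]
    unfold hz
    rw [add_mulVec, smul_mulVec, smul_mulVec]
  have h1 : φ (fun l => hz P z *ᵥ v l) = ∑ S : Finset κ, φ (fun l => hz P z *ᵥ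
      (S.piecewise (fun l => P *ᵥ v l) (fun l => (1 - P) *ᵥ v l)) l) := by
    rw [h0, MultilinearMap.map_add_univ]
    refine Finset.sum_congr rfl fun S _ => ?_
    congr 1
    funext l
    by_cases hl : l ∈ S
    · rw [Finset.piecewise_eq_of_mem _ _ _ hl, Finset.piecewise_eq_of_mem _ _ _ hl, hz_P hP]
    · rw [Finset.piecewise_eq_of_notMem _ _ _ hl, Finset.piecewise_eq_of_notMem _ _ _ hl, hz_Q hP]
  rw [h1, expand (P := P) φ v]
  refine Finset.sum_congr rfl fun S _ => ?_
  rw [form_scale hP]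
  by_cases hS : 2 * S.card = Fintype.card κ
  · have h2 : Fintype.card κ - S.card = S.card := by omega
    rw [h2, ← mul_pow, mul_inv_cancel₀ hz0, one_pow, one_mul]
  · rw [h S hS, mul_zero]

/-- Forms invariant under the circle are balanced. -/
theorem bal_of_circle {P : Matrix B B ℂ} (hP : P * P = P) {φ : Frm κ B}
    (h : ∀ z : ℂ, ‖z‖ = 1 → ∀ v : κ → B → ℂ, φ (fun l => hz P z *ᵥ v l) = φ v) : Bal P φ := by
  intro S hS v
  set w := S.piecewise (fun l => P *ᵥ v l) (fun l => (1 - P) *ᵥ v l) with hw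
  by_contra hne
  have hle : S.card ≤ Fintype.card κ := Finset.card_le_univ S
  have key : ∀ z : ℂ, ‖z‖ = 1 → z ^ S.card * z⁻¹ ^ (Fintype.card κ - S.card) = 1 := by
    intro z hzn
    have h1 := h z hzn w
    rw [hw, form_scale hP, ← hw] at h1
    exact mul_right_cancel₀ hne (h1.trans (one_mul _).symm)
  -- choose a root of `-1`
  obtain ⟨d, hd, hcase⟩ : ∃ d : ℕ, 0 < d ∧ ∀ z : ℂ, z ≠ 0 →
      z ^ S.card * z⁻¹ ^ (Fintype.card κ - S.card) = 1 → z ^ d = 1 := by
    rcases Nat.lt_or_gt_of_ne hS with hlt | hgt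
    · refine ⟨Fintype.card κ - 2 * S.card, by omega, fun z hz0 hz1 => ?_⟩
      have h2 : Fintype.card κ - S.card = S.card + (Fintype.card κ - 2 * S.card) := by omega
      rw [h2, pow_add, ← mul_assoc, ← mul_pow, mul_inv_cancel₀ hz0, one_pow, one_mul, inv_pow] at hz1
      exact inv_eq_one.1 hz1
    · refine ⟨2 * S.card - Fintype.card κ, by omega, fun z hz0 hz1 => ?_⟩
      have h2 : S.card = (2 * S.card - Fintype.card κ) + (Fintype.card κ - S.card) := by omega
      rw [h2] at hz1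
      have h3 : 2 * S.card - Fintype.card κ + (Fintype.card κ - S.card) - 0 = S.card := by omega
      have h4 : Fintype.card κ - (2 * S.card - Fintype.card κ + (Fintype.card κ - S.card)) =
        Fintype.card κ - S.card := by omega
      rw [h4, pow_add, mul_assoc, ← mul_pow, mul_inv_cancel₀ hz0, one_pow, mul_one] at hz1
      exact hz1
  let z : ℂ := Complex.exp ((Real.pi / d : ℝ) * Complex.I)
  have hz1 : ‖z‖ = 1 := Complex.norm_exp_ofReal_mul_I _
  have hz0 : z ≠ 0 := Complex.exp_ne_zero _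
  have h2 := hcase z hz0 (key z hz1)
  have h3 : z ^ d = -1 := by
    change Complex.exp ((Real.pi / d : ℝ) * Complex.I) ^ d = -1
    rw [← Complex.exp_nat_mul, ← Complex.exp_pi_mul_I]
    congr 1
    have hd' : (d : ℂ) ≠ 0 := Nat.cast_ne_zero.2 hd.ne'
    push_cast
    field_simp
  rw [h2] at h3
  norm_num at h3

/-- Forms invariant under the complex torus are balanced. -/
theorem bal_of_torus {P : Matrix B B ℂ} (hP : P * P = P) {φ : Frm κ B}
    (h : ∀ z : ℂ, z ≠ 0 → ∀ v : κ → B → ℂ, φ (fun l => hz P z *ᵥ v l) = φ v) : Bal P φ :=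
  bal_of_circle hP fun z hz1 => h z (by
    intro h0
    rw [h0, norm_zero] at hz1
    exact zero_ne_one hz1)

/-- The form has rational coefficients. -/
def IsRat (φ : Frm κ B) : Prop := ∃ c : (κ → B) → ℚ, ∀ I, cf φ I = c I

/-- Rational balanced forms. -/
def HT (P : Matrix B B ℂ) (φ : Frm κ B) : Prop := IsRat φ ∧ Bal P φ

theorem cj_rat (σ : ℂ ≃+* ℂ) {φ : Frm κ B} (h : IsRat φ) : cj σ φ = φ := by
  obtain ⟨c, hc⟩ := h
  refine ext_cf fun I => ?_
  rw [cf_cj, hc, map_ratCast]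

theorem HT.bal {P : Matrix B B ℂ} {φ : Frm κ B} (h : HT P φ) (σ : ℂ ≃+* ℂ) : Bal (P.map σ) φ := by
  have h1 := bal_cj σ h.2
  rwa [cj_rat σ h.1] at h1

/-- Descent. -/
theorem mem_span_HT {P : Matrix B B ℂ} {φ : Frm κ B} (h : ∀ σ : ℂ ≃+* ℂ, Bal (P.map σ) φ) :
    φ ∈ Submodule.span ℂ {φ' : Frm κ B | HT P φ'} := by
  let L : ((κ → B) → ℂ) →ₗ[ℂ] Frm κ B :=
    { toFun := fun c => ∑ I, c I • crd I
      map_add' := by
        intro a b
        rw [← Finset.sum_add_distrib]
        exact Finset.sum_congr rfl fun I _ => by rw [Pi.add_apply, add_smul]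
      map_smul' := by
        intro r a
        rw [RingHom.id_apply, Finset.smul_sum]
        exact Finset.sum_congr rfl fun I _ => by rw [Pi.smul_apply, smul_eq_mul, mul_smul] }
  have hL : ∀ c, cf (L c) = c := fun c => funext fun I => cf_sum c I
  have hL' : ∀ φ : Frm κ B, L (cf φ) = φ := fun φ => (eq_sum φ).symm
  let C : Submodule ℂ ((κ → B) → ℂ) :=
    (⨅ σ : ℂ ≃+* ℂ, balS (P.map σ)).comap L
  have hC : ∀ (τ : ℂ ≃+* ℂ), ∀ c ∈ C, (fun i => τ (c i)) ∈ C := by
    intro τ c hc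
    rw [Submodule.mem_comap, Submodule.mem_iInf] at hc ⊢
    intro σ
    have h1 := hc (σ.trans τ.symm)
    have h2 : Bal ((P.map (σ.trans τ.symm)).map τ) (cj τ (L c)) := bal_cj τ h1
    have h3 : (P.map (σ.trans τ.symm)).map τ = P.map σ := by
      ext i j
      simp
    have h4 : cj τ (L c) = L (fun i => τ (c i)) := by
      refine ext_cf fun I => ?_
      rw [cf_cj, hL, hL]
    rw [h3, h4] at h2
    exact h2
  have h1 := Pool.Agent.W437.HD.span_rational C hC
  have h2 : cf φ ∈ C := by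
    rw [Submodule.mem_comap, Submodule.mem_iInf]
    intro σ
    rw [hL']
    exact h σ
  rw [h1] at h2
  have h3 := Submodule.mem_map_of_mem (f := L) h2
  rw [hL', Submodule.map_span] at h3
  refine Submodule.span_mono ?_ h3
  rintro _ ⟨w, ⟨hw, u, hu⟩, rfl⟩
  refine ⟨⟨u, fun I => ?_⟩, ?_⟩
  · rw [hL, hu]
  · rw [Submodule.mem_comap, Submodule.mem_iInf] at hw
    have h4 := hw (RingEquiv.refl ℂ)
    have h5 : P.map (RingEquiv.refl ℂ) = P := by
      ext i j
      rfl
    rw [h5] at h4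
    exact h4

end

end Pool.Agent.Q43.HL
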