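import Pool.Agent.Q43.HL.Frm
import Pool.Agent.H204R3.GP.TateG

/-!
# The group of the similitudes of all rational balanced forms
-/

set_option autoImplicit false
set_option linter.unusedSectionVars false

namespace Pool.Agent.Q43.HL

open Module Matrix Pool.Agent.H204R3.CM Pool.Agent.H204R3.SP Pool.Agent.H204R3.GP

noncomputable section

variable {B : Type} [Fintype B] [DecidableEq B]

/-- The group of the pairs `(g, c)` such that `g` multiplies the rational balanced forms in `2 m`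
variables by `c ^ m`. -/
def GG (P : Matrix B B ℂ) : Subgroup ((Matrix B B ℂ)ˣ × ℂˣ) where
  carrier := {g | ∀ (m : ℕ) (φ : Frm (Fin m × Fin 2) B), HT P φ → ∀ v : Fin m × Fin 2 → B → ℂ,
    φ (fun l => (g.1 : Matrix B B ℂ) *ᵥ v l) = (g.2 : ℂ) ^ m * φ v}
  one_mem' := by
    intro m φ _ v
    simp
  mul_mem' := by
    intro g h hg hh m φ hφ v
    have h1 : (fun l => (((g * h).1 : (Matrix B B ℂ)ˣ) : Matrix B B ℂ) *ᵥ v l) =
        fun l => (g.1 : Matrix B B ℂ) *ᵥ ((h.1 : Matrix B B ℂ) *ᵥ v l) := by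
      funext l
      rw [mulVec_mulVec, Prod.fst_mul, Units.val_mul]
    rw [h1, hg m φ hφ, hh m φ hφ, Prod.snd_mul, Units.val_mul, mul_pow, mul_assoc]
  inv_mem' := by
    intro g hg m φ hφ v
    have h1 := hg m φ hφ (fun l => (((g⁻¹).1 : (Matrix B B ℂ)ˣ) : Matrix B B ℂ) *ᵥ v l)
    have h2 : (fun l => (g.1 : Matrix B B ℂ) *ᵥ
        ((((g⁻¹).1 : (Matrix B B ℂ)ˣ) : Matrix B B ℂ) *ᵥ v l)) = v := by
      funext l
      rw [mulVec_mulVec, Prod.fst_inv, Units.mul_inv, one_mulVec]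
    rw [h2] at h1
    rw [h1, ← mul_assoc, ← mul_pow, Prod.snd_inv, Units.inv_mul, one_pow, one_mul]

theorem GG_apply {P : Matrix B B ℂ} (g : GG P) {m : ℕ} {φ : Frm (Fin m × Fin 2) B} (hφ : HT P φ)
    (v : Fin m × Fin 2 → B → ℂ) :
    φ (fun l => (g.1.1 : Matrix B B ℂ) *ᵥ v l) = (g.1.2 : ℂ) ^ m * φ v := g.2 m φ hφ v

/-- The representation. -/
def rho (P : Matrix B B ℂ) : Representation ℂ (GG P) (B → ℂ) where
  toFun g := (g.1.1 : Matrix B B ℂ).mulVecLin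
  map_one' := by
    refine LinearMap.ext fun v => ?_
    exact one_mulVec v
  map_mul' g h := by
    refine LinearMap.ext fun v => ?_
    rw [Module.End.mul_apply, mulVecLin_apply, mulVecLin_apply, mulVecLin_apply, mulVec_mulVec]
    rfl

theorem rho_apply {P : Matrix B B ℂ} (g : GG P) (v : B → ℂ) :
    rho P g v = (g.1.1 : Matrix B B ℂ) *ᵥ v := rfl

/-- The multiplier. -/
def chi (P : Matrix B B ℂ) : GG P →* ℂ where
  toFun g := (g.1.2 : ℂ)
  map_one' := rfl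
  map_mul' _ _ := rfl

theorem chi_apply {P : Matrix B B ℂ} (g : GG P) : chi P g = (g.1.2 : ℂ) := rfl

variable {P : Matrix B B ℂ}

/-- The elements of the torus of another structure. -/
def tor {P' : Matrix B B ℂ} (hP' : P' * P' = P')
    (hsp : ∀ (m : ℕ) (φ : Frm (Fin m × Fin 2) B), HT P φ → Bal P' φ) (z : ℂˣ) : GG P :=
  ⟨⟨⟨hz P' z, hz P' ((z⁻¹ : ℂˣ) : ℂ), by rw [hz_mul hP', Units.mul_inv, hz_one],
    by rw [hz_mul hP', Units.inv_mul, hz_one]⟩, 1⟩, by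
    intro m φ hφ v
    rw [Units.val_one, one_pow, one_mul]
    exact bal_hz hP' (hsp m φ hφ) z.ne_zero v⟩

theorem rho_tor {P' : Matrix B B ℂ} (hP' : P' * P' = P')
    (hsp : ∀ (m : ℕ) (φ : Frm (Fin m × Fin 2) B), HT P φ → Bal P' φ) (z : ℂˣ) (v : B → ℂ) :
    rho P (tor hP' hsp z) v = hz P' z *ᵥ v := rfl

theorem chi_tor {P' : Matrix B B ℂ} (hP' : P' * P' = P')
    (hsp : ∀ (m : ℕ) (φ : Frm (Fin m × Fin 2) B), HT P φ → Bal P' φ) (z : ℂˣ) :
    chi P (tor hP' hsp z) = 1 := rfl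

theorem tor_pow {P' : Matrix B B ℂ} (hP' : P' * P' = P')
    (hsp : ∀ (m : ℕ) (φ : Frm (Fin m × Fin 2) B), HT P φ → Bal P' φ) (z : ℂˣ) (N : ℕ) :
    tor hP' hsp z ^ N = tor hP' hsp (z ^ N) := by
  apply Subtype.ext
  rw [SubmonoidClass.coe_pow]
  refine Prod.ext (Units.ext ?_) ?_
  · rw [Prod.pow_fst, Units.val_pow_eq_pow_val]
    change hz P' z ^ N = hz P' ((z ^ N : ℂˣ) : ℂ)
    rw [hz_pow hP', Units.val_pow_eq_pow_val]
  · rw [Prod.pow_snd]
    change (1 : ℂˣ) ^ N = 1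
    exact one_pow N

/-- Subgroups of finite index contain the tori. -/
theorem tor_mem {P' : Matrix B B ℂ} (hP' : P' * P' = P')
    (hsp : ∀ (m : ℕ) (φ : Frm (Fin m × Fin 2) B), HT P φ → Bal P' φ) (Δ : Subgroup (GG P))
    (hΔ : Δ.FiniteIndex) (z : ℂ) (hz0 : z ≠ 0) : tor hP' hsp (Units.mk0 z hz0) ∈ Δ := by
  have hN : 0 < Δ.index.factorial := Nat.factorial_pos _
  obtain ⟨w, hw⟩ := IsAlgClosed.exists_pow_nat_eq z hN
  have hw0 : w ≠ 0 := by
    rintro rfl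
    rw [zero_pow hN.ne'] at hw
    exact hz0 hw.symm
  have h1 : tor hP' hsp (Units.mk0 z hz0) = tor hP' hsp (Units.mk0 w hw0) ^ Δ.index.factorial := by
    rw [tor_pow]
    congr 1
    apply Units.ext
    rw [Units.val_pow_eq_pow_val, Units.val_mk0, Units.val_mk0, hw]
  rw [h1]
  exact Subgroup.pow_mem_of_index_ne_zero_of_dvd hΔ.index_ne_zero _
    (fun m hm0 hm => Nat.dvd_factorial hm0 hm)

theorem conj_idem (hP : P * P = P) (σ : ℂ ≃+* ℂ) : P.map σ * P.map σ = P.map σ := by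
  rw [← Matrix.map_mul, hP]

theorem HT.balσ (σ : ℂ ≃+* ℂ) : ∀ (m : ℕ) (φ : Frm (Fin m × Fin 2) B), HT P φ → Bal (P.map σ) φ :=
  fun _ _ h => h.bal σ

/-- Tate forms are balanced for all conjugates. -/
theorem tate_bal (hP : P * P = P) {m : ℕ} {φ : Frm (Fin m × Fin 2) B}
    (hφ : IsTate (rho P) (chi P) m φ) (σ : ℂ ≃+* ℂ) : Bal (P.map σ) φ := by
  obtain ⟨Δ, hΔ, h⟩ := hφ
  refine bal_of_torus (conj_idem hP σ) fun z hz0 v => ?_
  have h1 := h _ (tor_mem (conj_idem hP σ) (HT.balσ σ) Δ hΔ z hz0) v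
  rw [chi_tor, one_pow, one_mul] at h1
  exact h1

theorem tate_span (hP : P * P = P) {m : ℕ} {φ : Frm (Fin m × Fin 2) B}
    (hφ : IsTate (rho P) (chi P) m φ) : φ ∈ Submodule.span ℂ {φ' : Frm (Fin m × Fin 2) B | HT P φ'} :=
  mem_span_HT (tate_bal hP hφ)

theorem span_all {m : ℕ} {φ : Frm (Fin m × Fin 2) B}
    (hφ : φ ∈ Submodule.span ℂ {φ' : Frm (Fin m × Fin 2) B | HT P φ'}) (g : GG P)
    (v : Fin m × Fin 2 → B → ℂ) :
    φ (fun l => rho P g (v l)) = chi P g ^ m * φ v := by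
  induction hφ using Submodule.span_induction with
  | mem φ h => exact GG_apply g h v
  | zero => exact (mul_zero _).symm
  | add a b _ _ ha hb => rw [_root_.add_apply, _root_.add_apply, ha, hb, mul_add]
  | smul c a _ ha =>
    rw [_root_.smul_apply, _root_.smul_apply, ha, smul_eq_mul, smul_eq_mul, mul_left_comm]

theorem tate_all (hP : P * P = P) {m : ℕ} {φ : Frm (Fin m × Fin 2) B}
    (hφ : IsTate (rho P) (chi P) m φ) (g : GG P) (v : Fin m × Fin 2 → B → ℂ) :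
    φ (fun l => rho P g (v l)) = chi P g ^ m * φ v := span_all (tate_span hP hφ) g v

theorem tate_of_HT {m : ℕ} {φ : Frm (Fin m × Fin 2) B} (hφ : HT P φ) :
    IsTate (rho P) (chi P) m φ :=
  ⟨⊤, inferInstance, fun s _ v => GG_apply s hφ v⟩

/-- The homotheties. -/
def hom (P : Matrix B B ℂ) (c : ℂˣ) : GG P :=
  ⟨⟨⟨(c : ℂ) • 1, ((c⁻¹ : ℂˣ) : ℂ) • 1, by
    rw [smul_mul_smul_comm, Units.mul_inv, one_mul, one_smul],
    by rw [smul_mul_smul_comm, Units.inv_mul, one_mul, one_smul]⟩, c ^ 2⟩, by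
    intro m φ hφ v
    have h1 : (fun l => ((c : ℂ) • (1 : Matrix B B ℂ)) *ᵥ v l) = fun l => (c : ℂ) • v l := by
      funext l
      rw [smul_mulVec, one_mulVec]
    change φ (fun l => ((c : ℂ) • (1 : Matrix B B ℂ)) *ᵥ v l) = _
    rw [h1, MultilinearMap.map_smul_univ, Finset.prod_const, Finset.card_univ, Fintype.card_prod,
      Fintype.card_fin, Fintype.card_fin, Units.val_pow_eq_pow_val, smul_eq_mul, ← pow_mul,
      mul_comm m 2]⟩

theorem rho_hom (c : ℂˣ) (v : B → ℂ) : rho P (hom P c) v = (c : ℂ) • v := by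
  change ((c : ℂ) • (1 : Matrix B B ℂ)) *ᵥ v = _
  rw [smul_mulVec, one_mulVec]

theorem chi_hom (c : ℂˣ) : chi P (hom P c) = (c : ℂ) ^ 2 := by
  rw [chi_apply]
  change ((c ^ 2 : ℂˣ) : ℂ) = _
  rw [Units.val_pow_eq_pow_val]

/-- Bilinear forms as forms in the two variables indexed by `Fin 1 × Fin 2`. -/
def bf (β : (B → ℂ) →ₗ[ℂ] (B → ℂ) →ₗ[ℂ] ℂ) : Frm (Fin 1 × Fin 2) B :=
  prodMap (fun _ : Fin 1 => bil2 β)

theorem bf_apply (β : (B → ℂ) →ₗ[ℂ] (B → ℂ) →ₗ[ℂ] ℂ) (v : Fin 1 × Fin 2 → B → ℂ) :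
    bf β v = β (v (0, 0)) (v (0, 1)) := by
  unfold bf
  rw [prodMap_apply, Fin.prod_univ_one, bil2_apply]

/-- Bilinear Tate forms. -/
theorem tate2_iff {β : (B → ℂ) →ₗ[ℂ] (B → ℂ) →ₗ[ℂ] ℂ} :
    IsTate2 (rho P) (chi P) β ↔ IsTate (rho P) (chi P) 1 (bf β) := by
  constructor
  · rintro ⟨Δ, hΔ, h⟩
    refine ⟨Δ, hΔ, fun s hs v => ?_⟩
    rw [bf_apply, bf_apply, pow_one]
    exact h s hs _ _
  · rintro ⟨Δ, hΔ, h⟩
    refine ⟨Δ, hΔ, fun s hs u v => ?_⟩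
    have h1 := h s hs (fun k => if k.2 = 0 then u else v)
    rw [bf_apply, bf_apply, pow_one] at h1
    simpa using h1

theorem tate2_all (hP : P * P = P) {β : (B → ℂ) →ₗ[ℂ] (B → ℂ) →ₗ[ℂ] ℂ}
    (hβ : IsTate2 (rho P) (chi P) β) (g : GG P) (u v : B → ℂ) :
    β (rho P g u) (rho P g v) = chi P g * β u v := by
  have h1 := tate_all hP (tate2_iff.1 hβ) g (fun k => if k.2 = 0 then u else v)
  rw [bf_apply, bf_apply, pow_one] at h1
  simpa using h1

theorem tate2_of_torus (hP : P * P = P) {β : (B → ℂ) →ₗ[ℂ] (B → ℂ) →ₗ[ℂ] ℂ}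
    (h : ∀ (σ : ℂ ≃+* ℂ) (z : ℂ), z ≠ 0 → ∀ u v,
      β (hz (P.map σ) z *ᵥ u) (hz (P.map σ) z *ᵥ v) = β u v) :
    IsTate2 (rho P) (chi P) β := by
  rw [tate2_iff]
  refine ⟨⊤, inferInstance, fun s _ v => span_all (mem_span_HT fun σ => ?_) s v⟩
  refine bal_of_torus (conj_idem hP σ) fun z hz0 v => ?_
  rw [bf_apply, bf_apply]
  exact h σ z hz0 _ _

end

end Pool.Agent.Q43.HL
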