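import Pool.Agent.Q43.HL.Cm2
import Pool.Agent.Q43.RP.Lowl

/-!
# Hodge classes of low codimension
-/

set_option autoImplicit false
set_option linter.unusedSectionVars false

namespace Pool.Agent.Q43.HL

open Module Matrix NumberField Pool.Agent.H204R3.CM Pool.Agent.H204R3.SP Pool.Agent.H204R3.GP
  Pool.Agent.W516.MTD Pool.Agent.TH170.LV

noncomputable section

variable {n : ℕ} {H T : Type} [AddCommGroup H] [Module ℚ H] [AddCommGroup T] [Module ℂ T]
  (per : H →+ T) (b : Basis (Fin n) ℚ H) (b' : Basis (Fin n) ℝ T) (hb : ∀ i, b' i = per (b i))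
  {ω₀ : H →ₗ[ℚ] H →ₗ[ℚ] ℚ} (hR : IsRiemannForm per ω₀)
  {ι : Type} [Fintype ι] {E : ι → Type} [∀ i, Field (E i)] [∀ i, NumberField (E i)]
  [∀ i, IsCMField (E i)]
  (u : H ≃ₗ[ℚ] (∀ i, E i)) (Φ : ∀ i, Set (E i →+* ℂ)) (hΦ : ∀ i, IsCMType (Φ i))
  (hsp : ∀ (m : ℕ) (ψ : MultilinearMap ℚ (fun _ : Fin m × Fin 2 => H) ℚ),
    IsHodgeTensor per ψ → IsHodgeTensor (perS u Φ) ψ)

section weights

include hb hsp hΦ

theorem HT_bal {m : ℕ} {φ : Frm (Fin m × Fin 2) (Fin n)} (hφ : HT (pj b') φ) (σ : ℂ ≃+* ℂ) :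
    Bal ((pS b u Φ hΦ).map σ) φ := by
  obtain ⟨ψ, rfl⟩ := exists_ex b hφ.1
  have h1 := hsp m ψ ((hodge_iff per b b' hb ψ).2 hφ.2)
  have h2 := (hodge_iff (perS u Φ) b (bS b u Φ hΦ) (bS_apply b u Φ hΦ) ψ).1 h1
  exact HT.bal ⟨hφ.1, h2⟩ σ

theorem tate_balS {m : ℕ} {φ : Frm (Fin m × Fin 2) (Fin n)}
    (hφ : IsTate (rho (pj b')) (chi (pj b')) m φ) (σ : ℂ ≃+* ℂ) :
    Bal ((pS b u Φ hΦ).map σ) φ := by
  have h1 := tate_span (pj_idem b') hφ
  have h2 : Submodule.span ℂ {φ' : Frm (Fin m × Fin 2) (Fin n) | HT (pj b') φ'} ≤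
      balS ((pS b u Φ hΦ).map σ) := by
    rw [Submodule.span_le]
    intro φ' hφ'
    exact HT_bal per b b' hb u Φ hΦ hsp hφ' σ
  exact h2 h1

variable {k : ℕ} (hlf : LevelFree Φ k 0)
include hlf

open Classical in
theorem tate_counts {m : ℕ} (hm : 2 * m ≤ k) {φ : Frm (Fin m × Fin 2) (Fin n)}
    (hφ : IsTate (rho (pj b')) (chi (pj b')) m φ) (I : Fin m × Fin 2 → Σ i, (E i →+* ℂ))
    (hI : φ (fun l => eb b u (I l)) ≠ 0) (y : Σ i, (E i →+* ℂ)) :
    (Finset.univ.filter (fun l => I l = y)).card =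
      (Finset.univ.filter (fun l => I l = bar y)).card := by
  refine word_balanced hΦ hlf ?_ I (fun τ => ?_) y
  · rw [Fintype.card_prod, Fintype.card_fin, Fintype.card_fin, mul_comm]
    exact hm
  · exact weight_sum b u Φ hΦ (tate_balS per b b' hb u Φ hΦ hsp hφ τ.symm) hI

/-- Bilinear Tate forms pair conjugate eigenvectors. -/
theorem tate2_pair (hk : 2 ≤ k) {β : (Fin n → ℂ) →ₗ[ℂ] (Fin n → ℂ) →ₗ[ℂ] ℂ}
    (hβ : IsTate2 (rho (pj b')) (chi (pj b')) β) {x y : Σ i, (E i →+* ℂ)}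
    (h : β (eb b u x) (eb b u y) ≠ 0) : y = bar x := by
  classical
  have h1 := tate_counts per b b' hb u Φ hΦ hsp hlf (m := 1) (by omega) (tate2_iff.1 hβ) (pr x y)
    (by
      rw [pr_map (eb b u)]
      have h2 : (fun k : Fin 1 × Fin 2 => if k.2 = 0 then eb b u x else eb b u y) =
        pr (eb b u x) (eb b u y) := rfl
      rw [h2, bf_pr]
      exact h) x
  have h2 : 0 < (Finset.univ.filter (fun l => pr x y l = x)).card :=
    Finset.card_pos.2 ⟨(0, 0), Finset.mem_filter.2 ⟨Finset.mem_univ _, by simp [pr]⟩⟩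
  rw [h1] at h2
  obtain ⟨l, hl⟩ := Finset.card_pos.1 h2
  rw [Finset.mem_filter] at hl
  obtain ⟨i, j⟩ := l
  fin_cases i
  fin_cases j
  · exfalso
    have h3 : x = bar x := by simpa [pr] using hl.2
    exact bar_ne x h3.symm
  · simpa [pr] using hl.2

end weights

section low

variable {k : ℕ} (hlf : LevelFree Φ k 0) (hk : 2 ≤ k)
include hb hR hΦ hsp hlf hk

open Classical in
theorem om_pair (x y : Σ i, (E i →+* ℂ)) :
    om b ω₀ (eb b u x) (eb b u y) =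
      JJ bar (fun x => om b ω₀ (eb b u x) (eb b u (bar x))) x y := by
  unfold JJ
  split_ifs with h
  · rw [h]
  · by_contra h0
    exact h (tate2_pair per b b' hb u Φ hΦ hsp hlf hk (isPol_of per b b' hb hR).tate2 h0)

theorem jj_ne (x : Σ i, (E i →+* ℂ)) : om b ω₀ (eb b u x) (eb b u (bar x)) ≠ 0 := by
  classical
  intro h0
  apply (eb b u).ne_zero x
  apply (isPol_of per b b' hb hR).nondeg
  intro v
  rw [← (eb b u).sum_repr v, map_sum]
  refine Finset.sum_eq_zero fun y _ => ?_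
  rw [map_smul, om_pair per b b' hb hR u Φ hΦ hsp hlf hk]
  unfold JJ
  split_ifs with h
  · simp only [h0, smul_zero]
  · rw [smul_zero]

theorem jj_anti (x : Σ i, (E i →+* ℂ)) :
    om b ω₀ (eb b u (bar x)) (eb b u (bar (bar x))) = - om b ω₀ (eb b u x) (eb b u (bar x)) := by
  rw [bar_bar]
  exact (isPol_of per b b' hb hR).anti _ _

/-- Hodge tensors in few variables are generated in degree two. -/
theorem tensor_low {M : ℕ} (hM : 1 ≤ M) (hMk : 2 * M ≤ k) {m : ℕ} (hm : m ≤ M)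
    (ψ : MultilinearMap ℚ (fun _ : Fin m × Fin 2 => H) ℚ) (hψ : IsHodgeTensor per ψ) :
    ψ ∈ Submodule.span ℚ {ψ : MultilinearMap ℚ (fun _ : Fin m × Fin 2 => H) ℚ |
      IsProductOfHodgeBilinear per ψ} := by
  classical
  have hpol := isPol_of per b b' hb hR
  apply product_of_span per b b' hb
  exact Pool.Agent.Q43.RP.tateG_low (eb b u) (inv := bar)
    (jj := fun x => om b ω₀ (eb b u x) (eb b u (bar x))) bar_bar bar_ne
    (jj_anti per b b' hb hR u Φ hΦ hsp hlf hk) (jj_ne per b b' hb hR u Φ hΦ hsp hlf hk)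
    (om b ω₀) (om_pair per b b' hb hR u Φ hΦ hsp hlf hk) (rho (pj b')) (chi (pj b')) hM
    hpol.sim hpol.hasProj
    (fun m φ hm hφ I hI y => tate_counts per b b' hb u Φ hΦ hsp hlf (by omega) hφ I hI y) hm
    (ex b ψ) (tate_of_HT ⟨ex_rat b ψ, (hodge_iff per b b' hb ψ).1 hψ⟩)

end low

end

end Pool.Agent.Q43.HL
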