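import Pool.Agent.Q43.HL.Pol
import Pool.Agent.H204R3.GP.MTDefs

/-!
# The Hodge decomposition of a complex torus in rational coordinates
-/

set_option autoImplicit false
set_option linter.unusedSectionVars false

namespace Pool.Agent.Q43.HL

open Module Matrix Pool.Agent.H204R3.CM Pool.Agent.H204R3.SP Pool.Agent.H204R3.GP

noncomputable section

variable {n : ℕ} {H T : Type} [AddCommGroup H] [Module ℚ H] [AddCommGroup T] [Module ℂ T]
  (per : H →+ T) (b : Basis (Fin n) ℚ H) (b' : Basis (Fin n) ℝ T)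

/-- The matrix of the multiplication by `z`. -/
def mz (z : ℂ) : Matrix (Fin n) (Fin n) ℝ := Matrix.of fun i j => b'.repr (z • b' j) i

theorem mz_apply (z : ℂ) (i j : Fin n) : mz b' z i j = b'.repr (z • b' j) i := rfl

theorem mz_repr (z : ℂ) (u : T) (i : Fin n) :
    b'.repr (z • u) i = ∑ j, mz b' z i j * b'.repr u j := by
  have h1 : z • u = ∑ j, b'.repr u j • (z • b' j) := by
    conv_lhs => rw [← b'.sum_repr u, Finset.smul_sum]
    exact Finset.sum_congr rfl fun j _ => smul_comm _ _ _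
  rw [h1, map_sum, Finset.sum_apply']
  refine Finset.sum_congr rfl fun j _ => ?_
  rw [map_smul, Finsupp.smul_apply, smul_eq_mul, mz_apply, mul_comm]

theorem mz_mul (z w : ℂ) : mz b' z * mz b' w = mz b' (z * w) := by
  ext i j
  rw [Matrix.mul_apply, mz_apply, mul_smul, mz_repr]
  rfl

theorem mz_real (x : ℝ) : mz b' (x : ℂ) = x • 1 := by
  ext i j
  rw [mz_apply]
  have h1 : (x : ℂ) • b' j = x • b' j := Complex.coe_smul x (b' j)
  rw [h1, map_smul, Finsupp.smul_apply, Basis.repr_self, smul_eq_mul, Matrix.smul_apply,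
    smul_eq_mul]
  congr 1
  by_cases h : i = j
  · subst h
    rw [Finsupp.single_eq_same, Matrix.one_apply_eq]
  · rw [Finsupp.single_eq_of_ne h, Matrix.one_apply_ne h]

theorem mz_add (z w : ℂ) : mz b' (z + w) = mz b' z + mz b' w := by
  ext i j
  rw [Matrix.add_apply, mz_apply, mz_apply, mz_apply, add_smul, map_add, Finsupp.add_apply]

/-- The Hodge projection. -/
def pj : Matrix (Fin n) (Fin n) ℂ :=
  (1 / 2 : ℂ) • (1 - Complex.I • (mz b' Complex.I).map (algebraMap ℝ ℂ))

theorem J_sq : (mz b' Complex.I).map (algebraMap ℝ ℂ) * (mz b' Complex.I).map (algebraMap ℝ ℂ) =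
    -1 := by
  rw [← Matrix.map_mul, mz_mul, Complex.I_mul_I]
  have h1 : (-1 : ℂ) = ((-1 : ℝ) : ℂ) := by push_cast; rfl
  rw [h1, mz_real]
  ext i j
  by_cases h : i = j
  · subst h
    simp
  · simp [Matrix.one_apply_ne h]

theorem pj_idem : pj b' * pj b' = pj b' := by
  unfold pj
  set J := (mz b' Complex.I).map (algebraMap ℝ ℂ) with hJ
  have hJJ : J * J = -1 := J_sq b'
  rw [smul_mul_smul_comm, sub_mul, mul_sub, mul_sub, one_mul, one_mul, mul_one,
    smul_mul_smul_comm, hJJ, Complex.I_mul_I]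
  have h1 : (1 : Matrix (Fin n) (Fin n) ℂ) - Complex.I • J - (Complex.I • J - (-1 : ℂ) • -1) =
      (2 : ℂ) • (1 - Complex.I • J) := by
    rw [neg_smul, one_smul, neg_neg, two_smul]
    abel
  rw [h1, smul_smul]
  norm_num

theorem pj_conj : (pj b').map cc = 1 - pj b' := by
  unfold pj
  ext i j
  simp only [Matrix.map_apply, Matrix.smul_apply, Matrix.sub_apply, smul_eq_mul, map_mul, map_sub,
    cc_apply, Complex.conj_I]
  have h1 : (starRingEnd ℂ) (1 / 2 : ℂ) = 1 / 2 := by
    rw [map_div₀, map_one, map_ofNat]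
  have h2 : (starRingEnd ℂ) ((algebraMap ℝ ℂ) (mz b' Complex.I i j)) =
      (algebraMap ℝ ℂ) (mz b' Complex.I i j) := Complex.conj_ofReal _
  have h3 : (starRingEnd ℂ) ((1 : Matrix (Fin n) (Fin n) ℂ) i j) =
      (1 : Matrix (Fin n) (Fin n) ℂ) i j := by
    by_cases h : i = j
    · subst h
      rw [Matrix.one_apply_eq, map_one]
    · rw [Matrix.one_apply_ne h, map_zero]
  rw [h1, h2, h3]
  ring

/-- The elements of the circle are the matrices of the multiplications. -/
theorem hz_pj {z : ℂ} (hz1 : ‖z‖ = 1) : hz (pj b') z = (mz b' z).map (algebraMap ℝ ℂ) := by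
  have hz : z⁻¹ = starRingEnd ℂ z := Complex.inv_eq_conj hz1
  have h1 : mz b' z = z.re • 1 + z.im • mz b' Complex.I := by
    have e1 : z = (z.re : ℂ) + (z.im : ℂ) * Complex.I := (Complex.re_add_im z).symm
    conv_lhs => rw [e1, mz_add, mz_real, ← mz_mul, mz_real, smul_mul_assoc, one_mul]
  rw [h1]
  unfold HL.hz pj
  rw [hz]
  ext i j
  simp only [Matrix.map_apply, Matrix.smul_apply, Matrix.sub_apply, Matrix.add_apply, smul_eq_mul]
  have h2 : (algebraMap ℝ ℂ) (z.re * (1 : Matrix (Fin n) (Fin n) ℝ) i j + z.im * mz b' Complex.I i j)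
      = (z.re : ℂ) * (1 : Matrix (Fin n) (Fin n) ℂ) i j +
        (z.im : ℂ) * (algebraMap ℝ ℂ) (mz b' Complex.I i j) := by
    rw [map_add, map_mul, map_mul]
    congr 2
    by_cases h : i = j
    · subst h
      rw [Matrix.one_apply_eq, Matrix.one_apply_eq, map_one]
    · rw [Matrix.one_apply_ne h, Matrix.one_apply_ne h, map_zero]
  rw [h2]
  set m := (algebraMap ℝ ℂ) (mz b' Complex.I i j)
  set o := (1 : Matrix (Fin n) (Fin n) ℂ) i j
  have h3 : (starRingEnd ℂ) z = (z.re : ℂ) - (z.im : ℂ) * Complex.I := by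
    apply Complex.ext <;> simp
  have h4 : z = (z.re : ℂ) + (z.im : ℂ) * Complex.I := (Complex.re_add_im z).symm
  rw [h3]
  conv_lhs => rw [h4]
  have hI := Complex.I_mul_I
  simp only [Complex.add_re, Complex.ofReal_re, Complex.mul_re, Complex.I_re, mul_zero,
    Complex.ofReal_im, Complex.I_im, mul_one, sub_self, add_zero, Complex.add_im, Complex.mul_im,
    zero_add]
  linear_combination (-(z.im : ℂ) * m) * hI

/-- The form with the coefficients of a rational form. -/
def ex {κ : Type} [Fintype κ] [DecidableEq κ] (ψ : MultilinearMap ℚ (fun _ : κ => H) ℚ) :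
    Frm κ (Fin n) :=
  ∑ I, ((ψ (fun l => b (I l)) : ℚ) : ℂ) • crd I

theorem cf_ex {κ : Type} [Fintype κ] [DecidableEq κ] (ψ : MultilinearMap ℚ (fun _ : κ => H) ℚ)
    (I : κ → Fin n) : cf (ex b ψ) I = ((ψ (fun l => b (I l)) : ℚ) : ℂ) := cf_sum _ _

theorem ex_rat {κ : Type} [Fintype κ] [DecidableEq κ] (ψ : MultilinearMap ℚ (fun _ : κ => H) ℚ) :
    IsRat (ex b ψ) := ⟨fun I => ψ (fun l => b (I l)), fun I => cf_ex b ψ I⟩

/-- The coordinates of a rational vector. -/
def cpr (h : H) : Fin n → ℂ := fun i => ((b.repr h i : ℚ) : ℂ)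

theorem cpr_basis (i : Fin n) : cpr b (b i) = Pi.single i 1 := by
  funext j
  unfold cpr
  rw [Basis.repr_self]
  by_cases h : j = i
  · subst h
    rw [Finsupp.single_eq_same, Pi.single_eq_same, Rat.cast_one]
  · rw [Finsupp.single_eq_of_ne h, Pi.single_eq_of_ne h, Rat.cast_zero]

theorem ex_apply {κ : Type} [Fintype κ] [DecidableEq κ] (ψ : MultilinearMap ℚ (fun _ : κ => H) ℚ)
    (v : κ → H) : ex b ψ (fun l => cpr b (v l)) = ((ψ v : ℚ) : ℂ) := by
  have h1 : v = fun l => ∑ i, b.repr (v l) i • b i := funext fun l => (b.sum_repr (v l)).symm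
  conv_rhs => rw [h1, MultilinearMap.map_sum]
  rw [apply_eq, Rat.cast_sum]
  refine Finset.sum_congr rfl fun I _ => ?_
  rw [MultilinearMap.map_smul_univ, smul_eq_mul, Rat.cast_mul, Rat.cast_prod, cf_ex, mul_comm]
  rfl

/-- Every rational form comes from a rational form on the homology. -/
theorem exists_ex {κ : Type} [Fintype κ] [DecidableEq κ] {φ : Frm κ (Fin n)} (hφ : IsRat φ) :
    ∃ ψ : MultilinearMap ℚ (fun _ : κ => H) ℚ, ex b ψ = φ := by
  obtain ⟨c, hc⟩ := hφ
  let ψ : MultilinearMap ℚ (fun _ : κ => H) ℚ := ∑ I : κ → Fin n,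
    c I • (MultilinearMap.mkPiAlgebra ℚ κ ℚ).compLinearMap (fun l => b.coord (I l))
  refine ⟨ψ, ext_cf fun I => ?_⟩
  rw [cf_ex, hc]
  congr 1
  change (∑ I' : κ → Fin n, c I' •
    (MultilinearMap.mkPiAlgebra ℚ κ ℚ).compLinearMap (fun l => b.coord (I' l)))
      (fun l => b (I l)) = c I
  rw [_root_.sum_apply, Finset.sum_eq_single I]
  · change c I • ∏ l, b.coord (I l) (b (I l)) = c I
    rw [Finset.prod_eq_one, smul_eq_mul, mul_one]
    intro l _
    rw [Basis.coord_apply, Basis.repr_self, Finsupp.single_eq_same]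
  · intro I' _ hI'
    change c I' • ∏ l, b.coord (I' l) (b (I l)) = 0
    obtain ⟨l, hl⟩ := Function.ne_iff.1 hI'
    rw [Finset.prod_eq_zero (Finset.mem_univ l), smul_zero]
    rw [Basis.coord_apply, Basis.repr_self, Finsupp.single_eq_of_ne hl]
  · intro hI
    exact absurd (Finset.mem_univ I) hI

theorem ex_inj {κ : Type} [Fintype κ] [DecidableEq κ] {ψ ψ' : MultilinearMap ℚ (fun _ : κ => H) ℚ}
    (h : ex b ψ = ex b ψ') : ψ = ψ' := by
  refine Basis.ext_multilinear (fun _ => b) fun I => ?_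
  have h1 := congrArg (fun φ => cf φ I) h
  simp only [cf_ex] at h1
  exact_mod_cast h1

variable (hb : ∀ i, b' i = per (b i))
include hb

/-- Hodge classes are the balanced forms. -/
theorem hodge_iff {κ : Type} [Fintype κ] [DecidableEq κ]
    (ψ : MultilinearMap ℚ (fun _ : κ => H) ℚ) :
    IsHodgeTensor per ψ ↔ Bal (pj b') (ex b ψ) := by
  constructor
  · rintro ⟨Ψ, h1, h2⟩
    refine bal_of_circle (pj_idem b') fun z hz1 v => ?_
    let F : Frm κ (Fin n) := (ex b ψ).compLinearMap (fun _ => (hz (pj b') z).mulVecLin)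
    have hF : F = ex b ψ := by
      refine ext_cf fun I => ?_
      rw [cf_ex]
      change ex b ψ (fun l => hz (pj b') z *ᵥ Pi.single (I l) 1) = _
      rw [apply_eq]
      have e1 : ∀ l, hz (pj b') z *ᵥ Pi.single (I l) 1 = fun i => ((mz b' z i (I l) : ℝ) : ℂ) := by
        intro l
        rw [hz_pj b' hz1]
        funext i
        rw [mulVec_single_one]
        rfl
      have e2 : Ψ (fun l => z • b' (I l)) = ((ψ (fun l => b (I l)) : ℚ) : ℝ) := by
        rw [h2 z hz1, ← h1]
        exact congrArg Ψ (funext fun l => hb (I l))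
      have e3 : Ψ (fun l => z • b' (I l)) =
          ∑ I' : κ → Fin n, (∏ l, mz b' z (I' l) (I l)) * ((ψ (fun l => b (I' l)) : ℚ) : ℝ) := by
        have e4 : (fun l => z • b' (I l)) = fun l => ∑ i, mz b' z i (I l) • b' i := by
          funext l
          exact (b'.sum_repr (z • b' (I l))).symm
        rw [e4, MultilinearMap.map_sum]
        refine Finset.sum_congr rfl fun I' _ => ?_
        rw [MultilinearMap.map_smul_univ, smul_eq_mul, ← h1]
        congr 1
        exact congrArg Ψ (funext fun l => hb (I' l))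
      rw [e2] at e3
      have e5 := congrArg (fun x : ℝ => (x : ℂ)) e3
      simp only [Complex.ofReal_sum, Complex.ofReal_mul, Complex.ofReal_prod,
        Complex.ofReal_ratCast] at e5
      rw [e5]
      refine Finset.sum_congr rfl fun I' _ => ?_
      rw [cf_ex, mul_comm]
      congr 1
      refine Finset.prod_congr rfl fun l _ => ?_
      rw [e1 l]
    exact congrArg (fun f : Frm κ (Fin n) => f v) hF
  · intro h
    let Ψ : MultilinearMap ℝ (fun _ : κ => T) ℝ := ∑ I : κ → Fin n,
      ((ψ (fun l => b (I l)) : ℚ) : ℝ) •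
        (MultilinearMap.mkPiAlgebra ℝ κ ℝ).compLinearMap (fun l => b'.coord (I l))
    have hΨ : ∀ u : κ → T, Ψ u = ∑ I : κ → Fin n, ((ψ (fun l => b (I l)) : ℚ) : ℝ) *
        ∏ l, b'.repr (u l) (I l) := by
      intro u
      change (∑ I : κ → Fin n, ((ψ (fun l => b (I l)) : ℚ) : ℝ) •
        (MultilinearMap.mkPiAlgebra ℝ κ ℝ).compLinearMap (fun l => b'.coord (I l))) u = _
      rw [_root_.sum_apply]
      rfl
    have hΨ' : ∀ u : κ → T, ((Ψ u : ℝ) : ℂ) = ex b ψ (fun l i => ((b'.repr (u l) i : ℝ) : ℂ)) := by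
      intro u
      rw [hΨ, apply_eq, Complex.ofReal_sum]
      refine Finset.sum_congr rfl fun I _ => ?_
      rw [Complex.ofReal_mul, Complex.ofReal_prod, Complex.ofReal_ratCast, cf_ex]
    refine ⟨Ψ, fun v => ?_, fun z hz1 u => ?_⟩
    · have h1 : ((Ψ (fun l => per (v l)) : ℝ) : ℂ) = (((ψ v : ℚ) : ℝ) : ℂ) := by
        rw [hΨ', Complex.ofReal_ratCast, ← ex_apply b ψ v]
        congr 1
        funext l i
        have h2 : per (v l) = ∑ i, ((b.repr (v l) i : ℚ) : ℝ) • b' i := by
          have h3 : ∀ (q : ℚ) (w : H), per (q • w) = ((q : ℚ) : ℝ) • per w := by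
            intro q w
            let _ : Module ℚ T := Module.compHom T (algebraMap ℚ ℝ)
            have h4 : per (q • w) = q • per w := map_rat_smul per q w
            rw [h4]
            rfl
          conv_lhs => rw [← b.sum_repr (v l), map_sum]
          refine Finset.sum_congr rfl fun i _ => ?_
          rw [h3, hb]
        rw [h2, map_sum, Finset.sum_apply', Finset.sum_eq_single i]
        · rw [map_smul, Finsupp.smul_apply, Basis.repr_self, Finsupp.single_eq_same, smul_eq_mul,
            mul_one, Complex.ofReal_ratCast]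
          rfl
        · intro j _ hj
          rw [map_smul, Finsupp.smul_apply, Basis.repr_self, Finsupp.single_eq_of_ne hj.symm,
            smul_zero]
        · intro hi
          exact absurd (Finset.mem_univ i) hi
      exact Complex.ofReal_injective h1
    · have h1 : ((Ψ (fun l => z • u l) : ℝ) : ℂ) = ((Ψ u : ℝ) : ℂ) := by
        have hz0 : z ≠ 0 := by
          intro h0
          rw [h0, norm_zero] at hz1
          exact zero_ne_one hz1
        rw [hΨ', hΨ', ← bal_hz (pj_idem b') h hz0 (fun l i => ((b'.repr (u l) i : ℝ) : ℂ))]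
        congr 1
        funext l i
        rw [mz_repr, hz_pj b' hz1, mulVec, dotProduct, Complex.ofReal_sum]
        exact Finset.sum_congr rfl fun j _ => by rw [Complex.ofReal_mul]; rfl
      exact Complex.ofReal_injective h1

end

end Pool.Agent.Q43.HL
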