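import Pool.Agent.Q43.HL.Grp

/-!
# The group of the similitudes is reductive: polarizations
-/

set_option autoImplicit false
set_option linter.unusedSectionVars false

namespace Pool.Agent.Q43.HL

open Module Matrix Pool.Agent.H204R3.CM Pool.Agent.H204R3.SP Pool.Agent.H204R3.GP

noncomputable section

variable {B : Type} [Fintype B] [DecidableEq B]

/-- Complex conjugation. -/
abbrev cc : ℂ ≃+* ℂ := starRingAut

theorem cc_apply (z : ℂ) : cc z = starRingEnd ℂ z := rfl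

/-- A polarization of the decomposition given by `P`. -/
structure IsPol (P : Matrix B B ℂ) (ω : (B → ℂ) →ₗ[ℂ] (B → ℂ) →ₗ[ℂ] ℂ) : Prop where
  idem : P * P = P
  conj : P.map cc = 1 - P
  ht : HT P (bf ω)
  anti : ∀ u v, ω u v = - ω v u
  nondeg : ∀ u, (∀ v, ω u v = 0) → u = 0
  pos : ∀ v : B → ℂ, v ≠ 0 → 0 < (ω (hz P Complex.I *ᵥ v) (fun i => cc (v i))).re

theorem map_refl (P : Matrix B B ℂ) : P.map (RingEquiv.refl ℂ) = P := by
  ext i j
  rfl

theorem hz_cancel {P' : Matrix B B ℂ} (hP' : P' * P' = P') {z : ℂ} (hz0 : z ≠ 0) (v : B → ℂ) :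
    hz P' z *ᵥ (hz P' z⁻¹ *ᵥ v) = v := by
  rw [mulVec_mulVec, hz_mul hP', mul_inv_cancel₀ hz0, hz_one, one_mulVec]

theorem hz_cancel' {P' : Matrix B B ℂ} (hP' : P' * P' = P') {z : ℂ} (hz0 : z ≠ 0) (v : B → ℂ) :
    hz P' z⁻¹ *ᵥ (hz P' z *ᵥ v) = v := by
  rw [mulVec_mulVec, hz_mul hP', inv_mul_cancel₀ hz0, hz_one, one_mulVec]

/-- The orthogonal complement. -/
def orth (P : Matrix B B ℂ) (ω : (B → ℂ) →ₗ[ℂ] (B → ℂ) →ₗ[ℂ] ℂ) (U : Submodule ℂ (B → ℂ)) :
    Submodule ℂ (B → ℂ) where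
  carrier := {v | ∀ u ∈ U, ω (hz P Complex.I *ᵥ v) (fun i => cc (u i)) = 0}
  zero_mem' := by
    intro u _
    rw [mulVec_zero, map_zero, LinearMap.zero_apply]
  add_mem' := by
    intro a b ha hb u hu
    rw [mulVec_add, map_add, LinearMap.add_apply, ha u hu, hb u hu, add_zero]
  smul_mem' := by
    intro c a ha u hu
    rw [mulVec_smul, map_smul, LinearMap.smul_apply, ha u hu, smul_zero]

variable {P : Matrix B B ℂ} {ω : (B → ℂ) →ₗ[ℂ] (B → ℂ) →ₗ[ℂ] ℂ} (h : IsPol P ω)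

include h

theorem IsPol.tate2 : IsTate2 (rho P) (chi P) ω := tate2_iff.2 (tate_of_HT h.ht)

theorem IsPol.sim (g : GG P) (u v : B → ℂ) : ω (rho P g u) (rho P g v) = chi P g * ω u v :=
  tate2_all h.idem h.tate2 g u v

theorem IsPol.inv (σ : ℂ ≃+* ℂ) {z : ℂ} (hz0 : z ≠ 0) (u v : B → ℂ) :
    ω (hz (P.map σ) z *ᵥ u) (hz (P.map σ) z *ᵥ v) = ω u v := by
  have h1 := bal_hz (conj_idem h.idem σ) (h.ht.bal σ) hz0 (fun k => if k.2 = 0 then u else v)
  rw [bf_apply, bf_apply] at h1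
  simpa using h1

theorem IsPol.invP {z : ℂ} (hz0 : z ≠ 0) (u v : B → ℂ) :
    ω (hz P z *ᵥ u) (hz P z *ᵥ v) = ω u v := by
  have h1 := h.inv (RingEquiv.refl ℂ) hz0 u v
  rwa [map_refl] at h1

theorem IsPol.inv' (σ : ℂ ≃+* ℂ) {z : ℂ} (hz0 : z ≠ 0) (u v : B → ℂ) :
    ω (hz (P.map σ) z *ᵥ u) v = ω u (hz (P.map σ) z⁻¹ *ᵥ v) := by
  conv_lhs => rw [← hz_cancel (conj_idem h.idem σ) hz0 v]
  exact h.inv σ hz0 _ _

theorem IsPol.invP' {z : ℂ} (hz0 : z ≠ 0) (u v : B → ℂ) :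
    ω (hz P z *ᵥ u) v = ω u (hz P z⁻¹ *ᵥ v) := by
  have h1 := h.inv' (RingEquiv.refl ℂ) hz0 u v
  rwa [map_refl] at h1

/-- The complex structure is real. -/
theorem IsPol.real : (hz P Complex.I).map cc = hz P Complex.I := by
  rw [hz_map, h.conj]
  unfold hz
  rw [cc_apply, Complex.conj_I, sub_sub_cancel, Complex.inv_I, inv_neg, Complex.inv_I, neg_neg,
    add_comm]

theorem IsPol.compl (U : Submodule ℂ (B → ℂ)) : IsCompl U (orth P ω U) := by
  have hdis : Disjoint U (orth P ω U) := by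
    rw [Submodule.disjoint_def]
    intro v hv hv'
    by_contra h0
    have h1 := h.pos v h0
    rw [hv' v hv, Complex.zero_re] at h1
    exact lt_irrefl _ h1
  refine ⟨hdis, ?_⟩
  rw [codisjoint_iff]
  apply Submodule.eq_top_of_disjoint _ _ _ hdis
  let b := Module.finBasis ℂ U
  let L : (B → ℂ) →ₗ[ℂ] (Fin (finrank ℂ U) → ℂ) :=
    { toFun := fun v i => ω (hz P Complex.I *ᵥ v) (fun j => cc ((b i : B → ℂ) j))
      map_add' := by
        intro v w
        funext i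
        rw [mulVec_add, map_add]
        rfl
      map_smul' := by
        intro c v
        funext i
        rw [mulVec_smul, map_smul]
        rfl }
  have hker : LinearMap.ker L ≤ orth P ω U := by
    intro v hv u hu
    have h1 : ∀ i, ω (hz P Complex.I *ᵥ v) (fun j => cc ((b i : B → ℂ) j)) = 0 := fun i =>
      congrFun (LinearMap.mem_ker.1 hv) i
    have h2 : u = ∑ i, b.repr ⟨u, hu⟩ i • (b i : B → ℂ) := by
      have h3 := congrArg (fun x : U => (x : B → ℂ)) (b.sum_repr ⟨u, hu⟩)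
      simp only [AddSubmonoidClass.coe_finsetSum, Submodule.coe_smul] at h3
      exact h3.symm
    have h3 : (fun j => cc (u j)) = ∑ i, cc (b.repr ⟨u, hu⟩ i) • fun j => cc ((b i : B → ℂ) j) := by
      funext j
      rw [Finset.sum_apply]
      conv_lhs => rw [h2]
      rw [Finset.sum_apply, map_sum]
      refine Finset.sum_congr rfl fun i _ => ?_
      rw [Pi.smul_apply, Pi.smul_apply, smul_eq_mul, smul_eq_mul, map_mul]
    rw [h3, map_sum]
    refine Finset.sum_eq_zero fun i _ => ?_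
    rw [map_smul, h1, smul_zero]
  have h1 := LinearMap.finrank_range_add_finrank_ker L
  have h2 : finrank ℂ (LinearMap.range L) ≤ finrank ℂ U := by
    refine (Submodule.finrank_le _).trans ?_
    rw [Module.finrank_fin_fun]
  have h3 := Submodule.finrank_mono hker
  omega

theorem IsPol.orth_stable {U : Submodule ℂ (B → ℂ)}
    (hU : ∀ (σ : ℂ ≃+* ℂ) (z : ℂ), z ≠ 0 → ∀ u ∈ U, hz (P.map σ) z *ᵥ u ∈ U)
    (σ : ℂ ≃+* ℂ) {z : ℂ} (hz0 : z ≠ 0) {v : B → ℂ} (hv : v ∈ orth P ω U) :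
    hz (P.map σ) z *ᵥ v ∈ orth P ω U := by
  intro u hu
  have hUP : ∀ w : ℂ, w ≠ 0 → ∀ u ∈ U, hz P w *ᵥ u ∈ U := by
    intro w hw u hu
    have h1 := hU (RingEquiv.refl ℂ) w hw u hu
    rwa [map_refl] at h1
  have hI : Complex.I ≠ 0 := Complex.I_ne_zero
  have hI' : (Complex.I)⁻¹ ≠ 0 := inv_ne_zero hI
  rw [h.invP' hI, h.inv' σ hz0]
  -- write the second argument as a conjugate
  let u' : B → ℂ := hz P Complex.I *ᵥ (hz (P.map (σ.trans cc)) (cc z⁻¹) *ᵥ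
    (hz P Complex.I⁻¹ *ᵥ u))
  have hcz : cc z⁻¹ ≠ 0 := by
    rw [Ne, map_eq_zero_iff _ (RingEquiv.injective cc)]
    exact inv_ne_zero hz0
  have hu' : u' ∈ U := hUP _ hI _ (hU _ _ hcz _ (hUP _ hI' _ hu))
  have h1 := hv u' hu'
  have hPP : (P.map σ).map cc = P.map (σ.trans cc) := by
    ext i j
    rfl
  have hcc : ∀ w : ℂ, cc (cc w) = w := fun w => star_star w
  have hPP' : (P.map (σ.trans cc)).map cc = P.map σ := by
    ext i j
    exact hcc _
  have hreal' : (hz P Complex.I⁻¹).map cc = hz P Complex.I⁻¹ := by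
    have e1 : hz P Complex.I⁻¹ = -hz P Complex.I := by
      unfold hz
      rw [Complex.inv_I, inv_neg, Complex.inv_I, neg_smul, neg_smul, neg_smul, neg_neg]
      module
    rw [e1]
    ext i j
    have e2 := congrFun (congrFun h.real i) j
    rw [Matrix.map_apply] at e2 ⊢
    rw [Matrix.neg_apply, map_neg, e2]
  have h2 : (fun i => cc (u' i)) = hz P Complex.I *ᵥ (hz (P.map σ) z⁻¹ *ᵥ
      (hz P Complex.I⁻¹ *ᵥ fun i => cc (u i))) := by
    have e1 := conj_mulVec cc (hz P Complex.I) (hz (P.map (σ.trans cc)) (cc z⁻¹) *ᵥ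
      (hz P Complex.I⁻¹ *ᵥ u))
    have e2 := conj_mulVec cc (hz (P.map (σ.trans cc)) (cc z⁻¹)) (hz P Complex.I⁻¹ *ᵥ u)
    have e3 := conj_mulVec cc (hz P Complex.I⁻¹) u
    rw [h.real] at e1
    rw [hz_map, hPP', hcc] at e2
    rw [hreal'] at e3
    rw [e2, e3] at e1
    exact e1
  rw [h2, h.invP' hI, hz_cancel' h.idem hI] at h1
  exact h1

/-- The representation is semisimple. -/
theorem IsPol.hasProj : HasProj (rho P) := by
  intro Δ hΔ U hU
  have hU' : ∀ (σ : ℂ ≃+* ℂ) (z : ℂ), z ≠ 0 → ∀ u ∈ U, hz (P.map σ) z *ᵥ u ∈ U :=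
    fun σ z hz0 u hu => hU _ (tor_mem (conj_idem h.idem σ) (HT.balσ σ) Δ hΔ z hz0) u hu
  have hc := h.compl U
  let Q : (B → ℂ) →ₗ[ℂ] (B → ℂ) := U.subtype ∘ₗ (Submodule.projectionOnto U _ hc)
  have hQU : ∀ v, Q v ∈ U := fun v => (Submodule.projectionOnto U _ hc v).2
  have hQid : ∀ u ∈ U, Q u = u := by
    intro u hu
    have h1 := Submodule.projectionOnto_apply_left hc ⟨u, hu⟩
    exact congrArg (fun x : U => (x : B → ℂ)) h1
  have hQ0 : ∀ v ∈ orth P ω U, Q v = 0 := by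
    intro v hv
    have h1 := (Submodule.projectionOnto_apply_eq_zero_iff hc (x := v)).2 hv
    exact congrArg (fun x : U => (x : B → ℂ)) h1
  have hcomm : ∀ (σ : ℂ ≃+* ℂ) (z : ℂ), z ≠ 0 → ∀ v,
      Q (hz (P.map σ) z *ᵥ v) = hz (P.map σ) z *ᵥ Q v := by
    intro σ z hz0 v
    obtain ⟨a, ha, b, hb, rfl⟩ : ∃ a ∈ U, ∃ b ∈ orth P ω U, a + b = v :=
      Submodule.mem_sup.1 (by rw [hc.sup_eq_top]; trivial)
    rw [mulVec_add, map_add, map_add, mulVec_add, hQid _ (hU' σ z hz0 a ha),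
      hQ0 _ (h.orth_stable hU' σ hz0 hb), hQid a ha, hQ0 b hb, mulVec_zero]
  let β : (B → ℂ) →ₗ[ℂ] (B → ℂ) →ₗ[ℂ] ℂ := ω.comp Q
  have hβ : IsTate2 (rho P) (chi P) β := tate2_of_torus h.idem fun σ z hz0 u v => by
    change ω (Q (hz (P.map σ) z *ᵥ u)) (hz (P.map σ) z *ᵥ v) = ω (Q u) v
    rw [hcomm σ z hz0, h.inv σ hz0]
  refine ⟨Q, hQU, hQid, fun s _ v => ?_⟩
  rw [← sub_eq_zero]
  apply h.nondeg
  intro w
  have hw : w = rho P s (rho P s⁻¹ w) := (rho_inv' (rho P) s w).symm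
  rw [map_sub, LinearMap.sub_apply, sub_eq_zero, hw, h.sim]
  exact tate2_all h.idem hβ s v _

end

end Pool.Agent.Q43.HL
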