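import Pool.Agent.Y90.SL2
import Pool.Agent.W516.Four2

/-!
# Products of determinants
-/

set_option autoImplicit false
set_option linter.unusedSectionVars false

namespace Pool.Agent.Q43.HL

open Module Matrix Pool.Agent.H204R3.CM Pool.Agent.H204R3.SP Pool.Agent.H204R3.GP Pool.Agent.Y90

noncomputable section

section mulF

variable {K : Type} [Field K] {W : Type} [AddCommGroup W] [Module K W]
  {κ κ₁ κ₂ : Type} [Fintype κ] [Fintype κ₁] [Fintype κ₂] [DecidableEq κ] [DecidableEq κ₁]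
  [DecidableEq κ₂]

/-- The product of two forms in different variables. -/
def mulF (f : MultilinearMap K (fun _ : κ₁ => W) K) (g : MultilinearMap K (fun _ : κ₂ => W) K) :
    MultilinearMap K (fun _ : κ₁ ⊕ κ₂ => W) K :=
  (LinearMap.mul' K K).compMultilinearMap (f.domCoprod g)

theorem mulF_apply (f : MultilinearMap K (fun _ : κ₁ => W) K)
    (g : MultilinearMap K (fun _ : κ₂ => W) K) (v : κ₁ ⊕ κ₂ → W) :
    mulF f g v = f (fun i => v (Sum.inl i)) * g (fun i => v (Sum.inr i)) := by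
  unfold mulF
  rw [LinearMap.compMultilinearMap_apply, MultilinearMap.domCoprod_apply, LinearMap.mul'_apply]

/-- The product of bilinear forms and of a form, in different variables. -/
def prodT {s m' : ℕ} (e2 : (Fin s × Fin 2) ⊕ (Fin m' × Fin 2) ≃ κ)
    (β : Fin s → (W →ₗ[K] W →ₗ[K] K)) (w : MultilinearMap K (fun _ : Fin m' × Fin 2 => W) K)
    (P : Fin m' × Fin 2 → (W →ₗ[K] W)) : MultilinearMap K (fun _ : κ => W) K :=
  (mulF (prodMap (fun l => bil2 (β l))) (w.compLinearMap P)).domDomCongr e2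

theorem prodT_apply {s m' : ℕ} (e2 : (Fin s × Fin 2) ⊕ (Fin m' × Fin 2) ≃ κ)
    (β : Fin s → (W →ₗ[K] W →ₗ[K] K)) (w : MultilinearMap K (fun _ : Fin m' × Fin 2 => W) K)
    (P : Fin m' × Fin 2 → (W →ₗ[K] W)) (v : κ → W) :
    prodT e2 β w P v = (∏ j, β j (v (e2 (Sum.inl (j, 0)))) (v (e2 (Sum.inl (j, 1))))) *
      w (fun k => P k (v (e2 (Sum.inr k)))) := by
  unfold prodT
  rw [MultilinearMap.domDomCongr_apply, mulF_apply]
  rfl

end mulF

variable {Ω : Type} [Field Ω] {V : Type} [AddCommGroup V] [Module Ω V]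
  {R : Type} [Fintype R] [DecidableEq R] (e : Basis R Ω V) {Q : Type} [Fintype Q] [DecidableEq Q]
  (cls : R → Q) (dp : Q → ℕ)

/-- The positions. -/
abbrev PosI : Type := Pos cls (fun q : (Σ c : Q, Fin (dp c)) => q.1)

variable {L : Type} [DecidableEq L] (bk : R → L)

/-- The matrix of the determinants of the blocks. -/
def mtx (v : PosI cls dp → V) : Matrix (PosI cls dp) (PosI cls dp) Ω :=
  Matrix.of fun z z' => if bk z.2.1 = bk z'.2.1 ∧ (z.1.2 : ℕ) = z'.1.2 then
    e.repr (v z) z'.2.1 else 0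

/-- The product of the determinants of the blocks. -/
def Wd : MultilinearMap Ω (fun _ : PosI cls dp => V) Ω :=
  (Matrix.detRowAlternating (n := PosI cls dp) (R := Ω)).toMultilinearMap.compLinearMap (fun z =>
    LinearMap.pi (fun z' => if bk z.2.1 = bk z'.2.1 ∧ (z.1.2 : ℕ) = z'.1.2 then
      e.coord z'.2.1 else 0))

theorem Wd_apply (v : PosI cls dp → V) : Wd e cls dp bk v = (mtx e cls dp bk v).det := by
  unfold Wd
  change Matrix.det _ = _
  congr 1
  ext z z'
  unfold mtx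
  rw [LinearMap.pi_apply, Matrix.of_apply]
  split_ifs
  · rfl
  · rfl

theorem sumPos (h : R → Ω) (i : ℕ) :
    ∑ z : PosI cls dp, (if (z.1.2 : ℕ) = i then h z.2.1 else 0) =
      ∑ y : R, if i < dp (cls y) then h y else 0 := by
  rw [Fintype.sum_sigma, Fintype.sum_sigma]
  have h1 : ∀ c : Q, ∑ j : Fin (dp c), ∑ y : {y : R // cls y = c},
      (if (j : ℕ) = i then h y.1 else 0) =
      ∑ y : {y : R // cls y = c}, if i < dp (cls y.1) then h y.1 else 0 := by
    intro c
    rw [Finset.sum_comm]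
    refine Finset.sum_congr rfl fun y _ => ?_
    rw [y.2]
    by_cases hi : i < dp c
    · rw [if_pos hi, Finset.sum_eq_single ⟨i, hi⟩]
      · rw [if_pos rfl]
      · intro j _ hj
        rw [if_neg]
        intro h2
        exact hj (Fin.ext h2)
      · intro h2
        exact absurd (Finset.mem_univ _) h2
    · rw [if_neg hi]
      refine Finset.sum_eq_zero fun j _ => ?_
      rw [if_neg]
      intro h2
      exact hi (h2 ▸ j.2)
  refine (Finset.sum_congr rfl fun c _ => h1 c).trans ?_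
  exact Fintype.sum_fiberwise cls (fun y => if i < dp (cls y) then h y else 0)

/-- The matrix induced on the positions. -/
def Gh (G : Matrix R R Ω) : Matrix (PosI cls dp) (PosI cls dp) Ω :=
  Matrix.of fun z'' z' => if (z''.1.2 : ℕ) = z'.1.2 then G z'.2.1 z''.2.1 else 0

variable {T : V →ₗ[Ω] V} {G : Matrix R R Ω} (hG : ∀ v x, e.repr (T v) x = ∑ y, G x y * e.repr v y)
  (hG0 : ∀ x y, bk x ≠ bk y → G x y = 0) (hdp : ∀ x y, bk x = bk y → dp (cls x) = dp (cls y))

include hG hG0 hdp in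
theorem Wd_trans (v : PosI cls dp → V) :
    Wd e cls dp bk (fun z => T (v z)) = Wd e cls dp bk v * (Gh cls dp G).det := by
  rw [Wd_apply, Wd_apply, ← Matrix.det_mul]
  congr 1
  ext z z'
  rw [Matrix.mul_apply]
  unfold mtx Gh
  simp only [Matrix.of_apply]
  by_cases hi : (z.1.2 : ℕ) = z'.1.2
  · have h1 : ∀ z'' : PosI cls dp,
        (if bk z.2.1 = bk z''.2.1 ∧ (z.1.2 : ℕ) = z''.1.2 then e.repr (v z) z''.2.1 else 0) *
          (if (z''.1.2 : ℕ) = z'.1.2 then G z'.2.1 z''.2.1 else 0) =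
        if (z''.1.2 : ℕ) = z'.1.2 then (fun y => if bk z.2.1 = bk y then
          e.repr (v z) y * G z'.2.1 y else 0) z''.2.1 else 0 := by
      intro z''
      by_cases h2 : (z''.1.2 : ℕ) = z'.1.2
      · rw [if_pos h2, if_pos h2]
        by_cases h3 : bk z.2.1 = bk z''.2.1
        · rw [if_pos ⟨h3, hi.trans h2.symm⟩]
          simp only [if_pos h3]
        · rw [if_neg (fun h => h3 h.1), zero_mul]
          simp only [if_neg h3]
      · rw [if_neg h2, if_neg h2, mul_zero]
    rw [Finset.sum_congr rfl (fun z'' _ => h1 z''),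
      sumPos cls dp (fun y => if bk z.2.1 = bk y then e.repr (v z) y * G z'.2.1 y else 0)]
    have hlt : (z'.1.2 : ℕ) < dp (cls z.2.1) := by
      rw [z.2.2, ← hi]
      exact z.1.2.2
    have h2 : ∀ y : R, (if (z'.1.2 : ℕ) < dp (cls y) then
        (if bk z.2.1 = bk y then e.repr (v z) y * G z'.2.1 y else 0) else 0) =
        if bk z.2.1 = bk y then G z'.2.1 y * e.repr (v z) y else 0 := by
      intro y
      by_cases h3 : bk z.2.1 = bk y
      · rw [← hdp _ _ h3, if_pos hlt, if_pos h3, if_pos h3, mul_comm]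
      · rw [if_neg h3, if_neg h3, ite_self]
    rw [Finset.sum_congr rfl (fun y _ => h2 y)]
    by_cases h3 : bk z.2.1 = bk z'.2.1
    · rw [if_pos ⟨h3, hi⟩, hG]
      refine Finset.sum_congr rfl fun y _ => ?_
      by_cases h4 : bk z.2.1 = bk y
      · rw [if_pos h4]
      · rw [if_neg h4, hG0 _ _ (fun h => h4 (h3.trans h)), zero_mul]
    · rw [if_neg (fun h => h3 h.1)]
      symm
      refine Finset.sum_eq_zero fun y _ => ?_
      by_cases h4 : bk z.2.1 = bk y
      · rw [if_pos h4, hG0 _ _ (fun h => h3 (h4.trans h.symm)), zero_mul]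
      · rw [if_neg h4]
  · rw [if_neg (fun h => hi h.2)]
    symm
    refine Finset.sum_eq_zero fun z'' _ => ?_
    by_cases h2 : (z''.1.2 : ℕ) = z'.1.2
    · rw [if_neg (fun h => hi (h.2.trans h2)), zero_mul]
    · rw [if_neg h2, mul_zero]

include hG0 hdp in
theorem det_Gh (hdet : ∀ l : L, (Matrix.of fun x y : {x // bk x = l} => G x.1 y.1).det = 1) :
    (Gh cls dp G).det = 1 := by
  classical
  let b : PosI cls dp → L × ℕ := fun z => (bk z.2.1, (z.1.2 : ℕ))
  let _ : LinearOrder (L × ℕ) := linearOrderOfSTO WellOrderingRel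
  have hb : ∀ z z', b z ≠ b z' → Gh cls dp G z z' = 0 := by
    intro z z' h
    unfold Gh
    rw [Matrix.of_apply]
    split_ifs with h1
    · apply hG0
      intro h2
      exact h (Prod.ext h2.symm h1)
    · rfl
  have htri : Matrix.BlockTriangular (Gh cls dp G) b := fun z z' h => hb z z' (ne_of_gt h)
  rw [htri.det]
  refine Finset.prod_eq_one fun a ha => ?_
  obtain ⟨z₀, -, hz₀⟩ := Finset.mem_image.1 ha
  let f : {z // b z = a} → {x // bk x = a.1} := fun z => ⟨z.1.2.1, congrArg Prod.fst z.2⟩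
  have hf : Function.Bijective f := by
    constructor
    · rintro ⟨⟨⟨c, i⟩, ⟨y, hy⟩⟩, h⟩ ⟨⟨⟨c', i'⟩, ⟨y', hy'⟩⟩, h'⟩ hh
      have h1 : y = y' := congrArg Subtype.val hh
      subst h1
      have h2 : c = c' := hy.symm.trans hy'
      subst h2
      have h3 : (i : ℕ) = i' := (congrArg Prod.snd h).trans (congrArg Prod.snd h').symm
      have h4 : i = i' := Fin.ext h3
      subst h4
      rfl
    · rintro ⟨y, hy⟩
      have h1 : bk y = bk z₀.2.1 := by
        rw [hy, ← hz₀]
      have h2 : a.2 < dp (cls y) := by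
        rw [hdp _ _ h1, z₀.2.2, ← hz₀]
        exact z₀.1.2.2
      exact ⟨⟨⟨⟨cls y, ⟨a.2, h2⟩⟩, ⟨y, rfl⟩⟩, Prod.ext hy rfl⟩, rfl⟩
  let ε := Equiv.ofBijective f hf
  have h1 : (Gh cls dp G).toSquareBlock b a =
      ((Matrix.of fun x y : {x // bk x = a.1} => G x.1 y.1)ᵀ).submatrix ε ε := by
    ext z z'
    rw [Matrix.toSquareBlock_def, Matrix.of_apply, Matrix.submatrix_apply, Matrix.transpose_apply,
      Matrix.of_apply]
    unfold Gh
    rw [Matrix.of_apply, if_pos]
    · rfl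
    · exact (congrArg Prod.snd z.2).trans (congrArg Prod.snd z'.2).symm
  rw [h1, Matrix.det_submatrix_equiv_self, Matrix.det_transpose, hdet]

theorem Wd_cls (v : PosI cls dp → V) : Wd e cls dp cls v =
    ∏ q : (Σ c : Q, Fin (dp c)), (Matrix.of fun y y' : Mem cls q.1 =>
      e.repr (v ⟨q, y⟩) y'.1).det := by
  classical
  rw [Wd_apply]
  let σ := Fintype.equivFin (Σ c : Q, Fin (dp c))
  let b : PosI cls dp → Fin (Fintype.card (Σ c : Q, Fin (dp c))) := fun z => σ z.1
  have hb : ∀ z z', b z ≠ b z' → mtx e cls dp cls v z z' = 0 := by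
    rintro ⟨⟨c, i⟩, ⟨y, hy⟩⟩ ⟨⟨c', i'⟩, ⟨y', hy'⟩⟩ h
    unfold mtx
    rw [Matrix.of_apply, if_neg]
    rintro ⟨h1, h2⟩
    apply h
    have h3 : c = c' := hy.symm.trans (h1.trans hy')
    subst h3
    have h4 : i = i' := Fin.ext h2
    subst h4
    rfl
  have htri : Matrix.BlockTriangular (mtx e cls dp cls v) b := fun z z' h => hb z z' (ne_of_gt h)
  rw [htri.det_fintype, ← Equiv.prod_comp σ]
  refine Finset.prod_congr rfl fun q _ => ?_
  let f : {z // b z = σ q} → Mem cls q.1 := fun z => ⟨z.1.2.1, by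
    have h1 := z.1.2.2
    have h2 : z.1.1 = q := σ.injective z.2
    exact h1.trans (congrArg (fun q : (Σ c : Q, Fin (dp c)) => q.1) h2)⟩
  have hf : Function.Bijective f := by
    constructor
    · rintro ⟨⟨q', ⟨y, hy⟩⟩, h⟩ ⟨⟨q'', ⟨y', hy'⟩⟩, h'⟩ hh
      have h1 : y = y' := congrArg Subtype.val hh
      subst h1
      have h2 : q' = q := σ.injective h
      have h3 : q'' = q := σ.injective h'
      subst h2
      subst h3
      rfl
    · rintro ⟨y, hy⟩
      exact ⟨⟨⟨q, ⟨y, hy⟩⟩, rfl⟩, rfl⟩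
  let ε := Equiv.ofBijective f hf
  have h1 : (mtx e cls dp cls v).toSquareBlock b (σ q) =
      (Matrix.of fun y y' : Mem cls q.1 => e.repr (v ⟨q, y⟩) y'.1).submatrix ε ε := by
    ext ⟨⟨q', ⟨y, hy⟩⟩, h⟩ ⟨⟨q'', ⟨y', hy'⟩⟩, h'⟩
    have h2 : q' = q := σ.injective h
    have h3 : q'' = q := σ.injective h'
    subst h2
    subst h3
    rw [Matrix.toSquareBlock_def, Matrix.of_apply, Matrix.submatrix_apply, Matrix.of_apply]
    unfold mtx
    rw [Matrix.of_apply, if_pos ⟨hy.trans hy'.symm, rfl⟩]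
    rfl
  rw [h1, Matrix.det_submatrix_equiv_self]

variable [CharZero Ω]

theorem PC_repr (c : Q) (v : V) (x : R) :
    e.repr (PC e cls c v) x = if cls x = c then e.repr v x else 0 := by
  conv_lhs => rw [← e.sum_repr v]
  rw [map_sum, map_sum, Finsupp.finsetSum_apply, Finset.sum_eq_single x]
  · rw [map_smul, PC_basis, map_smul, Finsupp.smul_apply, smul_eq_mul]
    split_ifs
    · rw [e.repr_self, Finsupp.single_eq_same, mul_one]
    · rw [map_zero, Finsupp.zero_apply, mul_zero]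
  · intro y _ hy
    rw [map_smul, PC_basis, map_smul, Finsupp.smul_apply, smul_eq_mul]
    split_ifs
    · rw [e.repr_self, Finsupp.single_eq_of_ne hy.symm, mul_zero]
    · rw [map_zero, Finsupp.zero_apply, mul_zero]
  · intro h
    exact absurd (Finset.mem_univ _) h

theorem Wd_PC (hcb : ∀ x y, cls x = cls y → bk x = bk y) (v : PosI cls dp → V) :
    Wd e cls dp cls v = Wd e cls dp bk (fun z => PC e cls z.1.1 (v z)) := by
  rw [Wd_apply, Wd_apply]
  congr 1
  ext z z'
  unfold mtx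
  rw [Matrix.of_apply, Matrix.of_apply, PC_repr]
  have hz : cls z.2.1 = z.1.1 := z.2.2
  by_cases h : cls z.2.1 = cls z'.2.1
  · rw [if_pos (h.symm.trans hz)]
    by_cases h2 : (z.1.2 : ℕ) = z'.1.2
    · rw [if_pos ⟨h, h2⟩, if_pos ⟨hcb _ _ h, h2⟩]
    · rw [if_neg (fun h' => h2 h'.2), if_neg (fun h' => h2 h'.2)]
  · rw [if_neg (fun h' => h h'.1), if_neg (fun h' : cls z'.2.1 = z.1.1 => h (hz.trans h'.symm)),
      ite_self]

end

end Pool.Agent.Q43.HL
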