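import Pool.Agent.Q43.HL.Str1

/-!
# Tate forms are generated by bilinear forms and products of determinants
-/

set_option autoImplicit false
set_option linter.unusedSectionVars false

namespace Pool.Agent.Q43.HL

open Module Matrix Pool.Agent.H204R3.CM Pool.Agent.H204R3.SP Pool.Agent.H204R3.GP Pool.Agent.Y90
  Pool.Agent.W516.FT

noncomputable section

variable {Ω : Type} [Field Ω] [CharZero Ω] {V : Type} [AddCommGroup V] [Module Ω V]
  {R : Type} [Fintype R] [DecidableEq R] (e : Basis R Ω V) {inv : R → R} {jj : R → Ω}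
  (hinv : ∀ x, inv (inv x) = x) (hne : ∀ x, inv x ≠ x)
  (hjj : ∀ x, jj (inv x) = -jj x) (hj0 : ∀ x, jj x ≠ 0)
  (ω : V →ₗ[Ω] V →ₗ[Ω] Ω) (hω : ∀ x y, ω (e x) (e y) = JJ inv jj x y)
  {Γ : Type} [Group Γ] (ρ : Representation Ω Γ V) (χ : Γ →* Ω)
  (hωρ : ∀ s u v, ω (ρ s u) (ρ s v) = χ s * ω u v)
  {Q : Type} [Fintype Q] [DecidableEq Q] (cls : R → Q)
  (hcls : ∀ x y, cls x = cls y → cls (inv x) = cls (inv y))
  (hSS : ∀ b c, cls (inv b) = cls c → c ≠ inv b → SS ω (e b) (e c) ∈ lieT ρ χ)
  (hPC : ∀ c, AlmostEquivariant ρ (PC e cls c))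
  {L : Type} [DecidableEq L] (bk : R → L) (hcb : ∀ x y, cls x = cls y → bk x = bk y)

/-- The excess of a letter over the conjugate letter. -/
def dl {κ : Type} [Fintype κ] (inv : R → R) (I : κ → R) (y : R) : ℤ :=
  ((Finset.univ.filter (fun k => I k = y)).card : ℤ) - (Finset.univ.filter (fun k => I k = inv y)).card

include hinv in
theorem dl_inv {κ : Type} [Fintype κ] (I : κ → R) (y : R) : dl inv I (inv y) = -dl inv I y := by
  unfold dl
  rw [hinv]
  ring

/-- The form is multiplied by one by all linear maps with blocks of determinant one. -/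
def SpecF {κ : Type} (w : MultilinearMap Ω (fun _ : κ => V) Ω) : Prop :=
  ∀ (T : V →ₗ[Ω] V) (G : Matrix R R Ω), (∀ v x, e.repr (T v) x = ∑ y, G x y * e.repr v y) →
    (∀ x y, bk x ≠ bk y → G x y = 0) →
    (∀ l : L, (Matrix.of fun x y : {x // bk x = l} => G x.1 y.1).det = 1) →
    ∀ v : κ → V, w (fun k => T (v k)) = w v

/-- The products of bilinear forms and of a form with blocks of determinant one. -/
def StrSet (m : ℕ) : Set (MultilinearMap Ω (fun _ : Fin m × Fin 2 => V) Ω) :=
  {Ψ | ∃ (s m' : ℕ) (e2 : (Fin s × Fin 2) ⊕ (Fin m' × Fin 2) ≃ Fin m × Fin 2)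
    (β : Fin s → (V →ₗ[Ω] V →ₗ[Ω] Ω)) (w : MultilinearMap Ω (fun _ : Fin m' × Fin 2 => V) Ω)
    (P : Fin m' × Fin 2 → (V →ₗ[Ω] V)),
    (∀ j, IsTate2 ρ χ (β j)) ∧ (∀ k, AlmostEquivariant ρ (P k)) ∧ IsTate ρ χ m' w ∧
    SpecF e bk w ∧ Ψ = prodT e2 β w P}

theorem sum_PC (v : V) : ∑ c, PC e cls c v = v := by
  apply e.repr.injective
  ext x
  rw [map_sum, Finsupp.finsetSum_apply]
  simp only [PC_repr]
  rw [Finset.sum_ite_eq, if_pos (Finset.mem_univ _)]

theorem chi_ne (s : Γ) : χ s ≠ 0 := by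
  intro h
  have h1 : χ s * χ s⁻¹ = 1 := by rw [← map_mul, mul_inv_cancel, map_one]
  rw [h, zero_mul] at h1
  exact zero_ne_one h1

include hinv hcls in
/-- The excess is determined by the classes. -/
theorem dl_eq {κ : Type} [Fintype κ] {I I₀ : κ → R} (h : ∀ k, cls (I k) = cls (I₀ k))
    (hI : ∀ x y, cls x = cls y → dl inv I x = dl inv I y)
    (hI₀ : ∀ x y, cls x = cls y → dl inv I₀ x = dl inv I₀ y) (y : R) :
    dl inv I y = dl inv I₀ y := by
  classical
  have key : ∀ J : κ → R, (∀ x y, cls x = cls y → dl inv J x = dl inv J y) →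
      ((Finset.univ.filter (fun z => cls z = cls y)).card : ℤ) * dl inv J y =
        ((Finset.univ.filter (fun k => cls (J k) = cls y)).card : ℤ) -
        (Finset.univ.filter (fun k => cls (inv (J k)) = cls y)).card := by
    intro J hJ
    have h1 : ∑ z ∈ Finset.univ.filter (fun z => cls z = cls y), dl inv J z =
        ((Finset.univ.filter (fun z => cls z = cls y)).card : ℤ) * dl inv J y := by
      rw [Finset.sum_congr rfl (fun z hz => hJ z y (Finset.mem_filter.1 hz).2), Finset.sum_const,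
        nsmul_eq_mul]
    rw [← h1]
    unfold dl
    rw [Finset.sum_sub_distrib]
    have h2 : ∀ f : κ → R, ∑ z ∈ Finset.univ.filter (fun z => cls z = cls y),
        ((Finset.univ.filter (fun k => f k = z)).card : ℤ) =
        ((Finset.univ.filter (fun k => cls (f k) = cls y)).card : ℤ) := by
      intro f
      rw [← Nat.cast_sum]
      congr 1
      rw [Finset.card_eq_sum_card_fiberwise (f := f)
        (t := Finset.univ.filter (fun z => cls z = cls y))]
      · refine Finset.sum_congr rfl fun z hz => ?_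
        congr 1
        ext k
        simp only [Finset.mem_filter, Finset.mem_univ, true_and]
        constructor
        · rintro rfl
          exact ⟨(Finset.mem_filter.1 hz).2, rfl⟩
        · exact fun h => h.2
      · intro k hk
        rw [Finset.mem_coe, Finset.mem_filter] at hk ⊢
        exact ⟨Finset.mem_univ _, hk.2⟩
    rw [h2 J]
    congr 1
    rw [← h2 (fun k => inv (J k))]
    refine Finset.sum_congr rfl fun z _ => ?_
    congr 2
    ext k
    simp only [Finset.mem_filter, Finset.mem_univ, true_and]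
    constructor
    · intro h3
      rw [h3, hinv]
    · intro h3
      rw [← h3, hinv]
  have h1 := key I hI
  have h2 := key I₀ hI₀
  have h3 : ∀ k, cls (inv (I k)) = cls (inv (I₀ k)) := fun k => hcls _ _ (h k)
  simp only [h, h3] at h1
  have h4 : (0 : ℤ) < ((Finset.univ.filter (fun z => cls z = cls y)).card : ℤ) := by
    have h5 : y ∈ Finset.univ.filter (fun z => cls z = cls y) :=
      Finset.mem_filter.2 ⟨Finset.mem_univ _, rfl⟩
    exact_mod_cast Finset.card_pos.2 ⟨y, h5⟩
  exact mul_left_cancel₀ h4.ne' (h1.trans h2.symm)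

include hinv hjj in
/-- The action of the diagonal operators. -/
theorem elemX_diag {κ : Type} [Fintype κ] [DecidableEq κ] (F : (κ → R) → Ω) (I : κ → R) (b : R) :
    elemX inv jj b (inv b) F I = -((jj b * (dl inv I b : Ω)) * F I) := by
  unfold elemX
  have h3 : ∀ k, JJ inv jj b (I k) * F (Function.update I k (inv b)) +
      JJ inv jj (inv b) (I k) * F (Function.update I k b) =
      (jj b * F I) * ((if I k = inv b then 1 else 0) - (if I k = b then 1 else 0)) := by
    intro k
    unfold JJ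
    rw [hinv]
    have h4 : (if I k = inv b then jj b else 0) * F (Function.update I k (inv b)) =
        (jj b * F I) * (if I k = inv b then 1 else 0) := by
      by_cases h : I k = inv b
      · rw [if_pos h, if_pos h, ← h, Function.update_eq_self, mul_one]
      · rw [if_neg h, if_neg h, zero_mul, mul_zero]
    have h5 : (if I k = b then jj (inv b) else 0) * F (Function.update I k b) =
        -((jj b * F I) * (if I k = b then 1 else 0)) := by
      by_cases h : I k = b
      · rw [if_pos h, if_pos h, hjj]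
        conv_lhs => rw [← h, Function.update_eq_self, h]
        ring
      · rw [if_neg h, if_neg h, zero_mul, mul_zero, neg_zero]
    rw [h4, h5]
    ring
  rw [Finset.sum_congr rfl (fun k _ => h3 k), ← Finset.mul_sum, Finset.sum_sub_distrib,
    Finset.sum_boole, Finset.sum_boole]
  unfold dl
  push_cast
  ring

include hω in
/-- The action of the other operators. -/
theorem elemX_kill {κ : Type} [Fintype κ] [DecidableEq κ]
    {ψ : MultilinearMap Ω (fun _ : κ => V) Ω} {b c : R} (hk : Kills (SS ω (e b) (e c)) ψ)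
    (I : κ → R) : elemX inv jj b c (fun I => ψ (fun k => e (I k))) I = 0 := by
  have h3 := hk (fun k => e (I k))
  rw [← h3]
  unfold elemX
  refine Finset.sum_congr rfl fun k _ => ?_
  rw [SS_apply, hω, hω, MultilinearMap.map_update_add, MultilinearMap.map_update_smul,
    MultilinearMap.map_update_smul, smul_eq_mul, smul_eq_mul]
  have h4 : ∀ z : R, ψ (fun l => e (Function.update I k z l)) =
      ψ (Function.update (fun k => e (I k)) k (e z)) := by
    intro z
    congr 1
    funext l
    by_cases hl : l = k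
    · subst hl
      rw [Function.update_self, Function.update_self]
    · rw [Function.update_of_ne hl, Function.update_of_ne hl]
  beta_reduce
  rw [h4, h4]

/-- The matrix of an endomorphism in coordinates. -/
theorem repr_mat (T : V →ₗ[Ω] V) (v : V) (x : R) :
    e.repr (T v) x = ∑ y, (Matrix.of fun x y => e.repr (T (e y)) x) x y * e.repr v y := by
  conv_lhs => rw [← e.sum_repr v]
  rw [map_sum, map_sum, Finsupp.finsetSum_apply]
  refine Finset.sum_congr rfl fun y _ => ?_
  rw [map_smul, map_smul, Finsupp.smul_apply, smul_eq_mul, mul_comm, Matrix.of_apply]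

include hinv hne hjj hj0 hω hωρ hcls hSS hPC hcb in
/-- **The structure of Tate forms.** -/
theorem strA
    (hbk : ∀ (m : ℕ) (φ : MultilinearMap Ω (fun _ : Fin m × Fin 2 => V) Ω), IsTate ρ χ m φ →
      ∀ I : Fin m × Fin 2 → R, φ (fun k => e (I k)) ≠ 0 → ∀ x y, bk x = bk y →
        dl inv I x = dl inv I y)
    {m : ℕ} (φ : MultilinearMap Ω (fun _ : Fin m × Fin 2 => V) Ω) (hφ : IsTate ρ χ m φ) :
    φ ∈ Submodule.span Ω (StrSet e ρ χ bk m) := by
  classical
  obtain ⟨Δφ, hΔφ, hφ'⟩ := hφ
  choose ΔC hΔC hΔC' using hPC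
  -- the components
  let comp : (Fin m × Fin 2 → Q) → MultilinearMap Ω (fun _ : Fin m × Fin 2 => V) Ω :=
    fun t => φ.compLinearMap (fun k => PC e cls (t k))
  have hsum : φ = ∑ t, comp t := by
    refine MultilinearMap.ext fun v => ?_
    rw [_root_.sum_apply]
    have h1 : v = fun k => ∑ c, PC e cls c (v k) := funext fun k => (sum_PC e cls (v k)).symm
    conv_lhs => rw [h1]
    exact φ.map_sum (fun k c => PC e cls c (v k))
  rw [hsum]
  refine Submodule.sum_mem _ fun t _ => ?_
  set ψ := comp t with hψ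
  let Δ₀ : Subgroup Γ := Δφ ⊓ ⨅ c, ΔC c
  have hΔ₀ : Δ₀.FiniteIndex := by
    have h1 := Subgroup.finiteIndex_iInf hΔC
    exact inferInstance
  have hΔ1 : ∀ g ∈ Δ₀, g ∈ Δφ := fun g hg => hg.1
  have hΔ2 : ∀ g ∈ Δ₀, ∀ c v, PC e cls c (ρ g v) = ρ g (PC e cls c v) :=
    fun g hg c v => hΔC' c g (Subgroup.mem_iInf.1 hg.2 c) v
  have hψT : ∀ g ∈ Δ₀, ∀ v, ψ (fun k => ρ g (v k)) = χ g ^ m * ψ v := by
    intro g hg v
    change φ (fun k => PC e cls (t k) (ρ g (v k))) = χ g ^ m * φ (fun k => PC e cls (t k) (v k))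
    simp only [hΔ2 g hg]
    exact hφ' g (hΔ1 g hg) _
  have hψTate : IsTate ρ χ m ψ := ⟨Δ₀, hΔ₀, hψT⟩
  have hψt : ∀ I : Fin m × Fin 2 → R, ψ (fun k => e (I k)) ≠ 0 → ∀ k, cls (I k) = t k := by
    intro I hI k
    by_contra h
    apply hI
    change φ (fun k => PC e cls (t k) (e (I k))) = 0
    refine φ.map_coord_zero k ?_
    rw [PC_basis, if_neg h]
  by_cases hψ0 : ψ = 0
  · rw [hψ0]
    exact Submodule.zero_mem _
  obtain ⟨I₀, hI₀⟩ : ∃ I₀ : Fin m × Fin 2 → R, ψ (fun k => e (I₀ k)) ≠ 0 := by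
    by_contra h
    push Not at h
    exact hψ0 (Basis.ext_multilinear (fun _ => e) h)
  have hδb : ∀ I : Fin m × Fin 2 → R, ψ (fun k => e (I k)) ≠ 0 → ∀ x y, bk x = bk y →
      dl inv I x = dl inv I y := hbk m ψ hψTate
  have hδc : ∀ I : Fin m × Fin 2 → R, ψ (fun k => e (I k)) ≠ 0 → ∀ x y, cls x = cls y →
      dl inv I x = dl inv I y := fun I hI x y h => hδb I hI x y (hcb x y h)
  have hδI : ∀ I : Fin m × Fin 2 → R, ψ (fun k => e (I k)) ≠ 0 → ∀ y,
      dl inv I y = dl inv I₀ y := fun I hI y =>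
    dl_eq hinv cls hcls (fun k => (hψt I hI k).trans (hψt I₀ hI₀ k).symm) (hδc I hI) (hδc I₀ hI₀) y
  let dp : Q → ℕ := fun c => if h : ∃ y, cls y = c then (dl inv I₀ h.choose).toNat else 0
  have hdpc : ∀ y, dp (cls y) = (dl inv I₀ y).toNat := by
    intro y
    have h : ∃ z, cls z = cls y := ⟨y, rfl⟩
    simp only [dp]
    rw [dif_pos h, hδc I₀ hI₀ _ _ h.choose_spec]
  have hdpb : ∀ x y, bk x = bk y → dp (cls x) = dp (cls y) := by
    intro x y h
    rw [hdpc, hdpc, hδb I₀ hI₀ x y h]
  have hdprep : ∀ c, 0 < dp c → ∃ y, cls y = c := by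
    intro c hc
    by_contra h
    simp only [dp] at hc
    rw [dif_neg h] at hc
    exact lt_irrefl _ hc
  choose rep hrep using hdprep
  let C : (Σ c : Q, Fin (dp c)) → Q := fun q => q.1
  have hpos : ∀ q : (Σ c : Q, Fin (dp c)), 0 < dp q.1 := fun q => lt_of_le_of_lt (Nat.zero_le _) q.2.2
  let Cs : (Σ c : Q, Fin (dp c)) → Q := fun q => cls (inv (rep q.1 (hpos q)))
  have hCs : ∀ q (y : Mem cls (C q)), cls (inv y.1) = Cs q := by
    intro q y
    exact hcls _ _ (y.2.trans (hrep q.1 (hpos q)).symm)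
  have hneC : ∀ q q', Cs q ≠ C q' := by
    intro q q' h
    have h1 : cls (inv (rep q.1 (hpos q))) = cls (rep q'.1 (hpos q')) := h.trans (hrep q'.1 (hpos q')).symm
    have h2 := hδc I₀ hI₀ _ _ h1
    rw [dl_inv hinv] at h2
    have h3 := hpos q
    have h4 := hpos q'
    have h5 := hdpc (rep q.1 (hpos q))
    have h6 := hdpc (rep q'.1 (hpos q'))
    rw [hrep] at h5 h6
    omega
  have hFF : (fun I : Fin m × Fin 2 → R => ψ (fun k => e (I k))) ∈
      Submodule.span Ω (PD (Fin m × Fin 2) cls inv jj C) := by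
    refine sl_fft hinv hjj hj0 hcls C Cs hCs hneC (t := t) hψt ?_
    intro b c hbc I
    by_cases hc : c = inv b
    · subst hc
      rw [elemX_diag hinv hjj]
      have h1 : ∀ q : (Σ c : Q, Fin (dp c)), mu (cls := cls) inv jj (C q) b (inv b) =
          jj b * ((if q.1 = cls b then 1 else 0) - (if q.1 = cls (inv b) then 1 else 0)) := by
        intro q
        unfold mu
        rw [hinv, hjj]
        simp only [C, and_true]
        have e1 : (cls b = q.1) = (q.1 = cls b) := propext eq_comm
        have e2 : (cls (inv b) = q.1) = (q.1 = cls (inv b)) := propext eq_comm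
        simp only [e1, e2]
        split_ifs <;> ring
      rw [Finset.sum_congr rfl (fun q _ => h1 q), ← Finset.mul_sum, Finset.sum_sub_distrib]
      have h2 : ∀ c₀ : Q, ∑ q : (Σ c : Q, Fin (dp c)), (if q.1 = c₀ then (1 : Ω) else 0) = dp c₀ := by
        intro c₀
        rw [Fintype.sum_sigma, Finset.sum_eq_single c₀]
        · simp
        · intro c _ hc
          exact Finset.sum_eq_zero fun j _ => if_neg hc
        · intro h
          exact absurd (Finset.mem_univ _) h
      rw [h2, h2, hdpc, hdpc, dl_inv hinv]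
      by_cases hI : ψ (fun k => e (I k)) = 0
      · simp only [hI, mul_zero]
      · rw [hδI I hI b]
        have h3 : (((dl inv I₀ b).toNat : ℕ) : Ω) - (((-dl inv I₀ b).toNat : ℕ) : Ω) =
            ((dl inv I₀ b : ℤ) : Ω) := by
          have h4 : (((dl inv I₀ b).toNat : ℕ) : ℤ) - (((-dl inv I₀ b).toNat : ℕ) : ℤ) =
            dl inv I₀ b := by omega
          have h5 := congrArg (fun z : ℤ => (z : Ω)) h4
          simp only [Int.cast_sub, Int.cast_natCast] at h5
          exact h5
        rw [h3]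
    · have h1 : elemX inv jj b c (fun I => ψ (fun k => e (I k))) I = 0 :=
        elemX_kill e ω hω (hSS b c hbc hc m ψ hψTate) I
      rw [h1]
      have h2 : ∑ q : (Σ c : Q, Fin (dp c)), mu (cls := cls) inv jj (C q) b c = 0 := by
        refine Finset.sum_eq_zero fun q _ => ?_
        unfold mu
        rw [if_neg (fun h => hc h.2), if_neg, add_zero]
        rintro ⟨-, h⟩
        apply hc
        rw [h, hinv]
      rw [h2, zero_mul, neg_zero]
  -- the number of positions
  have hcard : ∃ (m' : ℕ), Fintype.card (PosI cls dp) = m' * 2 ∧ m' ≤ m := by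
    have h1 : ∃ H ∈ PD (Fin m × Fin 2) cls inv jj C, H I₀ ≠ 0 := by
      by_contra h
      push Not at h
      have h2 : ∀ H ∈ Submodule.span Ω (PD (Fin m × Fin 2) cls inv jj C), H I₀ = 0 := by
        intro H hH
        induction hH using Submodule.span_induction with
        | mem H hH => exact h H hH
        | zero => rfl
        | add a b _ _ ha hb => rw [Pi.add_apply, ha, hb, add_zero]
        | smul c a _ ha => rw [Pi.smul_apply, ha, smul_zero]
      exact hI₀ (h2 _ hFF)
    obtain ⟨H, ⟨m₁, S0, e2, c, -⟩, -⟩ := h1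
    have h2 := Fintype.card_congr e2
    rw [Fintype.card_sum, Fintype.card_prod, Fintype.card_prod, Fintype.card_fin,
      Fintype.card_fin] at h2
    refine ⟨m - Fintype.card S0, ?_, Nat.sub_le _ _⟩
    change Fintype.card (Pos cls C) = _
    omega
  obtain ⟨m', hm', hmm⟩ := hcard
  let pe : PosI cls dp ≃ Fin m' × Fin 2 := Fintype.equivOfCardEq (by
    rw [hm', Fintype.card_prod, Fintype.card_fin, Fintype.card_fin])
  let W : MultilinearMap Ω (fun _ : Fin m' × Fin 2 => V) Ω :=
    (Wd e cls dp bk).domDomCongr pe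
  have hW : ∀ v, W v = Wd e cls dp bk (fun z => v (pe z)) := fun v => rfl
  let P : Fin m' × Fin 2 → (V →ₗ[Ω] V) := fun k => PC e cls (pe.symm k).1.1
  -- the factor
  let Gm : Γ → Matrix R R Ω := fun g => Matrix.of fun x y => e.repr (ρ g (e y)) x
  let d : Γ → Ω := fun g => (Gh cls dp (Gm g)).det
  have hWg : ∀ g ∈ Δ₀, ∀ v, W (fun k => ρ g (v k)) = d g * W v := by
    intro g hg v
    rw [hW, hW, mul_comm]
    refine Wd_trans e cls dp bk (T := ρ g) (G := Gm g) (repr_mat e (ρ g)) ?_ hdpb _
    intro x y hxy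
    have h1 : cls x ≠ cls y := fun h => hxy (hcb x y h)
    have h2 : PC e cls (cls x) (ρ g (e y)) = 0 := by
      rw [hΔ2 g hg, PC_basis, if_neg (fun h => h1 h.symm), map_zero]
    have h3 := PC_repr e cls (cls x) (ρ g (e y)) x
    rw [h2, if_pos rfl, map_zero, Finsupp.zero_apply] at h3
    exact h3.symm
  -- the products
  have hprod : ψ ∈ Submodule.span Ω {Ψ : MultilinearMap Ω (fun _ : Fin m × Fin 2 => V) Ω |
      ∃ (s : ℕ) (e2 : (Fin s × Fin 2) ⊕ (Fin m' × Fin 2) ≃ Fin m × Fin 2) (c : Fin s → Q),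
        Ψ = prodT e2 (fun j => ω.comp (PC e cls (c j))) W P} := by
    let coef : MultilinearMap Ω (fun _ : Fin m × Fin 2 => V) Ω →ₗ[Ω]
        ((Fin m × Fin 2 → R) → Ω) :=
      { toFun := fun φ I => φ (fun k => e (I k))
        map_add' := fun _ _ => rfl
        map_smul' := fun _ _ => rfl }
    have hinj : Function.Injective coef := fun φ φ' h =>
      Basis.ext_multilinear (fun _ => e) fun I => congrFun h I
    have h3 : Submodule.span Ω (PD (Fin m × Fin 2) cls inv jj C) ≤
        (Submodule.span Ω {Ψ : MultilinearMap Ω (fun _ : Fin m × Fin 2 => V) Ω |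
      ∃ (s : ℕ) (e2 : (Fin s × Fin 2) ⊕ (Fin m' × Fin 2) ≃ Fin m × Fin 2) (c : Fin s → Q),
        Ψ = prodT e2 (fun j => ω.comp (PC e cls (c j))) W P}).map coef := by
      rw [Submodule.span_le]
      rintro _ ⟨m₁, S0, e2, c, rfl⟩
      let ε : Fin (Fintype.card S0) ≃ S0 := (Fintype.equivFin S0).symm
      let e3 : (Fin (Fintype.card S0) × Fin 2) ⊕ (Fin m' × Fin 2) ≃ Fin m × Fin 2 :=
        (Equiv.sumCongr (Equiv.prodCongr ε (Equiv.refl _)) pe.symm).trans e2
      refine ⟨_, Submodule.subset_span ⟨Fintype.card S0, e3, fun j => c (ε j), rfl⟩, ?_⟩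
      funext I
      change prodT e3 _ W P (fun k => e (I k)) = _
      rw [prodT_apply]
      congr 1
      · rw [← Equiv.prod_comp ε]
        refine Finset.prod_congr rfl fun j _ => ?_
        change ω (PC e cls (c (ε j)) (e (I (e2 (Sum.inl (ε j, 0)))))) (e (I (e2 (Sum.inl (ε j, 1))))) = _
        rw [PC_basis]
        split_ifs
        · rw [hω]
        · rw [map_zero, LinearMap.zero_apply]
      · rw [hW]
        have h4 : (fun z : PosI cls dp => P (pe z) (e (I (e3 (Sum.inr (pe z)))))) =
            fun z => PC e cls z.1.1 (e (I (e2 (Sum.inr z)))) := by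
          funext z
          change PC e cls (pe.symm (pe z)).1.1 (e (I (e2 (Sum.inr (pe.symm (pe z)))))) = _
          rw [Equiv.symm_apply_apply]
        rw [h4, ← Wd_PC e cls dp bk hcb (fun z => e (I (e2 (Sum.inr z)))), Wd_cls]
        refine Finset.prod_congr rfl fun q _ => ?_
        congr 1
        ext y y'
        rw [Matrix.of_apply, Matrix.of_apply, e.repr_self, Finsupp.single_apply]
    obtain ⟨φ', hφ', hφφ⟩ := h3 hFF
    have h4 : φ' = ψ := hinj hφφ
    rw [← h4]
    exact hφ'
  -- the form is a Tate form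
  have hPg : ∀ g ∈ Δ₀, ∀ k v, P k (ρ g v) = ρ g (P k v) := fun g hg k v => hΔ2 g hg _ v
  have hβg : ∀ g ∈ Δ₀, ∀ c u v, (ω.comp (PC e cls c)) (ρ g u) (ρ g v) =
      χ g * (ω.comp (PC e cls c)) u v := by
    intro g hg c u v
    rw [LinearMap.comp_apply, LinearMap.comp_apply, hΔ2 g hg, hωρ]
  have hψg : ∀ g ∈ Δ₀, ∀ v, ψ (fun k => ρ g (v k)) = χ g ^ (m - m') * d g * ψ v := by
    intro g hg
    refine Submodule.span_induction (p := fun Ψ _ => ∀ v,
      Ψ (fun k => ρ g (v k)) = χ g ^ (m - m') * d g * Ψ v) ?_ ?_ ?_ ?_ hprod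
    · rintro _ ⟨s, e2, c, rfl⟩ v
      have hs : s = m - m' := by
        have h2 := Fintype.card_congr e2
        rw [Fintype.card_sum, Fintype.card_prod, Fintype.card_prod, Fintype.card_prod,
          Fintype.card_fin, Fintype.card_fin, Fintype.card_fin, Fintype.card_fin] at h2
        omega
      rw [prodT_apply, prodT_apply]
      simp only [hPg g hg]
      rw [hWg g hg]
      simp only [hβg g hg]
      rw [Finset.prod_mul_distrib, Finset.prod_const, Finset.card_univ, Fintype.card_fin, ← hs]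
      ring
    · intro v
      exact (mul_zero _).symm
    · intro a b _ _ ha hb v
      rw [_root_.add_apply, _root_.add_apply, ha, hb, mul_add]
    · intro c a _ ha v
      rw [_root_.smul_apply, _root_.smul_apply, ha, smul_eq_mul, smul_eq_mul]
      ring
  have hd : ∀ g ∈ Δ₀, d g = χ g ^ m' := by
    intro g hg
    have h1 := hψT g hg (fun k => e (I₀ k))
    rw [hψg g hg] at h1
    have h2 := mul_right_cancel₀ hI₀ h1
    have h3 : χ g ^ m = χ g ^ (m - m') * χ g ^ m' := by
      rw [← pow_add]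
      congr 1
      omega
    rw [h3] at h2
    exact mul_left_cancel₀ (pow_ne_zero _ (chi_ne χ g)) h2
  have hWT : IsTate ρ χ m' W := ⟨Δ₀, hΔ₀, fun g hg v => by rw [hWg g hg, hd g hg]⟩
  have hWS : SpecF e bk W := by
    intro T G hG hG0 hdet v
    rw [hW, hW, Wd_trans e cls dp bk (T := T) hG hG0 hdpb, det_Gh cls dp bk hG0 hdpb hdet, mul_one]
  refine Submodule.span_mono ?_ hprod
  rintro _ ⟨s, e2, c, rfl⟩
  exact ⟨s, m', e2, _, W, P, fun j => ⟨Δ₀, hΔ₀, fun g hg u v => hβg g hg (c j) u v⟩,
    fun k => ⟨Δ₀, hΔ₀, fun g hg v => hPg g hg k v⟩, hWT, hWS, rfl⟩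

end

end Pool.Agent.Q43.HL
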