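import Pool.Agent.Q43.HL.Str2

/-!
# The structure of Tate forms for an element without relations of length four
-/

set_option autoImplicit false
set_option linter.unusedSectionVars false

namespace Pool.Agent.Q43.HL

open Module Matrix Pool.Agent.H204R3.CM Pool.Agent.H204R3.SP Pool.Agent.H204R3.GP Pool.Agent.Y90
  Pool.Agent.W516.FT

noncomputable section

variable {Ω : Type} [Field Ω] [CharZero Ω] {V : Type} [AddCommGroup V] [Module Ω V]
  {R : Type} [Fintype R] [DecidableEq R] (e : Basis R Ω V) {inv : R → R} {jj : R → Ω}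
  (hinv : ∀ x, inv (inv x) = x) (hne : ∀ x, inv x ≠ x)
  (hjj : ∀ x, jj (inv x) = -jj x) (hj0 : ∀ x, jj x ≠ 0)
  (ω : V →ₗ[Ω] V →ₗ[Ω] Ω) (hω : ∀ x y, ω (e x) (e y) = JJ inv jj x y)
  {Γ : Type} [Group Γ] (ρ : Representation Ω Γ V) (χ : Γ →* Ω)
  (hωρ : ∀ s u v, ω (ρ s u) (ρ s v) = χ s * ω u v) (hss : HasProj ρ)
  {γ : Γ} {a : R → Ω} (hγ : ∀ x, ρ γ (e x) = a x • e x)
  {q : Ω} (hq0 : q ≠ 0) (hq : ∀ x, a x * a (inv x) = q) (hχ : χ γ = q) (h4 : Four inv a q)
  {L : Type} [DecidableEq L] (bk : R → L)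
  (hb1 : ∀ x y, (∀ (m : ℕ) (φ : MultilinearMap Ω (fun _ : Fin m × Fin 2 => V) Ω),
    IsTate ρ χ m φ → ∀ I : Fin m × Fin 2 → R, φ (fun k => e (I k)) ≠ 0 →
      dl inv I x = dl inv I y) → bk x = bk y)

include hinv hne hjj hj0 hω hωρ hss hγ hq0 hq hχ h4 hb1 in
theorem bk_of_CC {x y : R} (h : y ∈ CC e (nrm ω ρ χ) ω inv x) : bk x = bk y := by
  refine hb1 x y fun m φ hφ I hI => ?_
  have h2 := DD_sub_mem e hinv hne hjj hj0 ω hω ρ χ hωρ hss hγ hq0 hq hχ h4 h m φ hφ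
  have h3 : DD e inv x - DD e inv y = dg e (fun z => dd inv x z - dd inv y z) := by
    refine e.ext fun z => ?_
    rw [LinearMap.sub_apply, DD_basis, DD_basis, dg_basis, sub_smul]
  rw [h3, kills_dg] at h2
  have h4 := h2 I hI
  rw [Finset.sum_sub_distrib, sum_dd, sum_dd] at h4
  have h5 : ((dl inv I x : ℤ) : Ω) = ((dl inv I y : ℤ) : Ω) := by
    unfold dl
    push_cast
    linear_combination h4
  exact_mod_cast h5

include hinv hne hjj hj0 hω hωρ hss hγ hq0 hq hχ h4 hb1 in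
/-- Diagonal endomorphisms that are constant on the blocks are almost equivariant. -/
theorem dg_block (c : R → Ω) (hc : ∀ x y, bk x = bk y → c x = c y) :
    AlmostEquivariant ρ (dg e c) :=
  dg_almost e hinv hne hjj hj0 ω hω ρ χ hωρ hγ hq0 hq h4 c fun y z hz =>
    (hc y z (bk_of_CC e hinv hne hjj hj0 ω hω ρ χ hωρ hss hγ hq0 hq hχ h4 bk hb1 hz)).symm

include hinv hne hjj hj0 hω hωρ hss hγ hq0 hq hχ h4 hb1 in
/-- The structure of Tate forms. -/
theorem strB
    (hbk : ∀ (m : ℕ) (φ : MultilinearMap Ω (fun _ : Fin m × Fin 2 => V) Ω), IsTate ρ χ m φ →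
      ∀ I : Fin m × Fin 2 → R, φ (fun k => e (I k)) ≠ 0 → ∀ x y, bk x = bk y →
        dl inv I x = dl inv I y)
    {m : ℕ} (φ : MultilinearMap Ω (fun _ : Fin m × Fin 2 => V) Ω) (hφ : IsTate ρ χ m φ) :
    φ ∈ Submodule.span Ω (StrSet e ρ χ bk m) := by
  classical
  let S : Setoid R :=
    { r := fun x z => z ∈ CC e (nrm ω ρ χ) ω inv x
      iseqv :=
        { refl := fun x => Or.inl rfl
          symm := fun h => nCC_symm e hinv hne hjj hj0 ω hω ρ χ hωρ hss hγ hq0 hq h4 h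
          trans := fun h h' => nCC_trans e hinv hne hjj hj0 ω hω ρ χ hωρ hγ hq0 hq h4 h h' } }
  let cls : R → Quotient S := Quotient.mk S
  have hcls' : ∀ x z, cls x = cls z ↔ z ∈ CC e (nrm ω ρ χ) ω inv x := fun x z => Quotient.eq
  have hcls : ∀ x y, cls x = cls y → cls (inv x) = cls (inv y) := by
    intro x y h
    symm
    rw [hcls'] at h ⊢
    exact CC_inv e (nrm ω ρ χ) ω hinv h
  have _ : Fintype (Quotient S) := Fintype.ofFinite _
  refine strA e hinv hne hjj hj0 ω hω ρ χ hωρ cls hcls (fun b c hbc hc => ?_) (fun c => ?_) bk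
    (fun x y h => ?_) hbk φ hφ
  · have h1 := ((hcls' _ _).1 hbc).resolve_left hc
    rw [hinv] at h1
    exact SS_lieT e hinv hne hjj hj0 ω hω ρ χ hγ hq0 hq hχ h4 hc h1
  · have h1 : PC e cls c = dg e (fun y => if cls y = c then 1 else 0) := by
      refine e.ext fun x => ?_
      rw [PC_basis, dg_basis]
      split_ifs
      · rw [one_smul]
      · rw [zero_smul]
    rw [h1]
    refine dg_almost e hinv hne hjj hj0 ω hω ρ χ hωρ hγ hq0 hq h4 _ fun y z hz => ?_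
    rw [(hcls' y z).2 hz]
  · exact bk_of_CC e hinv hne hjj hj0 ω hω ρ χ hωρ hss hγ hq0 hq hχ h4 bk hb1 ((hcls' x y).1 h)

end

end Pool.Agent.Q43.HL
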