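import Pool.Agent.Q43.HL.Typ
import Pool.Agent.Q43.HL.Str3

/-!
# Descent of the structure theorem to the rational numbers
-/

set_option autoImplicit false
set_option linter.unusedSectionVars false

namespace Pool.Agent.Q43.HL

open Module Matrix NumberField Pool.Agent.H204R3.CM Pool.Agent.H204R3.SP Pool.Agent.H204R3.GP
  Pool.Agent.W516.MTD Pool.Agent.TH170.LV Pool.Agent.W516.FT

noncomputable section

section multi

variable {K : Type} [Field K] {M N : Type} [AddCommGroup M] [Module K M] [AddCommGroup N]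
  [Module K N] {κ : Type} [Fintype κ] [DecidableEq κ]

/-- The values of a multilinear function at combinations. -/
theorem multi_span (f : (κ → M) → N)
    (hadd : ∀ x k a b, f (Function.update x k (a + b)) =
      f (Function.update x k a) + f (Function.update x k b))
    (hsmul : ∀ x k (c : K) a, f (Function.update x k (c • a)) = c • f (Function.update x k a))
    (S : Set M) (x : κ → M) (hx : ∀ k, x k ∈ Submodule.span K S) :
    f x ∈ Submodule.span K {y | ∃ x' : κ → M, (∀ k, x' k ∈ S) ∧ y = f x'} := by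
  have key : ∀ (s : Finset κ) (x : κ → M), (∀ l ∈ s, x l ∈ Submodule.span K S) →
      (∀ l ∉ s, x l ∈ S) →
      f x ∈ Submodule.span K {y | ∃ x' : κ → M, (∀ k, x' k ∈ S) ∧ y = f x'} := by
    intro s
    induction s using Finset.induction_on with
    | empty =>
      intro x _ h2
      exact Submodule.subset_span ⟨x, fun l => h2 l (Finset.notMem_empty l), rfl⟩
    | insert i s hi ih =>
      intro x h1 h2
      have h3 : ∀ z ∈ Submodule.span K S, f (Function.update x i z) ∈
          Submodule.span K {y | ∃ x' : κ → M, (∀ k, x' k ∈ S) ∧ y = f x'} := by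
        intro z hz
        induction hz using Submodule.span_induction with
        | mem z hz =>
          apply ih
          · intro l hl
            have hli : l ≠ i := by
              rintro rfl
              exact hi hl
            rw [Function.update_of_ne hli]
            exact h1 l (Finset.mem_insert_of_mem hl)
          · intro l hl
            by_cases h : l = i
            · rw [h, Function.update_self]
              exact hz
            · rw [Function.update_of_ne h]
              exact h2 l (by rw [Finset.mem_insert, not_or]; exact ⟨h, hl⟩)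
        | zero =>
          have h4 := hsmul x i 0 0
          rw [zero_smul, zero_smul] at h4
          rw [h4]
          exact Submodule.zero_mem _
        | add a b _ _ ha hb =>
          rw [hadd]
          exact Submodule.add_mem _ ha hb
        | smul c a _ ha =>
          rw [hsmul]
          exact Submodule.smul_mem _ _ ha
      have h4 := h3 (x i) (h1 i (Finset.mem_insert_self i s))
      rwa [Function.update_eq_self] at h4
  exact key Finset.univ x (fun l _ => hx l) (fun l hl => absurd (Finset.mem_univ l) hl)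

variable {W : Type} [AddCommGroup W] [Module K W] {s m' : ℕ}
  (e2 : (Fin s × Fin 2) ⊕ (Fin m' × Fin 2) ≃ κ)

theorem prodT_beta_add (β : Fin s → (W →ₗ[K] W →ₗ[K] K))
    (w : MultilinearMap K (fun _ : Fin m' × Fin 2 => W) K) (P : Fin m' × Fin 2 → (W →ₗ[K] W))
    (i : Fin s) (a b : W →ₗ[K] W →ₗ[K] K) :
    prodT e2 (Function.update β i (a + b)) w P =
      prodT e2 (Function.update β i a) w P + prodT e2 (Function.update β i b) w P := by
  refine MultilinearMap.ext fun v => ?_
  rw [_root_.add_apply, prodT_apply, prodT_apply, prodT_apply, ← add_mul]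
  congr 1
  rw [← Finset.mul_prod_erase _ _ (Finset.mem_univ i), ← Finset.mul_prod_erase _ _
    (Finset.mem_univ i), ← Finset.mul_prod_erase _ _ (Finset.mem_univ i)]
  simp only [Function.update_self, LinearMap.add_apply]
  rw [add_mul]
  congr 1
  · congr 1
    refine Finset.prod_congr rfl fun l hl => ?_
    rw [Function.update_of_ne (Finset.ne_of_mem_erase hl),
      Function.update_of_ne (Finset.ne_of_mem_erase hl)]
  · congr 1
    refine Finset.prod_congr rfl fun l hl => ?_
    rw [Function.update_of_ne (Finset.ne_of_mem_erase hl),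
      Function.update_of_ne (Finset.ne_of_mem_erase hl)]

theorem prodT_beta_smul (β : Fin s → (W →ₗ[K] W →ₗ[K] K))
    (w : MultilinearMap K (fun _ : Fin m' × Fin 2 => W) K) (P : Fin m' × Fin 2 → (W →ₗ[K] W))
    (i : Fin s) (c : K) (a : W →ₗ[K] W →ₗ[K] K) :
    prodT e2 (Function.update β i (c • a)) w P = c • prodT e2 (Function.update β i a) w P := by
  refine MultilinearMap.ext fun v => ?_
  rw [_root_.smul_apply, prodT_apply, prodT_apply, smul_eq_mul, ← mul_assoc]
  congr 1
  rw [← Finset.mul_prod_erase _ _ (Finset.mem_univ i), ← Finset.mul_prod_erase _ _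
    (Finset.mem_univ i)]
  simp only [Function.update_self, LinearMap.smul_apply, smul_eq_mul]
  rw [mul_assoc]
  congr 2
  refine Finset.prod_congr rfl fun l hl => ?_
  rw [Function.update_of_ne (Finset.ne_of_mem_erase hl),
    Function.update_of_ne (Finset.ne_of_mem_erase hl)]

theorem upd_eval {κ' : Type} [DecidableEq κ'] (P : κ' → (W →ₗ[K] W)) (i : κ') (a : W →ₗ[K] W)
    (v : κ' → W) : (fun k => (Function.update P i a) k (v k)) =
      Function.update (fun k => P k (v k)) i (a (v i)) := by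
  funext k
  by_cases h : k = i
  · subst h
    rw [Function.update_self, Function.update_self]
  · rw [Function.update_of_ne h, Function.update_of_ne h]

theorem prodT_P_add (β : Fin s → (W →ₗ[K] W →ₗ[K] K))
    (w : MultilinearMap K (fun _ : Fin m' × Fin 2 => W) K) (P : Fin m' × Fin 2 → (W →ₗ[K] W))
    (i : Fin m' × Fin 2) (a b : W →ₗ[K] W) :
    prodT e2 β w (Function.update P i (a + b)) =
      prodT e2 β w (Function.update P i a) + prodT e2 β w (Function.update P i b) := by
  refine MultilinearMap.ext fun v => ?_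
  rw [_root_.add_apply, prodT_apply, prodT_apply, prodT_apply, ← mul_add]
  congr 1
  rw [upd_eval P i (a + b) (fun k => v (e2 (Sum.inr k))), upd_eval P i a
    (fun k => v (e2 (Sum.inr k))), upd_eval P i b (fun k => v (e2 (Sum.inr k))),
    LinearMap.add_apply, MultilinearMap.map_update_add]

theorem prodT_P_smul (β : Fin s → (W →ₗ[K] W →ₗ[K] K))
    (w : MultilinearMap K (fun _ : Fin m' × Fin 2 => W) K) (P : Fin m' × Fin 2 → (W →ₗ[K] W))
    (i : Fin m' × Fin 2) (c : K) (a : W →ₗ[K] W) :
    prodT e2 β w (Function.update P i (c • a)) = c • prodT e2 β w (Function.update P i a) := by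
  refine MultilinearMap.ext fun v => ?_
  rw [_root_.smul_apply, prodT_apply, prodT_apply, smul_eq_mul, mul_left_comm]
  congr 1
  rw [upd_eval P i (c • a) (fun k => v (e2 (Sum.inr k))), upd_eval P i a
    (fun k => v (e2 (Sum.inr k))), LinearMap.smul_apply, MultilinearMap.map_update_smul, smul_eq_mul]

theorem prodT_w_span (β : Fin s → (W →ₗ[K] W →ₗ[K] K)) (P : Fin m' × Fin 2 → (W →ₗ[K] W))
    (S : Set (MultilinearMap K (fun _ : Fin m' × Fin 2 => W) K))
    {w : MultilinearMap K (fun _ : Fin m' × Fin 2 => W) K} (hw : w ∈ Submodule.span K S) :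
    prodT e2 β w P ∈ Submodule.span K {Ψ | ∃ w' ∈ S, Ψ = prodT e2 β w' P} := by
  induction hw using Submodule.span_induction with
  | mem w hw => exact Submodule.subset_span ⟨w, hw, rfl⟩
  | zero =>
    have h1 : prodT e2 β 0 P = 0 := by
      refine MultilinearMap.ext fun v => ?_
      rw [prodT_apply]
      exact mul_zero _
    rw [h1]
    exact Submodule.zero_mem _
  | add a b _ _ ha hb =>
    have h1 : prodT e2 β (a + b) P = prodT e2 β a P + prodT e2 β b P := by
      refine MultilinearMap.ext fun v => ?_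
      rw [_root_.add_apply, prodT_apply, prodT_apply, prodT_apply, _root_.add_apply, mul_add]
    rw [h1]
    exact Submodule.add_mem _ ha hb
  | smul c a _ ha =>
    have h1 : prodT e2 β (c • a) P = c • prodT e2 β a P := by
      refine MultilinearMap.ext fun v => ?_
      have e1 : (c • prodT e2 β a P) v = c * prodT e2 β a P v := rfl
      have e3 : (c • a) (fun k => P k (v (e2 (Sum.inr k)))) =
        c * a (fun k => P k (v (e2 (Sum.inr k)))) := rfl
      rw [e1, prodT_apply, prodT_apply, e3, mul_left_comm]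
    rw [h1]
    exact Submodule.smul_mem _ c ha

theorem prodT_span1 {S1 : Set (W →ₗ[K] W →ₗ[K] K)}
    {β : Fin s → (W →ₗ[K] W →ₗ[K] K)} {w : MultilinearMap K (fun _ : Fin m' × Fin 2 => W) K}
    {P : Fin m' × Fin 2 → (W →ₗ[K] W)} (hβ : ∀ j, β j ∈ Submodule.span K S1) :
    prodT e2 β w P ∈ Submodule.span K {Ψ | ∃ (β' : Fin s → (W →ₗ[K] W →ₗ[K] K)),
      (∀ j, β' j ∈ S1) ∧ Ψ = prodT e2 β' w P} := by
  refine multi_span (K := K) (M := W →ₗ[K] W →ₗ[K] K) (N := MultilinearMap K (fun _ : κ => W) K)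
    (fun β => prodT e2 β w P) ?_ ?_ S1 β hβ
  · intro β i a b
    exact prodT_beta_add e2 β w P i a b
  · intro β i c a
    exact prodT_beta_smul e2 β w P i c a

theorem prodT_span3 {S3 : Set (W →ₗ[K] W)}
    {β : Fin s → (W →ₗ[K] W →ₗ[K] K)} {w : MultilinearMap K (fun _ : Fin m' × Fin 2 => W) K}
    {P : Fin m' × Fin 2 → (W →ₗ[K] W)} (hP : ∀ k, P k ∈ Submodule.span K S3) :
    prodT e2 β w P ∈ Submodule.span K {Ψ | ∃ (P' : Fin m' × Fin 2 → (W →ₗ[K] W)),
      (∀ k, P' k ∈ S3) ∧ Ψ = prodT e2 β w P'} := by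
  refine multi_span (K := K) (M := W →ₗ[K] W) (N := MultilinearMap K (fun _ : κ => W) K)
    (fun P => prodT e2 β w P) ?_ ?_ S3 P hP
  · intro P i a b
    exact prodT_P_add e2 β w P i a b
  · intro P i c a
    exact prodT_P_smul e2 β w P i c a

/-- The values of the product at combinations. -/
theorem prodT_span {S1 : Set (W →ₗ[K] W →ₗ[K] K)}
    {S2 : Set (MultilinearMap K (fun _ : Fin m' × Fin 2 => W) K)} {S3 : Set (W →ₗ[K] W)}
    {β : Fin s → (W →ₗ[K] W →ₗ[K] K)} {w : MultilinearMap K (fun _ : Fin m' × Fin 2 => W) K}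
    {P : Fin m' × Fin 2 → (W →ₗ[K] W)} (hβ : ∀ j, β j ∈ Submodule.span K S1)
    (hw : w ∈ Submodule.span K S2) (hP : ∀ k, P k ∈ Submodule.span K S3) :
    prodT e2 β w P ∈ Submodule.span K {Ψ | ∃ (β' : Fin s → (W →ₗ[K] W →ₗ[K] K))
      (w' : MultilinearMap K (fun _ : Fin m' × Fin 2 => W) K) (P' : Fin m' × Fin 2 → (W →ₗ[K] W)),
      (∀ j, β' j ∈ S1) ∧ w' ∈ S2 ∧ (∀ k, P' k ∈ S3) ∧ Ψ = prodT e2 β' w' P'} := by
  refine Submodule.span_le.2 ?_ (prodT_span1 e2 (w := w) (P := P) hβ)
  rintro _ ⟨β', hβ', rfl⟩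
  refine Submodule.span_le.2 ?_ (prodT_span3 e2 (β := β') (w := w) hP)
  rintro _ ⟨P', hP', rfl⟩
  refine Submodule.span_mono ?_ (prodT_w_span e2 β' P' S2 hw)
  rintro _ ⟨w', hw', rfl⟩
  exact ⟨β', w', P', hβ', hw', hP', rfl⟩

end multi

section desc

variable {B κ : Type} [Fintype B] [DecidableEq B] [Fintype κ] [DecidableEq κ]

/-- The forms invariant under a matrix. -/
def invS (M : Matrix B B ℂ) : Submodule ℂ (Frm κ B) where
  carrier := {φ | ∀ v, φ (fun l => M *ᵥ v l) = φ v}
  zero_mem' := fun _ => rfl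
  add_mem' := by
    intro a b ha hb v
    rw [_root_.add_apply, _root_.add_apply, ha v, hb v]
  smul_mem' := by
    intro c a ha v
    rw [_root_.smul_apply, _root_.smul_apply, ha v]

/-- Descent, with invariance under rational matrices. -/
theorem mem_span_inv {P : Matrix B B ℂ} {GM : Set (Matrix B B ℂ)}
    (hGM : ∀ M ∈ GM, ∀ σ : ℂ ≃+* ℂ, M.map σ = M) {φ : Frm κ B}
    (h : ∀ σ : ℂ ≃+* ℂ, Bal (P.map σ) φ) (h' : ∀ M ∈ GM, ∀ v, φ (fun l => M *ᵥ v l) = φ v) :
    φ ∈ Submodule.span ℂ {φ' : Frm κ B | HT P φ' ∧ ∀ M ∈ GM, ∀ v, φ' (fun l => M *ᵥ v l) = φ' v} := by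
  let L : ((κ → B) → ℂ) →ₗ[ℂ] Frm κ B :=
    { toFun := fun c => ∑ I, c I • crd I
      map_add' := by
        intro a b
        rw [← Finset.sum_add_distrib]
        exact Finset.sum_congr rfl fun I _ => by rw [Pi.add_apply, add_smul]
      map_smul' := by
        intro r a
        rw [RingHom.id_apply, Finset.smul_sum]
        exact Finset.sum_congr rfl fun I _ => by rw [Pi.smul_apply, smul_eq_mul, mul_smul] }
  have hL : ∀ c, cf (L c) = c := fun c => funext fun I => cf_sum c I
  have hL' : ∀ φ : Frm κ B, L (cf φ) = φ := fun φ => (eq_sum φ).symm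
  let C : Submodule ℂ ((κ → B) → ℂ) :=
    ((⨅ σ : ℂ ≃+* ℂ, balS (P.map σ)) ⊓ ⨅ M : GM, invS M.1).comap L
  have hCm : ∀ c, c ∈ C ↔ (∀ σ : ℂ ≃+* ℂ, Bal (P.map σ) (L c)) ∧
      ∀ M ∈ GM, ∀ v, L c (fun l => M *ᵥ v l) = L c v := by
    intro c
    change L c ∈ ((⨅ σ : ℂ ≃+* ℂ, balS (P.map σ)) ⊓ ⨅ M : GM, invS M.1 :
      Submodule ℂ (Frm κ B)) ↔ _
    rw [Submodule.mem_inf, Submodule.mem_iInf, Submodule.mem_iInf]
    constructor
    · rintro ⟨h1, h2⟩
      exact ⟨h1, fun M hM => h2 ⟨M, hM⟩⟩
    · rintro ⟨h1, h2⟩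
      exact ⟨h1, fun M => h2 M.1 M.2⟩
  have hC : ∀ (τ : ℂ ≃+* ℂ), ∀ c ∈ C, (fun i => τ (c i)) ∈ C := by
    intro τ c hc
    rw [hCm] at hc ⊢
    have h4 : cj τ (L c) = L (fun i => τ (c i)) := by
      refine ext_cf fun I => ?_
      rw [cf_cj, hL, hL]
    refine ⟨fun σ => ?_, fun M hM v => ?_⟩
    · have h1 := hc.1 (σ.trans τ.symm)
      have h2 : Bal ((P.map (σ.trans τ.symm)).map τ) (cj τ (L c)) := bal_cj τ h1
      have h3 : (P.map (σ.trans τ.symm)).map τ = P.map σ := by
        ext i j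
        simp
      rw [h3, h4] at h2
      exact h2
    · let w : κ → B → ℂ := fun l i => τ.symm (v l i)
      have hw : ∀ l, v l = fun i => τ (w l i) :=
        fun l => funext fun i => (τ.apply_symm_apply _).symm
      have h5 : (fun l => M *ᵥ v l) = fun l i => τ ((M *ᵥ w l) i) := by
        funext l
        rw [conj_mulVec, hGM M hM, ← hw]
      rw [← h4, h5, cj_apply, hc.2 M hM, ← cj_apply]
      congr 1
      funext l
      exact (hw l).symm
  have h1 := Pool.Agent.W437.HD.span_rational C hC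
  have h2 : cf φ ∈ C := by
    rw [hCm, hL']
    exact ⟨h, h'⟩
  rw [h1] at h2
  have h3 := Submodule.mem_map_of_mem (f := L) h2
  rw [hL', Submodule.map_span] at h3
  refine Submodule.span_mono ?_ h3
  rintro _ ⟨w, ⟨hw, u, hu⟩, rfl⟩
  rw [hCm] at hw
  refine ⟨⟨⟨u, fun I => ?_⟩, ?_⟩, hw.2⟩
  · rw [hL, hu]
  · have h4 := hw.1 (RingEquiv.refl ℂ)
    have h5 : P.map (RingEquiv.refl ℂ) = P := by
      ext i j
      rfl
    rw [h5] at h4
    exact h4

end desc

section ex

variable {n : ℕ} {H : Type} [AddCommGroup H] [Module ℚ H] (b : Basis (Fin n) ℚ H)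

theorem ex_prodT {κ : Type} [Fintype κ] [DecidableEq κ] {s m' : ℕ}
    (e2 : (Fin s × Fin 2) ⊕ (Fin m' × Fin 2) ≃ κ) (β : Fin s → (H →ₗ[ℚ] H →ₗ[ℚ] ℚ))
    (w : MultilinearMap ℚ (fun _ : Fin m' × Fin 2 => H) ℚ) (P : Fin m' × Fin 2 → (H →ₗ[ℚ] H)) :
    ex b (prodT e2 β w P) =
      prodT e2 (fun j => om b (β j)) (ex b w) (fun k => (mQ b (P k)).mulVecLin) := by
  refine ext_cf fun I => ?_
  rw [cf_ex]
  unfold cf
  rw [prodT_apply, prodT_apply, Rat.cast_mul, Rat.cast_prod]
  congr 1
  · refine Finset.prod_congr rfl fun j _ => ?_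
    rw [← om_cpr b, cpr_basis, cpr_basis]
  · rw [← ex_apply b w]
    congr 1
    funext k
    rw [mulVecLin_apply, ← cpr_basis b, mQ_cpr]

theorem mQ_rat (P : H →ₗ[ℚ] H) (σ : ℂ ≃+* ℂ) : (mQ b P).map σ = mQ b P := by
  ext i j
  rw [Matrix.map_apply]
  exact map_ratCast σ _

/-- Invariance of a rational form. -/
theorem inv_ex {κ : Type} [Fintype κ] [DecidableEq κ] (w : MultilinearMap ℚ (fun _ : κ => H) ℚ)
    (g : H →ₗ[ℚ] H) (h : ∀ v, ex b w (fun l => mQ b g *ᵥ v l) = ex b w v) (v : κ → H) :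
    w (fun l => g (v l)) = w v := by
  have h1 := h (fun l => cpr b (v l))
  simp only [mQ_cpr] at h1
  rw [ex_apply, ex_apply] at h1
  exact_mod_cast h1

end ex

end

end Pool.Agent.Q43.HL
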