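import Pool.Agent.Q43.HL.Str4

/-!
# The structure of the Hodge tensors
-/

set_option autoImplicit false
set_option linter.unusedSectionVars false

namespace Pool.Agent.Q43.HL

open Module Matrix NumberField Pool.Agent.H204R3.CM Pool.Agent.H204R3.SP Pool.Agent.H204R3.GP
  Pool.Agent.W516.MTD Pool.Agent.TH170.LV Pool.Agent.W516.FT

noncomputable section

variable {n : ℕ} {H T : Type} [AddCommGroup H] [Module ℚ H] [AddCommGroup T] [Module ℂ T]
  (per : H →+ T) (b : Basis (Fin n) ℚ H) (b' : Basis (Fin n) ℝ T) (hb : ∀ i, b' i = per (b i))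
  {ω₀ : H →ₗ[ℚ] H →ₗ[ℚ] ℚ} (hR : IsRiemannForm per ω₀)

section gen

include hb hR in
/-- Almost equivariant endomorphisms are combinations of Hodge endomorphisms. -/
theorem ae_span {P : (Fin n → ℂ) →ₗ[ℂ] (Fin n → ℂ)} (hP : AlmostEquivariant (rho (pj b')) P) :
    P ∈ Submodule.span ℂ {P' : (Fin n → ℂ) →ₗ[ℂ] (Fin n → ℂ) | ∃ Q : H →ₗ[ℚ] H,
      IsHodgeEnd per Q ∧ P' = (mQ b Q).mulVecLin} := by
  have hpol := isPol_of per b b' hb hR
  have h1 : IsTate2 (rho (pj b')) (chi (pj b')) ((om b ω₀).comp P) := by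
    obtain ⟨Δ, hΔ, h⟩ := hP
    refine ⟨Δ, hΔ, fun s hs u v => ?_⟩
    rw [LinearMap.comp_apply, LinearMap.comp_apply, h s hs, hpol.sim]
  have h2 := tate2_span per b b' hb h1
  have h3 : ∀ B ∈ Submodule.span ℂ {β' | ∃ β₀ : H →ₗ[ℚ] H →ₗ[ℚ] ℚ, IsHodgeBilinear per β₀ ∧
      β' = om b β₀}, ∃ P' ∈ Submodule.span ℂ {P' : (Fin n → ℂ) →ₗ[ℂ] (Fin n → ℂ) |
        ∃ Q : H →ₗ[ℚ] H, IsHodgeEnd per Q ∧ P' = (mQ b Q).mulVecLin},
        ∀ v w, om b ω₀ (P' v) w = B v w := by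
    intro B hB
    induction hB using Submodule.span_induction with
    | mem B hB =>
      obtain ⟨β₀, hβ₀, rfl⟩ := hB
      obtain ⟨Q, hQ1, hQ2⟩ := end_of_hodge per b b' hb hR hβ₀
      refine ⟨_, Submodule.subset_span ⟨Q, hQ1, rfl⟩, fun v w => ?_⟩
      rw [← hQ2, om_comp]
      rfl
    | zero =>
      refine ⟨0, Submodule.zero_mem _, fun v w => ?_⟩
      rw [LinearMap.zero_apply, map_zero, LinearMap.zero_apply]
      rfl
    | add B B' _ _ h h' =>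
      obtain ⟨P1, h1, h2⟩ := h
      obtain ⟨P2, h3, h4⟩ := h'
      refine ⟨P1 + P2, Submodule.add_mem _ h1 h3, fun v w => ?_⟩
      rw [LinearMap.add_apply, map_add, LinearMap.add_apply, h2, h4]
      rfl
    | smul c B _ h =>
      obtain ⟨P1, h1, h2⟩ := h
      refine ⟨c • P1, Submodule.smul_mem _ c h1, fun v w => ?_⟩
      rw [LinearMap.smul_apply, map_smul, LinearMap.smul_apply, h2]
      rfl
  obtain ⟨P', hP', h4⟩ := h3 _ h2
  have h5 : P = P' := by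
    refine LinearMap.ext fun v => ?_
    rw [← sub_eq_zero]
    apply hpol.nondeg
    intro w
    rw [map_sub, LinearMap.sub_apply, h4, LinearMap.comp_apply, sub_self]
  rw [h5]
  exact hP'

include hb hR in
/-- Rational almost equivariant endomorphisms are Hodge endomorphisms. -/
theorem end_of_ae {P₀ : H →ₗ[ℚ] H} (hP : AlmostEquivariant (rho (pj b')) (mQ b P₀).mulVecLin) :
    IsHodgeEnd per P₀ := by
  have hpol := isPol_of per b b' hb hR
  have h0 : om b (ω₀.comp P₀) = (om b ω₀).comp (mQ b P₀).mulVecLin := by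
    refine LinearMap.ext fun v => LinearMap.ext fun w => ?_
    rw [om_comp]
    rfl
  have h1 : IsTate2 (rho (pj b')) (chi (pj b')) (om b (ω₀.comp P₀)) := by
    obtain ⟨Δ, hΔ, h⟩ := hP
    refine ⟨Δ, hΔ, fun s hs u v => ?_⟩
    rw [h0, LinearMap.comp_apply, LinearMap.comp_apply, h s hs, hpol.sim]
  have h2 : IsHodgeBilinear per (ω₀.comp P₀) := by
    rw [← hodge2_tensor per b b' hb, hodge_iff per b b' hb, ← bf_om]
    have h3 := tate_bal (pj_idem b') (tate2_iff.1 h1) (RingEquiv.refl ℂ)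
    rwa [map_refl] at h3
  obtain ⟨Q, hQ1, hQ2⟩ := end_of_hodge per b b' hb hR h2
  have h4 : (mQ b Q).mulVecLin = (mQ b P₀).mulVecLin := by
    refine LinearMap.ext fun v => ?_
    rw [← sub_eq_zero]
    apply hpol.nondeg
    intro w
    rw [map_sub, LinearMap.sub_apply]
    have h5 := om_comp b ω₀ Q v w
    rw [hQ2, om_comp] at h5
    change om b ω₀ (mQ b Q *ᵥ v) w - om b ω₀ (mQ b P₀ *ᵥ v) w = 0
    rw [h5, sub_self]
  have h6 : Q = P₀ := by
    refine LinearMap.ext fun x => ?_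
    have h7 := congrArg (fun f : (Fin n → ℂ) →ₗ[ℂ] (Fin n → ℂ) => f (cpr b x)) h4
    simp only [mulVecLin_apply, mQ_cpr] at h7
    apply b.repr.injective
    ext i
    have h8 := congrFun h7 i
    unfold cpr at h8
    exact_mod_cast h8
  rw [← h6]
  exact hQ1

end gen

variable {ι : Type} [Fintype ι] {E : ι → Type} [∀ i, Field (E i)] [∀ i, NumberField (E i)]
  [∀ i, IsCMField (E i)]
  (u : H ≃ₗ[ℚ] (∀ i, E i)) (Φ : ∀ i, Set (E i →+* ℂ)) (hΦ : ∀ i, IsCMType (Φ i))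
  (hsp : ∀ (m : ℕ) (ψ : MultilinearMap ℚ (fun _ : Fin m × Fin 2 => H) ℚ),
    IsHodgeTensor per ψ → IsHodgeTensor (perS u Φ) ψ)

open Classical in
/-- Two embeddings are related if all words of Hodge tensors have the same excess at them. -/
def WRel (x y : Σ i, (E i →+* ℂ)) : Prop :=
  ∀ (m : ℕ) (ψ : MultilinearMap ℚ (fun _ : Fin m × Fin 2 => H) ℚ), IsHodgeTensor per ψ →
    ∀ I : Fin m × Fin 2 → Σ i, (E i →+* ℂ), ex b ψ (fun k => eb b u (I k)) ≠ 0 →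
      dl bar I x = dl bar I y

/-- The products of Hodge forms and of Hodge tensors invariant under a set of maps. -/
def HSet (GM : Set (H →ₗ[ℚ] H)) (m : ℕ) :
    Set (MultilinearMap ℚ (fun _ : Fin m × Fin 2 => H) ℚ) :=
  {Ψ | ∃ (s m' : ℕ) (e2 : (Fin s × Fin 2) ⊕ (Fin m' × Fin 2) ≃ Fin m × Fin 2)
    (β : Fin s → (H →ₗ[ℚ] H →ₗ[ℚ] ℚ)) (w : MultilinearMap ℚ (fun _ : Fin m' × Fin 2 => H) ℚ)
    (P : Fin m' × Fin 2 → (H →ₗ[ℚ] H)), (∀ j, IsHodgeBilinear per (β j)) ∧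
    (∀ k, IsHodgeEnd per (P k)) ∧ IsHodgeTensor per w ∧
    (∀ g ∈ GM, ∀ v, w (fun k => g (v k)) = w v) ∧ Ψ = prodT e2 β w P}

section main

variable {k : ℕ} (hlf : LevelFree Φ k 0) (hk : 4 ≤ k) {L : Type} [DecidableEq L]
  (bk : (Σ i, (E i →+* ℂ)) → L) (hbk : ∀ x y, bk x = bk y ↔ WRel per b u x y)

open Classical in
theorem wrel_tate {x y : Σ i, (E i →+* ℂ)} (h : WRel per b u x y) (hb : ∀ i, b' i = per (b i))
    (m : ℕ) (φ : Frm (Fin m × Fin 2) (Fin n)) (hφ : IsTate (rho (pj b')) (chi (pj b')) m φ)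
    (I : Fin m × Fin 2 → Σ i, (E i →+* ℂ)) (hI : φ (fun k => eb b u (I k)) ≠ 0) :
    dl bar I x = dl bar I y := by
  by_contra hne
  apply hI
  have h1 := tate_span (pj_idem b') hφ
  refine Submodule.span_induction (p := fun φ _ => φ (fun k => eb b u (I k)) = 0) ?_ ?_ ?_ ?_ h1
  · intro φ' hφ'
    obtain ⟨ψ, rfl⟩ := exists_ex b hφ'.1
    by_contra h2
    exact hne (h m ψ ((hodge_iff per b b' hb ψ).2 hφ'.2) I h2)
  · rfl
  · intro a c _ _ ha hc
    rw [_root_.add_apply, ha, hc, add_zero]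
  · intro c a _ ha
    rw [_root_.smul_apply, ha, smul_zero]

open Classical in
theorem tate_wrel {x y : Σ i, (E i →+* ℂ)} (hb : ∀ i, b' i = per (b i))
    (h : ∀ (m : ℕ) (φ : Frm (Fin m × Fin 2) (Fin n)), IsTate (rho (pj b')) (chi (pj b')) m φ →
      ∀ I : Fin m × Fin 2 → Σ i, (E i →+* ℂ), φ (fun k => eb b u (I k)) ≠ 0 →
        dl bar I x = dl bar I y) : WRel per b u x y := by
  intro m ψ hψ I hI
  exact h m (ex b ψ) (tate_of_HT ⟨ex_rat b ψ, (hodge_iff per b b' hb ψ).1 hψ⟩) I hI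

include hb hR hΦ hsp hlf hk hbk in
/-- Endomorphisms which are constant on the blocks are Hodge endomorphisms. -/
theorem end_block {P₀ : H →ₗ[ℚ] H} (c : (Σ i, (E i →+* ℂ)) → ℂ)
    (hP : ∀ x, mQ b P₀ *ᵥ eb b u x = c x • eb b u x) (hc : ∀ x y, bk x = bk y → c x = c y) :
    IsHodgeEnd per P₀ := by
  classical
  have hpol := isPol_of per b b' hb hR
  obtain ⟨γ, hγ1, hγ2⟩ := exists_special per b b' hb u Φ hΦ hsp
  apply end_of_ae per b b' hb hR
  have h1 : (mQ b P₀).mulVecLin = dg (eb b u) c := by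
    refine (eb b u).ext fun x => ?_
    rw [mulVecLin_apply, hP, dg_basis]
  rw [h1]
  exact dg_block (eb b u) (inv := bar)
    (jj := fun x => om b ω₀ (eb b u x) (eb b u (bar x))) bar_bar bar_ne
    (jj_anti per b b' hb hR u Φ hΦ hsp hlf (by omega))
    (jj_ne per b b' hb hR u Φ hΦ hsp hlf (by omega))
    (om b ω₀) (om_pair per b b' hb hR u Φ hΦ hsp hlf (by omega)) (rho (pj b')) (chi (pj b'))
    hpol.sim hpol.hasProj hγ2 (Nat.cast_ne_zero.2 (mq_ne Φ))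
    (fun x => by rw [← Nat.cast_mul, ev_bar Φ hΦ]) hγ1 (ev_four Φ hΦ hlf hk) bk
    (fun x y h => (hbk x y).2 (tate_wrel per b b' u hb fun m φ hφ I hI => h m φ hφ I hI)) c hc

open Classical in
include hb hR hΦ hsp hlf hk hbk in
/-- **The structure of the Hodge tensors.** -/
theorem strC (GM : Set (H →ₗ[ℚ] H)) (hGM : ∀ g ∈ GM, ∃ G : Matrix (Σ i, (E i →+* ℂ))
      (Σ i, (E i →+* ℂ)) ℂ,
      (∀ v x, (eb b u).repr (mQ b g *ᵥ v) x = ∑ y, G x y * (eb b u).repr v y) ∧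
      (∀ x y, bk x ≠ bk y → G x y = 0) ∧
      ∀ l : L, (Matrix.of fun x y : {x // bk x = l} => G x.1 y.1).det = 1)
    {m : ℕ} (ψ : MultilinearMap ℚ (fun _ : Fin m × Fin 2 => H) ℚ) (hψ : IsHodgeTensor per ψ) :
    ψ ∈ Submodule.span ℚ (HSet per GM m) := by
  classical
  have hpol := isPol_of per b b' hb hR
  obtain ⟨γ, hγ1, hγ2⟩ := exists_special per b b' hb u Φ hΦ hsp
  apply span_descent b
  have h1 := strB (eb b u) (inv := bar)
    (jj := fun x => om b ω₀ (eb b u x) (eb b u (bar x))) bar_bar bar_ne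
    (jj_anti per b b' hb hR u Φ hΦ hsp hlf (by omega))
    (jj_ne per b b' hb hR u Φ hΦ hsp hlf (by omega))
    (om b ω₀) (om_pair per b b' hb hR u Φ hΦ hsp hlf (by omega)) (rho (pj b')) (chi (pj b'))
    hpol.sim hpol.hasProj hγ2 (Nat.cast_ne_zero.2 (mq_ne Φ))
    (fun x => by rw [← Nat.cast_mul, ev_bar Φ hΦ]) hγ1 (ev_four Φ hΦ hlf hk) bk
    (fun x y h => (hbk x y).2 (tate_wrel per b b' u hb fun m φ hφ I hI => h m φ hφ I hI))
    (fun m φ hφ I hI x y h => wrel_tate per b b' u ((hbk x y).1 h) hb m φ hφ I hI)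
    (ex b ψ) (tate_of_HT ⟨ex_rat b ψ, (hodge_iff per b b' hb ψ).1 hψ⟩)
  refine Submodule.span_le.2 ?_ h1
  rintro _ ⟨s, m', e2, β, w, P, hβ, hP, hw, hwS, rfl⟩
  have h2 : w ∈ Submodule.span ℂ {φ' : Frm (Fin m' × Fin 2) (Fin n) | HT (pj b') φ' ∧
      ∀ M ∈ (mQ b) '' GM, ∀ v, φ' (fun l => M *ᵥ v l) = φ' v} := by
    refine mem_span_inv ?_ (fun σ => tate_bal (pj_idem b') hw σ) ?_
    · rintro _ ⟨g, -, rfl⟩ σ
      exact mQ_rat b g σ
    · rintro _ ⟨g, hg, rfl⟩ v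
      obtain ⟨G, hG1, hG2, hG3⟩ := hGM g hg
      exact hwS (mQ b g).mulVecLin G hG1 hG2 hG3 v
  have h3 := prodT_span e2 (fun j => tate2_span per b b' hb (hβ j)) h2
    (fun k => ae_span per b b' hb hR (hP k))
  refine Submodule.span_mono ?_ h3
  rintro _ ⟨β', w', P', hβ', hw', hP', rfl⟩
  choose β₀ hβ1 hβ2 using hβ'
  choose Q hQ1 hQ2 using hP'
  obtain ⟨w₀, rfl⟩ := exists_ex b hw'.1.1
  refine ⟨prodT e2 β₀ w₀ Q, ⟨s, m', e2, β₀, w₀, Q, hβ1, hQ1,
    (hodge_iff per b b' hb w₀).2 hw'.1.2, fun g hg v => inv_ex b w₀ g (fun v => hw'.2 _ ⟨g, hg, rfl⟩ v) v,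
    rfl⟩, ?_⟩
  rw [ex_prodT]
  congr 1
  · funext j
    exact hβ2 j
  · funext j
    exact hQ2 j

end main

end

end Pool.Agent.Q43.HL
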