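import Pool.Agent.Q43.HL.Str5

/-!
# The Galois action on the words of the Hodge tensors
-/

set_option autoImplicit false
set_option linter.unusedSectionVars false

namespace Pool.Agent.Q43.HL

open Module Matrix NumberField Pool.Agent.H204R3.CM Pool.Agent.H204R3.SP Pool.Agent.H204R3.GP
  Pool.Agent.W516.MTD Pool.Agent.TH170.LV Pool.Agent.W516.FT

noncomputable section

section conj

variable {n : ℕ} {H T : Type} [AddCommGroup H] [Module ℚ H] [AddCommGroup T] [Module ℂ T]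
  (per : H →+ T) (b : Basis (Fin n) ℚ H)
  {ι : Type} [Fintype ι] {E : ι → Type} [∀ i, Field (E i)] [∀ i, NumberField (E i)]
  [∀ i, IsCMField (E i)] (u : H ≃ₗ[ℚ] (∀ i, E i))

/-- The action of the automorphisms of the complex numbers. -/
def sgl (σ : ℂ ≃+* ℂ) (x : Σ i, (E i →+* ℂ)) : Σ i, (E i →+* ℂ) :=
  ⟨x.1, (σ : ℂ →+* ℂ).comp x.2⟩

theorem sgl_symm (σ : ℂ ≃+* ℂ) (x : Σ i, (E i →+* ℂ)) : sgl σ (sgl σ.symm x) = x := by
  obtain ⟨i, φ⟩ := x
  unfold sgl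
  congr 1
  ext z
  exact σ.apply_symm_apply _

theorem sgl_symm' (σ : ℂ ≃+* ℂ) (x : Σ i, (E i →+* ℂ)) : sgl σ.symm (sgl σ x) = x := by
  obtain ⟨i, φ⟩ := x
  unfold sgl
  congr 1
  ext z
  exact σ.symm_apply_apply _

theorem sgl_inj (σ : ℂ ≃+* ℂ) {x y : Σ i, (E i →+* ℂ)} : sgl σ x = sgl σ y ↔ x = y :=
  ⟨fun h => by rw [← sgl_symm' σ x, h, sgl_symm'], fun h => by rw [h]⟩

theorem sgl_bar (σ : ℂ ≃+* ℂ) (x : Σ i, (E i →+* ℂ)) : sgl σ (bar x) = bar (sgl σ x) := by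
  obtain ⟨i, φ⟩ := x
  unfold sgl bar
  congr 1
  exact comp_conj σ φ

theorem eb_conj (σ : ℂ ≃+* ℂ) (x : Σ i, (E i →+* ℂ)) :
    (fun i => σ (eb b u x i)) = eb b u (sgl σ x) := by
  classical
  refine ext_cx b u fun y => ?_
  have h1 := cx_conj b u σ (sgl σ.symm y) (eb b u x)
  have h2 : (⟨(sgl σ.symm y).1, (σ : ℂ →+* ℂ).comp (sgl σ.symm y).2⟩ : Σ i, (E i →+* ℂ)) = y :=
    sgl_symm σ y
  rw [h2] at h1
  rw [h1, cx_eb, cx_eb]
  have h3 : (sgl σ.symm y = x) ↔ (y = sgl σ x) := by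
    constructor
    · intro h
      rw [← h, sgl_symm]
    · intro h
      rw [h, sgl_symm']
  simp only [h3]
  split_ifs
  · exact map_one _
  · exact map_zero _

theorem ex_conj {κ : Type} [Fintype κ] [DecidableEq κ] (ψ : MultilinearMap ℚ (fun _ : κ => H) ℚ)
    (σ : ℂ ≃+* ℂ) (I : κ → Σ i, (E i →+* ℂ)) :
    ex b ψ (fun k => eb b u (sgl σ (I k))) = σ (ex b ψ (fun k => eb b u (I k))) := by
  have h1 : (fun k => eb b u (sgl σ (I k))) = fun k i => σ (eb b u (I k) i) :=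
    funext fun k => (eb_conj b u σ (I k)).symm
  rw [h1, ← cj_apply, cj_rat σ (ex_rat b ψ)]

open Classical in
theorem dl_conj {κ : Type} [Fintype κ] (σ : ℂ ≃+* ℂ) (I : κ → Σ i, (E i →+* ℂ))
    (x : Σ i, (E i →+* ℂ)) : dl bar (fun k => sgl σ (I k)) (sgl σ x) = dl bar I x := by
  unfold dl
  simp only [sgl_inj, ← sgl_bar]

theorem wrel_conj (σ : ℂ ≃+* ℂ) {x y : Σ i, (E i →+* ℂ)} (h : WRel per b u x y) :
    WRel per b u (sgl σ x) (sgl σ y) := by
  classical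
  intro m ψ hψ I hI
  let J : Fin m × Fin 2 → Σ i, (E i →+* ℂ) := fun k => sgl σ.symm (I k)
  have hJ : I = fun k => sgl σ (J k) := funext fun k => (sgl_symm σ (I k)).symm
  have h1 : ex b ψ (fun k => eb b u (J k)) ≠ 0 := by
    intro h0
    apply hI
    rw [hJ, ex_conj, h0, map_zero]
  have h2 := h m ψ hψ J h1
  rw [hJ, dl_conj, dl_conj]
  exact h2

end conj



end

end Pool.Agent.Q43.HL
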