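import Pool.Agent.Q43.HL.Str6
import Pool.Agent.Q43.RP.Dh

/-!
# The Galois representation on the excesses of the words of the Hodge tensors
-/

set_option autoImplicit false
set_option linter.unusedSectionVars false

namespace Pool.Agent.Q43.HL

open Module Matrix NumberField Pool.Agent.H204R3.CM Pool.Agent.H204R3.SP Pool.Agent.H204R3.GP
  Pool.Agent.W516.MTD Pool.Agent.TH170.LV Pool.Agent.W516.FT Pool.Agent.Q43.RP
  Pool.Agent.W548.Sh Pool.Agent.TH170.GH

noncomputable section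

variable {n : ℕ} {H T : Type} [AddCommGroup H] [Module ℚ H] [AddCommGroup T] [Module ℂ T]
  (per : H →+ T) (b : Basis (Fin n) ℚ H)

omit [AddCommGroup H] [Module ℚ H] [AddCommGroup T] [Module ℂ T] in
theorem card_filter_equiv {κ κ' : Type} [Fintype κ] [Fintype κ'] (ε : κ ≃ κ') (p : κ → Prop)
    (q : κ' → Prop) {hp : DecidablePred p} {hq : DecidablePred q} (h : ∀ k, p k ↔ q (ε k)) :
    (Finset.univ.filter p).card = (Finset.univ.filter q).card := by
  refine Finset.card_bij (fun k _ => ε k) ?_ ?_ ?_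
  · intro k hk
    rw [Finset.mem_filter] at hk ⊢
    exact ⟨Finset.mem_univ _, (h k).1 hk.2⟩
  · intro k _ k' _ h
    exact ε.injective h
  · intro l hl
    rw [Finset.mem_filter] at hl
    refine ⟨ε.symm l, Finset.mem_filter.2 ⟨Finset.mem_univ _, (h _).2 ?_⟩, ε.apply_symm_apply _⟩
    rw [ε.apply_symm_apply]
    exact hl.2

section KX

variable {ι : Type} [Fintype ι] {E : ι → Type} [∀ i, Field (E i)] [∀ i, NumberField (E i)]
  [∀ i, IsCMField (E i)] (u : H ≃ₗ[ℚ] (∀ i, E i))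

open Classical in
/-- The span of the excesses of the words of Hodge tensors. -/
def KX : Submodule ℚ ((Σ i, (E i →+* ℂ)) → ℚ) :=
  Submodule.span ℚ {f | ∃ (m : ℕ) (ψ : MultilinearMap ℚ (fun _ : Fin m × Fin 2 => H) ℚ)
    (I : Fin m × Fin 2 → Σ i, (E i →+* ℂ)), IsHodgeTensor per ψ ∧
    ex b ψ (fun k => eb b u (I k)) ≠ 0 ∧ f = fun y => ((dl bar I y : ℤ) : ℚ)}

theorem wrel_iff (x y : Σ i, (E i →+* ℂ)) : WRel per b u x y ↔ ∀ f ∈ KX per b u, f x = f y := by
  classical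
  constructor
  · intro h f hf
    refine Submodule.span_induction (p := fun f _ => f x = f y) ?_ ?_ ?_ ?_ hf
    · rintro _ ⟨m, ψ, I, h1, h2, rfl⟩
      exact congrArg (fun z : ℤ => (z : ℚ)) (h m ψ h1 I h2)
    · rfl
    · intro f g _ _ hf hg
      rw [Pi.add_apply, Pi.add_apply, hf, hg]
    · intro c f _ hf
      rw [Pi.smul_apply, Pi.smul_apply, hf]
  · intro h m ψ hψ I hI
    have h1 := h _ (Submodule.subset_span ⟨m, ψ, I, hψ, hI, rfl⟩)
    exact_mod_cast h1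

theorem KX_conj (σ : ℂ ≃+* ℂ) {f : (Σ i, (E i →+* ℂ)) → ℚ} (hf : f ∈ KX per b u) :
    (fun y => f (sgl σ y)) ∈ KX per b u := by
  classical
  refine Submodule.span_induction (p := fun f _ => (fun y => f (sgl σ y)) ∈ KX per b u)
    ?_ ?_ ?_ ?_ hf
  · rintro _ ⟨m, ψ, I, h1, h2, rfl⟩
    let J : Fin m × Fin 2 → Σ i, (E i →+* ℂ) := fun k => sgl σ.symm (I k)
    have hJ : I = fun k => sgl σ (J k) := funext fun k => (sgl_symm σ (I k)).symm
    refine Submodule.subset_span ⟨m, ψ, J, h1, ?_, ?_⟩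
    · intro h0
      apply h2
      rw [hJ, ex_conj, h0, map_zero]
    · funext y
      rw [hJ]
      exact congrArg (fun z : ℤ => (z : ℚ)) (dl_conj σ J y)
  · exact Submodule.zero_mem _
  · intro f g _ _ hf hg
    exact Submodule.add_mem _ hf hg
  · intro c f _ hf
    exact Submodule.smul_mem _ c hf

theorem KX_odd {f : (Σ i, (E i →+* ℂ)) → ℚ} (hf : f ∈ KX per b u) (y : Σ i, (E i →+* ℂ)) :
    f (bar y) = - f y := by
  classical
  refine Submodule.span_induction (p := fun f _ => f (bar y) = - f y) ?_ ?_ ?_ ?_ hf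
  · rintro _ ⟨m, ψ, I, h1, h2, rfl⟩
    refine (congrArg (fun z : ℤ => (z : ℚ)) (dl_inv bar_bar I y)).trans ?_
    push_cast
    rfl
  · simp
  · intro f g _ _ hf hg
    rw [Pi.add_apply, Pi.add_apply, hf, hg]
    ring
  · intro c f _ hf
    rw [Pi.smul_apply, Pi.smul_apply, hf, smul_neg]

theorem sgl_cc (y : Σ i, (E i →+* ℂ)) : sgl cc.symm y = bar y := by
  obtain ⟨i, φ⟩ := y
  unfold sgl bar
  congr 1

/-- The representation of the automorphisms of the complex numbers. -/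
def LamK : (ℂ ≃+* ℂ) →* Module.End ℚ (KX per b u) where
  toFun σ :=
    { toFun := fun f => ⟨fun y => f.1 (sgl σ.symm y), KX_conj per b u σ.symm f.2⟩
      map_add' := fun _ _ => rfl
      map_smul' := fun _ _ => rfl }
  map_one' := rfl
  map_mul' _ _ := rfl

theorem LamK_cc : LamK per b u cc = -1 := by
  refine LinearMap.ext fun f => Subtype.ext (funext fun y => ?_)
  change f.1 (sgl cc.symm y) = - f.1 y
  rw [sgl_cc]
  exact KX_odd per b u f.2 y

theorem LamK_one_iff (σ : ℂ ≃+* ℂ) :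
    LamK per b u σ = 1 ↔ ∀ x, WRel per b u (sgl σ.symm x) x := by
  constructor
  · intro h x
    rw [wrel_iff]
    intro f hf
    have h1 := congrArg (fun L : Module.End ℚ (KX per b u) => (L ⟨f, hf⟩).1 x) h
    exact h1
  · intro h
    refine LinearMap.ext fun f => Subtype.ext (funext fun x => ?_)
    exact (wrel_iff per b u _ _).1 (h x) f.1 f.2

end KX

section fam

variable (b' : Basis (Fin n) ℝ T) (hb : ∀ i, b' i = per (b i))
  {ι : Type} [Fintype ι] {E : ι → Type} [∀ i, Field (E i)] [∀ i, NumberField (E i)]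
  [∀ i, IsCMField (E i)] (u : H ≃ₗ[ℚ] (∀ i, E i)) (Φ : ∀ i, Set (E i →+* ℂ))
  (hΦ : ∀ i, IsCMType (Φ i))
  (hsp : ∀ (m : ℕ) (ψ : MultilinearMap ℚ (fun _ : Fin m × Fin 2 => H) ℚ),
    IsHodgeTensor per ψ → IsHodgeTensor (perS u Φ) ψ)

include hb hΦ hsp in
theorem finrank_KX {N D : ℕ} (hN : ∑ i, finrank ℚ (E i) = 2 * N)
    (hD : N + 1 ≤ mtDim Φ + D) : finrank ℚ (KX per b u) ≤ D := by
  classical
  let _ : MulAction (ℂ ≃+* ℂ) (Σ i, (E i →+* ℂ)) := actC E
  have hsm : ∀ (σ : ℂ ≃+* ℂ) (y : Σ i, (E i →+* ℂ)), σ • y = sgl σ y := fun _ _ => rfl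
  have hcomm : ∀ (σ : ℂ ≃+* ℂ) (y : Σ i, (E i →+* ℂ)), bar (σ • y) = σ • bar y := by
    intro σ y
    rw [hsm, hsm, sgl_bar]
  have hcard : Fintype.card (Σ i, (E i →+* ℂ)) = 2 * N := by
    rw [Fintype.card_sigma, ← hN]
    exact Finset.sum_congr rfl fun i _ => Embeddings.card (E i) ℂ
  let S : Finset (Σ i, (E i →+* ℂ)) := Finset.univ.filter (fun y => y.2 ∈ Φ y.1)
  have hS : ∀ y, y ∈ S ↔ y.2 ∈ Φ y.1 := fun y => by
    simp only [S, Finset.mem_filter, Finset.mem_univ, true_and]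
  have hSH : S ∈ Halves (bar : (Σ i, (E i →+* ℂ)) → _) := by
    rw [mem_Halves]
    intro y
    rw [hS, hS]
    exact hΦ y.1 y.2
  have hrank : Set.range (ind (G := (ℂ ≃+* ℂ)) S) =
      Set.range (fun (σ : ℂ ≃+* ℂ) (y : Σ i, (E i →+* ℂ)) =>
        if (σ : ℂ →+* ℂ).comp y.2 ∈ Φ y.1 then (1 : ℚ) else 0) := by
    congr 1
    funext σ y
    unfold ind
    by_cases h : (σ : ℂ →+* ℂ).comp y.2 ∈ Φ y.1
    · rw [if_pos h, if_pos ((hS _).2 h)]
    · rw [if_neg h, if_neg (fun h' => h ((hS _).1 h'))]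
  have hD' : N + 1 ≤ Module.finrank ℚ (Submodule.span ℚ (Set.range (ind (G := (ℂ ≃+* ℂ)) S))) +
      D := by
    rw [hrank]
    exact hD
  refine le_trans (Submodule.finrank_mono (?_ : KX per b u ≤
    kerQ (ℂ ≃+* ℂ) (bar : (Σ i, (E i →+* ℂ)) → _) S))
    (finrank_kerQ_le (G := (ℂ ≃+* ℂ)) bar_bar hcomm hcard hSH hD')
  unfold KX
  rw [Submodule.span_le]
  rintro _ ⟨m, ψ, I, h1, h2, rfl⟩
  let a : Fin (m * 2) → Σ i, (E i →+* ℂ) := fun l => I (finProdFinEquiv.symm l)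
  have h8 : (fun y => ((exc bar a y : ℤ) : ℚ)) ∈
      kerQ (ℂ ≃+* ℂ) (bar : (Σ i, (E i →+* ℂ)) → _) S := ?_
  · rw [SetLike.mem_coe]
    refine Eq.mpr (congrArg (fun f => f ∈ kerQ (ℂ ≃+* ℂ)
      (bar : (Σ i, (E i →+* ℂ)) → _) S) (funext fun y => ?_)) h8
    refine congrArg (fun z : ℤ => (z : ℚ)) ?_
    unfold dl exc
    refine congrArg₂ (fun p q : ℕ => ((p : ℤ) - q)) ?_ ?_
    · exact card_filter_equiv finProdFinEquiv _ _ fun k => by
        change I k = y ↔ I (finProdFinEquiv.symm (finProdFinEquiv k)) = y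
        rw [Equiv.symm_apply_apply]
    · exact card_filter_equiv finProdFinEquiv _ _ fun k => by
        change I k = bar y ↔ I (finProdFinEquiv.symm (finProdFinEquiv k)) = bar y
        rw [Equiv.symm_apply_apply]
  refine exc_mem_kerQ (G := (ℂ ≃+* ℂ)) bar_bar hcomm hSH a fun σ => ?_
  have h5 : IsTate (rho (pj b')) (chi (pj b')) m (ex b ψ) :=
    tate_of_HT ⟨ex_rat b ψ, (hodge_iff per b b' hb ψ).1 h1⟩
  have h6 := weight_sum b u Φ hΦ (tate_balS per b b' hb u Φ hΦ hsp h5 σ.symm) h2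
  rw [← h6, ← Equiv.sum_comp finProdFinEquiv]
  refine Finset.sum_congr rfl fun k _ => ?_
  have h7 : a (finProdFinEquiv k) = I k := by
    change I (finProdFinEquiv.symm (finProdFinEquiv k)) = I k
    rw [Equiv.symm_apply_apply]
  rw [h7]
  unfold sgn
  by_cases h : (σ : ℂ →+* ℂ).comp (I k).2 ∈ Φ (I k).1
  · rw [if_pos h, if_pos ((hS _).2 h)]
  · rw [if_neg h, if_neg (fun h' => h ((hS _).1 h'))]

end fam

end

end Pool.Agent.Q43.HL
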